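import Pool.Agent.Lib.MP_4662c0_co.Sound

set_option autoImplicit false

/-! From the certificate to the covering property of a polygon. -/

namespace Pool.Agent.Lib.MP_4662c0_co

open Set Real MeasureTheory

/-- The polygon cut out by a list of half-planes. -/
def poly (S : List (ℤ × ℤ × ℤ)) : Set ℂ := {z | ∀ s ∈ S, (s.1 : ℝ) * z.re + s.2.1 * z.im ≤ s.2.2}

lemma convex_half (x y k : ℝ) : Convex ℝ {z : ℂ | x * z.re + y * z.im ≤ k} := by
  intro z hz w hw a b ha hb hab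
  simp only [mem_ofPred_eq, Complex.add_re, Complex.add_im, Complex.smul_re, Complex.smul_im,
    smul_eq_mul] at hz hw ⊢
  have h1 := mul_le_mul_of_nonneg_left hz ha
  have h2 := mul_le_mul_of_nonneg_left hw hb
  have h3 : a * k + b * k = k := by rw [← add_mul, hab, one_mul]
  linarith

lemma convex_poly (S : List (ℤ × ℤ × ℤ)) : Convex ℝ (poly S) := by
  intro z hz w hw a b ha hb hab s hs'
  exact convex_half _ _ _ (hz s hs') (hw s hs') ha hb hab

lemma measurableSet_poly (S : List (ℤ × ℤ × ℤ)) : MeasurableSet (poly S) := by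
  refine IsClosed.measurableSet ?_
  have : poly S = ⋂ s ∈ S, {z : ℂ | (s.1 : ℝ) * z.re + s.2.1 * z.im ≤ s.2.2} := by
    ext z; simp [poly]
  rw [this]
  exact isClosed_biInter fun s _ => isClosed_le (by fun_prop) (by fun_prop)

/-- The record `d` is a positive dependency of the sides `a`, `b`, `c`. -/
def IsDp (d : Dp) (a b c : ℤ × ℤ × ℤ) : Prop :=
  d.x1 = a.1 ∧ d.y1 = a.2.1 ∧ d.x2 = b.1 ∧ d.y2 = b.2.1 ∧ d.x3 = c.1 ∧ d.y3 = c.2.1 ∧
    d.be = d.l1 * a.2.2 + d.l2 * b.2.2 + d.l3 * c.2.2 ∧ 0 < d.l3 ∧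
    d.l1 * a.1 + d.l2 * b.1 + d.l3 * c.1 = 0 ∧ d.l1 * a.2.1 + d.l2 * b.2.1 + d.l3 * c.2.1 = 0 ∧
    a.1 * b.2.1 - a.2.1 * b.1 ≠ 0

instance (d : Dp) (a b c : ℤ × ℤ × ℤ) : Decidable (IsDp d a b c) := by unfold IsDp; infer_instance

def Ngt (p q s : ℤ × ℤ × ℤ) : Prop := s.1 * (q.2.1 - p.2.1) + s.2.1 * (p.1 - q.1) < 0

instance (p q s : ℤ × ℤ × ℤ) : Decidable (Ngt p q s) := by unfold Ngt; infer_instance

/-- Every triple of sides has a common recession direction or is a listed dependency. -/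
def Cov (S : List (ℤ × ℤ × ℤ)) (deps : List Dp) : Prop :=
  ∀ x ∈ S, ∀ y ∈ S, ∀ z ∈ S, (∃ p ∈ S, ∃ q ∈ S, Ngt p q x ∧ Ngt p q y ∧ Ngt p q z) ∨
    ∃ d ∈ deps, ∃ a ∈ [x, y, z], ∃ b ∈ [x, y, z], ∃ c ∈ [x, y, z],
      IsDp d a b c ∧ x ∈ [a, b, c] ∧ y ∈ [a, b, c] ∧ z ∈ [a, b, c]

set_option synthInstance.maxSize 2000 in
instance (S : List (ℤ × ℤ × ℤ)) (deps : List Dp) : Decidable (Cov S deps) := by
  unfold Cov; infer_instance

lemma farkas {S : List (ℤ × ℤ × ℤ)} {deps : List Dp} (h3 : 3 ≤ S.toFinset.card) (hc : Cov S deps)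
    (v : ℤ → ℤ → ℝ)
    (hv : ∀ d ∈ deps, d.l1 * v d.x1 d.y1 + d.l2 * v d.x2 d.y2 + d.l3 * v d.x3 d.y3 ≤ d.be) :
    ∃ b : ℂ, ∀ s ∈ S, (s.1 : ℝ) * b.re + s.2.1 * b.im ≤ s.2.2 - v s.1 s.2.1 := by
  have key := Convex.helly_theorem (𝕜 := ℝ) (E := ℂ) (s := S.toFinset)
    (F := fun s : ℤ × ℤ × ℤ => {b : ℂ | (s.1 : ℝ) * b.re + s.2.1 * b.im ≤ s.2.2 - v s.1 s.2.1})
    (by rw [Complex.finrank_real_complex]; exact h3) (fun s _ => convex_half _ _ _) ?_
  · obtain ⟨b, hb⟩ := key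
    exact ⟨b, fun s hs' => mem_iInter₂.1 hb s (List.mem_toFinset.2 hs')⟩
  intro I hI hcard
  rw [Complex.finrank_real_complex] at hcard
  obtain ⟨x, y, z, -, -, -, rfl⟩ := Finset.card_eq_three.1 hcard
  have hx : x ∈ S := List.mem_toFinset.1 (hI (by simp))
  have hy : y ∈ S := List.mem_toFinset.1 (hI (by simp))
  have hz : z ∈ S := List.mem_toFinset.1 (hI (by simp))
  suffices h : ∃ b : ℂ, ∀ s ∈ [x, y, z], (s.1 : ℝ) * b.re + s.2.1 * b.im ≤ s.2.2 - v s.1 s.2.1 by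
    obtain ⟨b, hb⟩ := h
    exact ⟨b, mem_iInter₂.2 fun s hs' => hb s (by simpa using hs')⟩
  rcases hc x hx y hy z hz with ⟨p, -, q, -, h1, h2, h4⟩ | ⟨d, hd, a, -, b, -, c, -, h1, h2, h4, h5⟩
  · set t : ℝ := |x.2.2 - v x.1 x.2.1| + |y.2.2 - v y.1 y.2.1| + |z.2.2 - v z.1 z.2.1| with ht
    have aux : ∀ s : ℤ × ℤ × ℤ, Ngt p q s → |s.2.2 - v s.1 s.2.1| ≤ t →
        (s.1 : ℝ) * (t * (q.2.1 - p.2.1)) + s.2.1 * (t * (p.1 - q.1)) ≤ s.2.2 - v s.1 s.2.1 := by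
      intro s h1 h2
      have h3 : s.1 * (q.2.1 - p.2.1) + s.2.1 * (p.1 - q.1) ≤ -1 := by
        unfold Ngt at h1; omega
      have h4 : (s.1 : ℝ) * (q.2.1 - p.2.1) + s.2.1 * (p.1 - q.1) ≤ -1 := by exact_mod_cast h3
      have h5 := mul_le_mul_of_nonneg_left h4 ((abs_nonneg _).trans h2)
      linarith [neg_abs_le (s.2.2 - v s.1 s.2.1)]
    refine ⟨⟨t * (q.2.1 - p.2.1), t * (p.1 - q.1)⟩, fun s hs' => ?_⟩
    have a1 := abs_nonneg (x.2.2 - v x.1 x.2.1)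
    have a2 := abs_nonneg (y.2.2 - v y.1 y.2.1)
    have a3 := abs_nonneg (z.2.2 - v z.1 z.2.1)
    simp only [List.mem_cons, List.not_mem_nil, or_false] at hs'
    rcases hs' with rfl | rfl | rfl
    · exact aux _ h1 (by linarith)
    · exact aux _ h2 (by linarith)
    · exact aux _ h4 (by linarith)
  · obtain ⟨e1, e2, e3, e4, e5, e6, e7, e8, e9, e10, e11⟩ := h1
    have hv' := hv d hd
    rw [e1, e2, e3, e4, e5, e6, e7] at hv'
    push_cast at hv'
    have r8 : (0 : ℝ) < d.l3 := by exact_mod_cast e8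
    have r9 : (d.l1 : ℝ) * a.1 + d.l2 * b.1 + d.l3 * c.1 = 0 := by exact_mod_cast e9
    have r10 : (d.l1 : ℝ) * a.2.1 + d.l2 * b.2.1 + d.l3 * c.2.1 = 0 := by exact_mod_cast e10
    have r11 : (a.1 : ℝ) * b.2.1 - a.2.1 * b.1 ≠ 0 := by exact_mod_cast e11
    set c1 : ℝ := a.2.2 - v a.1 a.2.1 with hc1
    set c2 : ℝ := b.2.2 - v b.1 b.2.1 with hc2
    set D : ℝ := (a.1 : ℝ) * b.2.1 - a.2.1 * b.1 with hD
    have f1 : (a.1 : ℝ) * ((c1 * b.2.1 - c2 * a.2.1) / D) + a.2.1 * ((c2 * a.1 - c1 * b.1) / D) = c1 := by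
      field_simp; rw [hD]; ring
    have f2 : (b.1 : ℝ) * ((c1 * b.2.1 - c2 * a.2.1) / D) + b.2.1 * ((c2 * a.1 - c1 * b.1) / D) = c2 := by
      field_simp; rw [hD]; ring
    generalize (c1 * b.2.1 - c2 * a.2.1) / D = X at f1 f2
    generalize (c2 * a.1 - c1 * b.1) / D = Y at f1 f2
    have f3 : (c.1 : ℝ) * X + c.2.1 * Y ≤ c.2.2 - v c.1 c.2.1 := by
      refine le_of_mul_le_mul_left ?_ r8
      have : (d.l3 : ℝ) * (c.1 * X + c.2.1 * Y) = -(d.l1 * c1) - d.l2 * c2 := by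
        rw [← f1, ← f2]; linear_combination X * r9 + Y * r10
      rw [this, hc1, hc2]; linarith
    have all : ∀ s ∈ [a, b, c], (s.1 : ℝ) * X + s.2.1 * Y ≤ s.2.2 - v s.1 s.2.1 := by
      intro s hs'
      simp only [List.mem_cons, List.not_mem_nil, or_false] at hs'
      rcases hs' with rfl | rfl | rfl
      · exact f1.le
      · exact f2.le
      · exact f3
    refine ⟨⟨X, Y⟩, fun s hs' => ?_⟩
    simp only [List.mem_cons, List.not_mem_nil, or_false] at hs'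
    rcases hs' with rfl | rfl | rfl
    · exact all _ h2
    · exact all _ h4
    · exact all _ h5

/-- A congruent copy of the curve lies in `K`; reflections are allowed when `ref` is true. -/
def Fits (K : Set ℂ) (ref : Bool) (γ : ℝ → ℂ) : Prop :=
  ∃ a b : ℂ, ‖a‖ = 1 ∧ ((∀ t ∈ Icc (0 : ℝ) 1, a * γ t + b ∈ K) ∨
    (ref = true ∧ ∀ t ∈ Icc (0 : ℝ) 1, a * (starRingEnd ℂ) (γ t) + b ∈ K))

lemma rot_facts (ref : Bool) (c : ℕ) : 0 < (rotP ref c).n ∧
    (rotP ref c).a ^ 2 + (rotP ref c).b ^ 2 = (rotP ref c).n ^ 2 ∧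
    ((rotP ref c).f = 1 ∨ (ref = true ∧ (rotP ref c).f = -1)) := by
  have hp : 0 < rp c := by simp only [rp, Int.ofNat_eq_natCast]; exact_mod_cast Nat.succ_pos _
  simp only [rotP, imul_eq, iadd_eq, isub_eq]
  refine ⟨by nlinarith [mul_self_nonneg (rq c)], by ring, ?_⟩
  unfold rf
  cases ref
  · exact Or.inl rfl
  · generalize Nat.ble 134217728 c = b
    cases b
    · exact Or.inl rfl
    · exact Or.inr ⟨rfl, rfl⟩

lemma norm_rot {a b n : ℝ} (hn : 0 < n) (h : a ^ 2 + b ^ 2 = n ^ 2) : ‖(⟨a / n, b / n⟩ : ℂ)‖ = 1 := by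
  have h1 : ‖(⟨a / n, b / n⟩ : ℂ)‖ ^ 2 = 1 ^ 2 := by
    rw [norm_sq_eq]; field_simp; linarith
  exact (pow_left_inj₀ (norm_nonneg _) zero_le_one two_ne_zero).1 h1

lemma nofit_dep {S : List (ℤ × ℤ × ℤ)} {deps : List Dp} (h3 : 3 ≤ S.toFinset.card) (hc : Cov S deps)
    {ref : Bool} {γ : ℝ → ℂ} (h : Worm γ) (hn : ¬ Fits (poly S) ref γ) (c : ℕ) :
    ∃ d ∈ deps, Holds γ (depC d (rotP ref c) 1) := by
  by_contra hcon
  push Not at hcon
  obtain ⟨r1, r2, r3⟩ := rot_facts ref c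
  generalize rotP ref c = R at hcon r1 r2 r3
  have n0 : (0 : ℝ) < R.n := by exact_mod_cast r1
  have n1 : (R.a : ℝ) ^ 2 + (-R.b) ^ 2 = R.n ^ 2 := by
    rw [neg_sq]; exact_mod_cast r2
  obtain ⟨b, hb⟩ := farkas h3 hc (fun x y => hs γ ⟨rx R x y, ry R x y⟩ / R.n) fun d hd => by
    have := hcon d hd
    simp only [Holds, depC, pval, imul_eq, List.map_cons, List.map_nil, List.sum_cons, List.sum_nil,
      not_le] at this
    push_cast at this
    rw [← mul_div_assoc, ← mul_div_assoc, ← mul_div_assoc, ← add_div, ← add_div, div_le_iff₀ n0]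
    linarith
  refine hn ⟨⟨R.a / R.n, -R.b / R.n⟩, b, norm_rot n0 n1, ?_⟩
  have aux : ∀ s ∈ S, ∀ t ∈ Icc (0 : ℝ) 1, (s.1 : ℝ) * b.re + s.2.1 * b.im +
      dot (γ t) ⟨rx R s.1 s.2.1, ry R s.1 s.2.1⟩ / R.n ≤ s.2.2 := by
    intro s hs' t ht
    have := div_le_div_of_nonneg_right (h.le_hs ⟨rx R s.1 s.2.1, ry R s.1 s.2.1⟩ ht) n0.le
    linarith [hb s hs']
  rcases r3 with r3 | ⟨r3, r4⟩
  · refine Or.inl fun t ht s hs' => le_of_eq_of_le ?_ (aux s hs' t ht)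
    simp only [dot, rx, ry, r3, imul_eq, iadd_eq, isub_eq, Complex.add_re, Complex.add_im,
      Complex.mul_re, Complex.mul_im]
    push_cast
    ring
  · refine Or.inr ⟨r3, fun t ht s hs' => le_of_eq_of_le ?_ (aux s hs' t ht)⟩
    simp only [dot, rx, ry, r4, imul_eq, iadd_eq, isub_eq, Complex.add_re, Complex.add_im,
      Complex.mul_re, Complex.mul_im, Complex.conj_re, Complex.conj_im]
    push_cast
    ring

lemma Worm.comp {γ : ℝ → ℂ} (h : Worm γ) {f : ℂ → ℂ} (hf : ∀ z w, ‖f z - f w‖ = ‖z - w‖) :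
    Worm fun t => f (γ t) := by
  have hl : LipschitzWith 1 f := LipschitzWith.of_dist_le_mul fun z w => by
    simp [dist_eq_norm, hf]
  refine ⟨hl.continuous.comp_continuousOn h.cont, by simp only [h.closed], ?_⟩
  have := (hl.lipschitzOnWith (s := univ)).comp_eVariationOn_le (g := γ) (s := Icc 0 1) (mapsTo_univ _ _)
  simp only [ENNReal.coe_one, one_mul] at this
  exact this.trans h.len

/-- The width is smallest in the direction of the real axis. -/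
def MinW (γ : ℝ → ℂ) : Prop := ∀ v : ℂ, ‖v‖ = 1 → hs γ 1 + hs γ (-1) ≤ hs γ v + hs γ (-v)

lemma hs_rot (γ : ℝ → ℂ) (c v : ℂ) : hs (fun t => (starRingEnd ℂ) c * γ t) v = hs γ (c * v) := by
  simp only [hs]
  congr 2
  funext t
  simp [dot]; ring

lemma exists_minW {K : Set ℂ} {ref : Bool} {γ : ℝ → ℂ} (h : Worm γ) (hn : ¬ Fits K ref γ) :
    ∃ δ, Worm δ ∧ ¬ Fits K ref δ ∧ MinW δ := by
  obtain ⟨c, hc, hmin⟩ := (isCompact_sphere (0 : ℂ) 1).exists_isMinOn ⟨1, by simp⟩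
    (f := fun v => hs γ v + hs γ (-v))
    (h.continuous_hs.add (h.continuous_hs.comp continuous_neg)).continuousOn
  have hc1 : ‖c‖ = 1 := by simpa using hc
  refine ⟨fun t => (starRingEnd ℂ) c * γ t, h.comp (f := fun z => (starRingEnd ℂ) c * z) fun z w => ?_,
    ?_, fun v hv => ?_⟩
  · rw [← mul_sub, norm_mul, Complex.norm_conj, hc1, one_mul]
  · rintro ⟨a, b, ha, h1 | ⟨h1, h2⟩⟩
    · exact hn ⟨a * (starRingEnd ℂ) c, b, by simp [ha, hc1], Or.inl fun t ht => by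
        simpa only [mul_assoc] using h1 t ht⟩
    · exact hn ⟨a * c, b, by simp [ha, hc1], Or.inr ⟨h1, fun t ht => by
        simpa only [mul_assoc, map_mul, Complex.conj_conj] using h2 t ht⟩⟩
  · simp only [hs_rot, mul_one, mul_neg]
    exact hmin (show c * v ∈ Metric.sphere (0 : ℂ) 1 by simp [hc1, hv])

lemma cut_holds {γ : ℝ → ℂ} (h : Worm γ) (hm : MinW γ) {G : ℤ} (hG : 0 ≤ G) (c : ℕ) :
    Holds γ (cutC G (rotP false c)) := by
  obtain ⟨r1, r2, -⟩ := rot_facts false c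
  generalize rotP false c = R at r1 r2
  have n0 : (0 : ℝ) < R.n := by exact_mod_cast r1
  have n1 : (R.a : ℝ) ^ 2 + R.b ^ 2 = R.n ^ 2 := by exact_mod_cast r2
  have g0 : (0 : ℝ) ≤ G := by exact_mod_cast hG
  have h1 := hm _ (norm_rot n0 n1)
  have e1 : hs γ ⟨R.a, R.b⟩ = R.n * hs γ ⟨R.a / R.n, R.b / R.n⟩ := by
    rw [← h.hs_smul _ n0.le]
    congr 1
    apply Complex.ext <;> simp <;> field_simp
  have e2 : hs γ ⟨-R.a, -R.b⟩ = R.n * hs γ (-⟨R.a / R.n, R.b / R.n⟩) := by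
    rw [← h.hs_smul _ n0.le]
    congr 1
    apply Complex.ext <;> simp <;> field_simp
  have e3 : (⟨1, 0⟩ : ℂ) = 1 := rfl
  have e4 : (⟨-1, 0⟩ : ℂ) = -1 := by apply Complex.ext <;> simp
  have e5 : ∀ z : ℤ, Int.neg z = -z := fun _ => rfl
  simp only [Holds, cutC, pval, imul_eq, List.map_cons, List.map_nil, List.sum_cons, List.sum_nil, e5]
  push_cast
  rw [e1, e2, e3, e4]
  have := mul_le_mul_of_nonneg_left h1 (mul_nonneg g0 n0.le)
  linarith

/-- Multiplication of the coordinates by signs. -/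
def flip (s : ℤ × ℤ) (z : ℂ) : ℂ := ⟨s.1 * z.re, s.2 * z.im⟩

/-- The allowed pairs of signs. -/
def Sg (ref : Bool) : Finset (ℤ × ℤ) :=
  if ref then {(1, 1), (-1, -1), (1, -1), (-1, 1)} else {(1, 1), (-1, -1)}

lemma hs_flip (γ : ℝ → ℂ) (s : ℤ × ℤ) (v : ℂ) : hs (fun t => flip s (γ t)) v = hs γ (flip s v) := by
  simp only [hs]
  congr 2
  funext t
  simp [dot, flip]; ring

lemma sg_cases {ref : Bool} {s : ℤ × ℤ} (hs' : s ∈ Sg ref) :
    (∀ z, flip s z = z) ∨ (∀ z, flip s z = -z) ∨ (ref = true ∧ ∀ z, flip s z = (starRingEnd ℂ) z) ∨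
      (ref = true ∧ ∀ z, flip s z = -(starRingEnd ℂ) z) := by
  cases ref
  · simp only [Sg, Bool.false_eq_true, if_false, Finset.mem_insert, Finset.mem_singleton] at hs'
    rcases hs' with rfl | rfl
    · exact Or.inl fun z => by apply Complex.ext <;> simp [flip]
    · exact Or.inr (Or.inl fun z => by apply Complex.ext <;> simp [flip])
  · simp only [Sg, if_true, Finset.mem_insert, Finset.mem_singleton] at hs'
    rcases hs' with rfl | rfl | rfl | rfl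
    · exact Or.inl fun z => by apply Complex.ext <;> simp [flip]
    · exact Or.inr (Or.inl fun z => by apply Complex.ext <;> simp [flip])
    · exact Or.inr (Or.inr (Or.inl ⟨rfl, fun z => by apply Complex.ext <;> simp [flip]⟩))
    · exact Or.inr (Or.inr (Or.inr ⟨rfl, fun z => by apply Complex.ext <;> simp [flip]⟩))

lemma sg_mul (ref : Bool) : ∀ s ∈ Sg ref, ∀ s' ∈ Sg ref, s * s' ∈ Sg ref := by
  cases ref <;> decide

lemma flip_norm {ref : Bool} {s : ℤ × ℤ} (hs' : s ∈ Sg ref) (z w : ℂ) :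
    ‖flip s z - flip s w‖ = ‖z - w‖ := by
  rcases sg_cases hs' with h | h | ⟨-, h⟩ | ⟨-, h⟩ <;> rw [h, h]
  · rw [neg_sub_neg, norm_sub_rev]
  · rw [← map_sub, Complex.norm_conj]
  · rw [neg_sub_neg, ← map_sub, Complex.norm_conj, norm_sub_rev]

lemma flip_fits {K : Set ℂ} {ref : Bool} {s : ℤ × ℤ} (hs' : s ∈ Sg ref) {γ : ℝ → ℂ}
    (h : Fits K ref fun t => flip s (γ t)) : Fits K ref γ := by
  obtain ⟨a, b, ha, h⟩ := h
  rcases sg_cases hs' with e | e | ⟨r, e⟩ | ⟨r, e⟩ <;> simp only [e] at h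
  · exact ⟨a, b, ha, h⟩
  · exact ⟨-a, b, by simpa using ha, by simpa using h⟩
  · refine ⟨a, b, ha, ?_⟩
    rcases h with h | ⟨-, h⟩
    · exact Or.inr ⟨r, h⟩
    · exact Or.inl (by simpa using h)
  · refine ⟨-a, b, by simpa using ha, ?_⟩
    rcases h with h | ⟨-, h⟩
    · exact Or.inr ⟨r, by simpa using h⟩
    · exact Or.inl (by simpa using h)

lemma flip_minW {ref : Bool} {s : ℤ × ℤ} (hs' : s ∈ Sg ref) {γ : ℝ → ℂ} (h : MinW γ) :
    MinW fun t => flip s (γ t) := by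
  intro v hv
  simp only [hs_flip]
  rcases sg_cases hs' with e | e | ⟨-, e⟩ | ⟨-, e⟩ <;> simp only [e, map_one, map_neg, neg_neg]
  · exact h v hv
  · linarith [h v hv]
  · exact h _ (by simpa using hv)
  · linarith [h ((starRingEnd ℂ) v) (by simpa using hv)]

theorem cover {S : List (ℤ × ℤ × ℤ)} {deps : List Dp} {G : ℤ} {ref : Bool} {av0 : List (List Pe)}
    (d : Dp) (R : Rt) (hG : 0 ≤ G) (h3 : 3 ≤ S.toFinset.card) (hc : Cov S deps)
    (ha : ∀ c ∈ av0, ∃ s ∈ Sg ref, c = symC d R s.1 s.2) (hD : Dead G ref deps av0 [])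
    {γ : ℝ → ℂ} (h : Worm γ) : Fits (poly S) ref γ := by
  by_contra hn
  obtain ⟨δ, h1, h2, h4⟩ := exists_minW h hn
  obtain ⟨s, hs1, hs2⟩ := Finset.exists_min_image (Sg ref) (fun s =>
    d.l1 * hs δ (flip s ⟨rx R d.x1 d.y1, ry R d.x1 d.y1⟩) +
    d.l2 * hs δ (flip s ⟨rx R d.x2 d.y2, ry R d.x2 d.y2⟩) +
    d.l3 * hs δ (flip s ⟨rx R d.x3 d.y3, ry R d.x3 d.y3⟩)) ⟨(1, 1), by cases ref <;> decide⟩
  have w := h1.comp (flip_norm hs1)
  refine hD.root (fun t => flip s (δ t)) ⟨w, nofit_dep h3 hc w fun hf => h2 (flip_fits hs1 hf),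
    cut_holds w (flip_minW hs1 h4) hG, fun c hc' => ?_⟩
  obtain ⟨s', hs3, rfl⟩ := ha c hc'
  have := hs2 _ (sg_mul ref s hs1 s' hs3)
  simp only [Holds, symC, pval, List.map_cons, List.map_nil, List.sum_cons, List.sum_nil, hs_flip]
  simp only [flip, Prod.fst_mul, Prod.snd_mul] at this ⊢
  push_cast at this ⊢
  simp only [mul_assoc] at this
  linarith

/-- The area of a trapezoid with vertical parallel sides. -/
lemma vol_trap {x0 x1 a b c d : ℝ} (h : x0 ≤ x1) (h0 : a * x0 + b ≤ c * x0 + d)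
    (h1 : a * x1 + b ≤ c * x1 + d) :
    volume {z : ℂ | x0 ≤ z.re ∧ z.re ≤ x1 ∧ a * z.re + b ≤ z.im ∧ z.im ≤ c * z.re + d} =
      ENNReal.ofReal ((x1 - x0) * ((c - a) * (x0 + x1) / 2 + d - b)) := by
  have hm : MeasurableSet {p : ℝ × ℝ | x0 ≤ p.1 ∧ p.1 ≤ x1 ∧ a * p.1 + b ≤ p.2 ∧ p.2 ≤ c * p.1 + d} := by
    refine IsClosed.measurableSet ?_
    simp only [ofPred_and]
    refine (isClosed_le ?_ ?_).inter ((isClosed_le ?_ ?_).inter
      ((isClosed_le ?_ ?_).inter (isClosed_le ?_ ?_))) <;> fun_prop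
  have e := Complex.volume_preserving_equiv_real_prod.measure_preimage hm.nullMeasurableSet
  refine Eq.trans ?_ (e.trans ?_)
  · rfl
  rw [Measure.volume_eq_prod, Measure.prod_apply hm]
  have e2 : ∀ x : ℝ, volume (Prod.mk x ⁻¹'
      {p : ℝ × ℝ | x0 ≤ p.1 ∧ p.1 ≤ x1 ∧ a * p.1 + b ≤ p.2 ∧ p.2 ≤ c * p.1 + d}) =
      (Icc x0 x1).indicator (fun x => ENNReal.ofReal ((c - a) * x + (d - b))) x := by
    intro x
    by_cases hx : x ∈ Icc x0 x1
    · rw [indicator_of_mem hx]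
      have : Prod.mk x ⁻¹' {p : ℝ × ℝ | x0 ≤ p.1 ∧ p.1 ≤ x1 ∧ a * p.1 + b ≤ p.2 ∧ p.2 ≤ c * p.1 + d} =
          Icc (a * x + b) (c * x + d) := by
        ext y; simp [hx.1, hx.2]
      rw [this, Real.volume_Icc]
      congr 1; ring
    · rw [indicator_of_notMem hx]
      have : Prod.mk x ⁻¹' {p : ℝ × ℝ | x0 ≤ p.1 ∧ p.1 ≤ x1 ∧ a * p.1 + b ≤ p.2 ∧ p.2 ≤ c * p.1 + d} =
          ∅ := by
        ext y
        simp only [mem_preimage, mem_ofPred_eq, mem_empty_iff_false, iff_false]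
        exact fun hh => hx ⟨hh.1, hh.2.1⟩
      rw [this, measure_empty]
  simp only [e2]
  rw [lintegral_indicator measurableSet_Icc, ← ofReal_integral_eq_lintegral_ofReal]
  · congr 1
    rw [integral_Icc_eq_integral_Ioc, ← intervalIntegral.integral_of_le h,
      intervalIntegral.integral_add, intervalIntegral.integral_const_mul, integral_id,
      intervalIntegral.integral_const]
    · simp only [smul_eq_mul]; ring
    · exact (continuous_const.mul continuous_id).intervalIntegrable _ _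
    · exact continuous_const.intervalIntegrable _ _
  · exact (Continuous.continuousOn (by fun_prop)).integrableOn_Icc
  · refine (ae_restrict_iff' measurableSet_Icc).2 (Filter.Eventually.of_forall fun x hx => ?_)
    simp only [Pi.zero_apply]
    rcases le_total a c with hac | hac
    · nlinarith [hx.1, hx.2]
    · nlinarith [hx.1, hx.2]

end Pool.Agent.Lib.MP_4662c0_co
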