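import Pool.Agent.Lib.MP_4662c0_co.Poly

set_option autoImplicit false

/-! Covers for closed curves under translations and rotations by multiples of `π / m`. -/

namespace Pool.Agent.Lib.MP_4662c0_co

open Set Real MeasureTheory

lemma Worm.approx {γ : ℝ → ℂ} (h : Worm γ) {ε : ℝ} (hε : 0 < ε) :
    ∃ (N : ℕ) (d : ℕ → ℂ), ∑ k ∈ Finset.range N, ‖d k‖ ≤ 1 ∧
      ∀ θ, hs γ (uu θ) + hs γ (-uu θ) ≤
        (1 / 2) * ∑ k ∈ Finset.range N, |dot (d k) (uu θ)| + ε := by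
  have hε' : 0 < ε / 2 := by positivity
  obtain ⟨δ, hδ, hu⟩ := Metric.uniformContinuousOn_iff.1
    (isCompact_Icc.uniformContinuousOn_of_continuous h.cont) _ hε'
  obtain ⟨n, hn⟩ := exists_nat_one_div_lt hδ
  set N : ℕ := n + 1 with hN
  have hN0 : (0 : ℝ) < N := by positivity
  let s : ℕ → ℝ := fun k => min ((k : ℝ) / N) 1
  have hs_mem : ∀ k, s k ∈ Icc (0 : ℝ) 1 := fun k =>
    ⟨le_min (by positivity) zero_le_one, min_le_right _ _⟩
  have hs_mono : Monotone s := fun a b hab =>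
    min_le_min (div_le_div_of_nonneg_right (by exact_mod_cast hab) hN0.le) le_rfl
  have hs0 : s 0 = 0 := by simp [s]
  have hsN : s N = 1 := by simp only [s]; rw [div_self hN0.ne']; simp
  have near : ∀ t ∈ Icc (0 : ℝ) 1, ∃ k ≤ N, ‖γ t - γ (s k)‖ ≤ ε / 2 := by
    intro t ht
    have h0 : 0 ≤ t * N := mul_nonneg ht.1 hN0.le
    have h1 : (⌊t * N⌋₊ : ℝ) ≤ t * N := Nat.floor_le h0
    have h2 : t * N < ⌊t * N⌋₊ + 1 := Nat.lt_floor_add_one _
    have h3 : t * N ≤ N := by nlinarith [ht.2]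
    have h4 : (⌊t * N⌋₊ : ℝ) / N ≤ t := by rw [div_le_iff₀ hN0]; exact h1
    refine ⟨⌊t * N⌋₊, by exact_mod_cast h1.trans h3, ?_⟩
    rw [← dist_eq_norm]
    refine (hu t ht _ (hs_mem _) ?_).le
    have h5 : s ⌊t * N⌋₊ = (⌊t * N⌋₊ : ℝ) / N := min_eq_left (h4.trans ht.2)
    rw [h5, Real.dist_eq, abs_of_nonneg (by linarith)]
    have h6 : t - (⌊t * N⌋₊ : ℝ) / N < 1 / N := by
      rw [sub_lt_iff_lt_add, ← add_div, lt_div_iff₀ hN0]; linarith
    have h7 : (1 : ℝ) / N < δ := by rw [hN]; push_cast; exact hn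
    linarith
  have hlen : ∑ k ∈ Finset.range N, ‖γ (s (k + 1)) - γ (s k)‖ ≤ 1 := by
    have h1 := (eVariationOn.sum_le (f := γ) (n := N) hs_mono hs_mem).trans h.len
    simp only [edist_dist, dist_eq_norm] at h1
    rw [← ENNReal.ofReal_sum_of_nonneg (fun _ _ => norm_nonneg _)] at h1
    exact ENNReal.ofReal_le_one.1 h1
  refine ⟨N, fun k => γ (s (k + 1)) - γ (s k), hlen, fun θ => ?_⟩
  obtain ⟨t1, ht1, e1, -⟩ := h.exists_max (uu θ)
  obtain ⟨t2, ht2, e2, -⟩ := h.exists_max (-uu θ)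
  obtain ⟨i, hi, hi'⟩ := near t1 ht1
  obtain ⟨j, hj, hj'⟩ := near t2 ht2
  have h1 := tour_two (fun k => dot (γ (s k)) (uu θ)) N i j hi hj (by simp only [hsN, hs0, h.closed])
  have h2 := dot_le (γ t1 - γ (s i)) (uu θ)
  have h3 := dot_le (γ t2 - γ (s j)) (-uu θ)
  rw [norm_neg] at h3
  rw [norm_uu, mul_one, dot_sub_left] at h2 h3
  have h4 : dot (γ (s j)) (-uu θ) = -dot (γ (s j)) (uu θ) := by simp [dot]; ring
  simp only [dot_sub_left]
  linarith

lemma sum_abs_cos (m : ℕ) (hm : 1 ≤ m) (t : ℝ) :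
    ∑ j ∈ Finset.range m, |cos (t + j * (π / m))| ≤ 1 / sin (π / (2 * m)) := by
  have hm0 : (1 : ℝ) ≤ m := by exact_mod_cast hm
  set a : ℝ := π / m with ha
  have ha0 : 0 < a := div_pos pi_pos (by linarith)
  have hma : (m : ℝ) * a = π := by rw [ha]; field_simp
  have ha1 : a ≤ π := by nlinarith
  have e2 : π / (2 * m) = a / 2 := by rw [ha]; field_simp
  have hs0 : 0 < sin (a / 2) := sin_pos_of_pos_of_lt_pi (by linarith) (by linarith [pi_pos])
  have hper : Function.Periodic (fun t : ℝ => ∑ j ∈ Finset.range m, |cos (t + j * a)|) a := by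
    intro x
    have h1 := Finset.sum_range_succ (fun j : ℕ => |cos (x + j * a)|) m
    have h2 := Finset.sum_range_succ' (fun j : ℕ => |cos (x + j * a)|) m
    simp only [hma, cos_add_pi, abs_neg, Nat.cast_zero, zero_mul, add_zero] at h1 h2
    have h3 : ∑ j ∈ Finset.range m, |cos (x + a + j * a)| =
        ∑ j ∈ Finset.range m, |cos (x + ((j + 1 : ℕ) : ℝ) * a)| :=
      Finset.sum_congr rfl fun j _ => by congr 2; push_cast; ring
    show ∑ j ∈ Finset.range m, |cos (x + a + j * a)| = ∑ j ∈ Finset.range m, |cos (x + j * a)|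
    linarith
  obtain ⟨y, hy, e⟩ := hper.exists_mem_Ico ha0 t (-(π / 2))
  rw [e, e2, le_div_iff₀ hs0]
  have h1 : ∀ j ∈ Finset.range m, |cos (y + j * a)| * sin (a / 2) =
      sin (y + ((j + 1 : ℕ) : ℝ) * a - a / 2) / 2 - sin (y + j * a - a / 2) / 2 := by
    intro j hj
    have hj1 : (j : ℝ) + 1 ≤ m := by exact_mod_cast Finset.mem_range.1 hj
    have hj0 : (0 : ℝ) ≤ j := Nat.cast_nonneg j
    rw [abs_of_nonneg (cos_nonneg_of_neg_pi_div_two_le_of_le (by nlinarith [hy.1])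
      (by nlinarith [hy.2]))]
    have e3 : y + ((j + 1 : ℕ) : ℝ) * a - a / 2 = (y + j * a) + a / 2 := by push_cast; ring
    rw [e3, sin_add, sin_sub]; ring
  rw [Finset.sum_mul, Finset.sum_congr rfl h1,
    Finset.sum_range_sub (fun j : ℕ => sin (y + j * a - a / 2) / 2)]
  linarith [sin_le_one (y + m * a - a / 2), neg_one_le_sin (y + ((0 : ℕ) : ℝ) * a - a / 2)]

/-- The widths in `m` equally spaced directions. -/
lemma Worm.widths {γ : ℝ → ℂ} (h : Worm γ) (m : ℕ) (hm : 1 ≤ m) (α : ℝ) :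
    ∑ j ∈ Finset.range m, (hs γ (uu (α + j * (π / m))) + hs γ (-uu (α + j * (π / m)))) ≤
      1 / (2 * sin (π / (2 * m))) := by
  have hm0 : (1 : ℝ) ≤ m := by exact_mod_cast hm
  have hs0 : 0 < sin (π / (2 * m)) := by
    refine sin_pos_of_pos_of_lt_pi (div_pos pi_pos (by linarith)) ?_
    rw [div_lt_iff₀ (by linarith)]
    nlinarith [pi_pos]
  refine le_of_forall_pos_le_add fun ε hε => ?_
  obtain ⟨N, d, h1, h2⟩ := h.approx (ε := ε / m) (div_pos hε (by linarith))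
  have h3 : ∀ k ∈ Finset.range N, ∑ j ∈ Finset.range m, |dot (d k) (uu (α + j * (π / m)))| ≤
      ‖d k‖ * (1 / sin (π / (2 * m))) := by
    intro k _
    simp only [dot_uu, abs_mul, abs_norm, ← Finset.mul_sum]
    refine mul_le_mul_of_nonneg_left ?_ (norm_nonneg _)
    refine le_trans (le_of_eq (Finset.sum_congr rfl fun j _ => ?_)) (sum_abs_cos m hm (α - (d k).arg))
    congr 2; ring
  have h4 := Finset.sum_le_sum h3
  rw [Finset.sum_comm, ← Finset.sum_mul] at h4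
  have h5 := Finset.sum_le_sum fun (j : ℕ) (_ : j ∈ Finset.range m) => h2 (α + j * (π / m))
  rw [Finset.sum_add_distrib (f := fun j : ℕ => (1 / 2) * ∑ k ∈ Finset.range N,
    |dot (d k) (uu (α + j * (π / m)))|), ← Finset.mul_sum, Finset.sum_const, Finset.card_range,
    nsmul_eq_mul] at h5
  have h6 : (m : ℝ) * (ε / m) = ε := by field_simp
  have h7 := mul_le_mul_of_nonneg_right h1 (one_div_pos.2 hs0).le
  have h8 : 1 / (2 * sin (π / (2 * m))) = (1 / 2) * (1 / sin (π / (2 * m))) := by field_simp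
  linarith

/-- The equilateral triangle of height `1 / 2` cut at height `w`. -/
def trap (w : ℝ) : Set ℂ :=
  {z | 0 ≤ z.re ∧ z.re ≤ w ∧ 1 / √3 * z.re + -(1 / (2 * √3)) ≤ z.im ∧
    z.im ≤ -(1 / √3) * z.re + 1 / (2 * √3)}

lemma volume_trap {w : ℝ} (h0 : 0 ≤ w) (h1 : w ≤ 1 / 2) :
    volume (trap w) = ENNReal.ofReal ((w - w ^ 2) / √3) := by
  have h3 : (0 : ℝ) < √3 := by positivity
  have e : 1 / (2 * √3) = (1 / 2) * (1 / √3) := by field_simp
  have h4 : (0 : ℝ) < 1 / √3 := by positivity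
  unfold trap
  rw [vol_trap h0 (by rw [e]; linarith) (by rw [e]; nlinarith)]
  congr 1
  field_simp
  ring

lemma convex_trap (w : ℝ) : Convex ℝ (trap w) := by
  intro z hz z' hz' a b ha hb hab
  obtain ⟨h1, h2, h3, h4⟩ := hz
  obtain ⟨g1, g2, g3, g4⟩ := hz'
  simp only [trap, mem_ofPred_eq, Complex.add_re, Complex.add_im, Complex.smul_re, Complex.smul_im,
    smul_eq_mul]
  obtain rfl : b = 1 - a := by linarith
  refine ⟨by positivity, ?_, ?_, ?_⟩
  · nlinarith [mul_le_mul_of_nonneg_left h2 ha, mul_le_mul_of_nonneg_left g2 hb]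
  · nlinarith [mul_le_mul_of_nonneg_left h3 ha, mul_le_mul_of_nonneg_left g3 hb]
  · nlinarith [mul_le_mul_of_nonneg_left h4 ha, mul_le_mul_of_nonneg_left g4 hb]

lemma isCompact_trap (w : ℝ) : IsCompact (trap w) := by
  refine Metric.isCompact_of_isClosed_isBounded ?_ ?_
  · simp only [trap, ofPred_and]
    refine (isClosed_le ?_ ?_).inter ((isClosed_le ?_ ?_).inter
      ((isClosed_le ?_ ?_).inter (isClosed_le ?_ ?_))) <;> fun_prop
  · refine (Metric.isBounded_closedBall (x := (0 : ℂ)) (r := w + 1 / (2 * √3))).subset ?_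
    rintro z ⟨h1, h2, h3, h4⟩
    have h5 : 0 ≤ 1 / √3 * z.re := by positivity
    rw [mem_closedBall_zero_iff]
    refine (Complex.norm_le_abs_re_add_abs_im z).trans (add_le_add ?_ ?_)
    · rw [abs_of_nonneg h1]; exact h2
    · exact abs_le.2 ⟨by linarith, by linarith⟩

lemma Worm.fit_trap {γ : ℝ → ℂ} (h : Worm γ) {w α : ℝ} (hw : hs γ (uu α) + hs γ (-uu α) ≤ w)
    (hA : hs γ (-uu α) + hs γ (uu (α + π / 3)) + hs γ (uu (α - π / 3)) ≤ 1 / 2) :
    ∃ b : ℂ, ∀ t ∈ Icc (0 : ℝ) 1, uu (-α) * γ t + b ∈ trap w := by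
  have h3 : (0 : ℝ) < √3 := by positivity
  have h33 : (√3 : ℝ) * √3 = 3 := Real.mul_self_sqrt (by norm_num)
  refine ⟨⟨hs γ (-uu α), (1 / 2 - 2 * hs γ (uu (α + π / 3)) - hs γ (-uu α)) / √3⟩, fun t ht => ?_⟩
  have a1 := h.le_hs (uu α) ht
  have a2 := h.le_hs (-uu α) ht
  have a3 := h.le_hs (uu (α + π / 3)) ht
  have a4 := h.le_hs (uu (α - π / 3)) ht
  generalize hs γ (uu α) = H0 at *
  generalize hs γ (-uu α) = H1 at *
  generalize hs γ (uu (α + π / 3)) = H2 at *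
  generalize hs γ (uu (α - π / 3)) = H3 at *
  simp only [dot, uu, cos_add, sin_add, cos_sub, sin_sub, cos_pi_div_three, sin_pi_div_three,
    Complex.neg_re, Complex.neg_im] at a1 a2 a3 a4
  simp only [trap, uu, mem_ofPred_eq, Complex.add_re, Complex.add_im, Complex.mul_re, Complex.mul_im,
    cos_neg, sin_neg]
  refine ⟨by linarith, by linarith, ?_, ?_⟩
  · refine le_of_mul_le_mul_left ?_ h3
    field_simp
    linarith
  · refine le_of_mul_le_mul_left ?_ h3
    field_simp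
    linarith

lemma uu_pow (θ : ℝ) (n : ℕ) : uu θ ^ n = uu (n * θ) := by
  have e : ∀ x : ℝ, uu x = Complex.exp (x * Complex.I) := fun x => by
    apply Complex.ext
    · simp [uu, Complex.exp_ofReal_mul_I_re]
    · simp [uu, Complex.exp_ofReal_mul_I_im]
  rw [e, e, ← Complex.exp_nat_mul]
  congr 1; push_cast; ring

lemma Worm.fits_disc {γ : ℝ → ℂ} (h : Worm γ) (m : ℕ) (hm : 1 ≤ m) :
    ∃ a b : ℂ, a ^ (2 * m) = 1 ∧
      ∀ t ∈ Icc (0 : ℝ) 1, a * γ t + b ∈ trap (1 / (2 * m * sin (π / (2 * m)))) := by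
  have hm0 : (1 : ℝ) ≤ m := by exact_mod_cast hm
  have hroot : ∀ j : ℕ, uu (-(j * (π / m))) ^ (2 * m) = 1 := by
    intro j
    have e : ((2 * m : ℕ) : ℝ) * -(j * (π / m)) = -(j * (2 * π)) := by push_cast; field_simp
    have e' : sin (j * (2 * π)) = 0 := by simpa using sin_add_nat_mul_two_pi 0 j
    rw [uu_pow, e]
    apply Complex.ext <;> simp [uu, e']
  obtain ⟨j, -, hj⟩ : ∃ j ∈ Finset.range m, hs γ (uu (0 + j * (π / m))) + hs γ (-uu (0 + j * (π / m))) ≤
      1 / (2 * m * sin (π / (2 * m))) := by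
    refine Finset.exists_le_of_sum_le ⟨0, Finset.mem_range.2 hm⟩ ((h.widths m hm 0).trans (le_of_eq ?_))
    rw [Finset.sum_const, Finset.card_range, nsmul_eq_mul]
    field_simp
  rw [zero_add] at hj
  set α : ℝ := j * (π / m) with hα
  have h3 := h.widths 3 (by norm_num) (α - π / 3)
  have e6 : π / (2 * ((3 : ℕ) : ℝ)) = π / 6 := by norm_num
  rw [e6, sin_pi_div_six] at h3
  simp only [Finset.sum_range_succ, Finset.sum_range_zero] at h3
  have f0 : α - π / 3 + ((0 : ℕ) : ℝ) * (π / ((3 : ℕ) : ℝ)) = α - π / 3 := by push_cast; ring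
  have f1 : α - π / 3 + ((1 : ℕ) : ℝ) * (π / ((3 : ℕ) : ℝ)) = α := by push_cast; ring
  have f2 : α - π / 3 + ((2 : ℕ) : ℝ) * (π / ((3 : ℕ) : ℝ)) = α + π / 3 := by push_cast; ring
  rw [f0, f1, f2] at h3
  by_cases hA : hs γ (-uu α) + hs γ (uu (α + π / 3)) + hs γ (uu (α - π / 3)) ≤ 1 / 2
  · obtain ⟨b, hb⟩ := h.fit_trap hj hA
    exact ⟨_, b, hroot j, hb⟩
  · have g1 : α + π + π / 3 = α + π / 3 + π := by ring
    have g2 : α + π - π / 3 = α - π / 3 + π := by ring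
    obtain ⟨b, hb⟩ := h.fit_trap (α := α + π) (w := 1 / (2 * m * sin (π / (2 * m))))
      (by rw [uu_add_pi, neg_neg]; linarith)
      (by rw [g1, g2, uu_add_pi, uu_add_pi, uu_add_pi, neg_neg]; norm_num at h3 hA ⊢; linarith)
    refine ⟨_, b, ?_, hb⟩
    have e : α + π = ((j + m : ℕ) : ℝ) * (π / m) := by rw [hα]; push_cast; field_simp
    rw [e]
    exact hroot _

end Pool.Agent.Lib.MP_4662c0_co
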