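import Mathlib

set_option autoImplicit false

/-! Support functions of closed curves of length at most one: the Cauchy bound and arc estimates. -/

namespace Pool.Agent.Lib.MP_4662c0_co

open Set Real intervalIntegral

/-- Euclidean scalar product of two complex numbers. -/
def dot (z w : ℂ) : ℝ := z.re * w.re + z.im * w.im

/-- A closed curve of length at most one. -/
structure Worm (γ : ℝ → ℂ) : Prop where
  cont : ContinuousOn γ (Icc 0 1)
  closed : γ 0 = γ 1
  len : eVariationOn γ (Icc 0 1) ≤ 1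

/-- Support function. -/
noncomputable def hs (γ : ℝ → ℂ) (v : ℂ) : ℝ := sSup ((fun t => dot (γ t) v) '' Icc 0 1)

lemma dot_le (z w : ℂ) : dot z w ≤ ‖z‖ * ‖w‖ := by
  have h : dot z w = (z * (starRingEnd ℂ) w).re := by simp [dot]
  rw [h]
  calc _ ≤ ‖z * (starRingEnd ℂ) w‖ := Complex.re_le_norm _
    _ = _ := by simp

lemma dot_sub_left (z z' w : ℂ) : dot (z - z') w = dot z w - dot z' w := by
  simp [dot]; ring

lemma dot_sub_right (z w w' : ℂ) : dot z (w - w') = dot z w - dot z w' := by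
  simp [dot]; ring

lemma Worm.contDot {γ : ℝ → ℂ} (h : Worm γ) (v : ℂ) :
    ContinuousOn (fun t => dot (γ t) v) (Icc 0 1) := by
  have h1 := h.cont
  unfold dot
  fun_prop

lemma Worm.exists_max {γ : ℝ → ℂ} (h : Worm γ) (v : ℂ) :
    ∃ t ∈ Icc (0 : ℝ) 1, dot (γ t) v = hs γ v ∧ ∀ s ∈ Icc (0 : ℝ) 1, dot (γ s) v ≤ hs γ v := by
  obtain ⟨t, ht, h1, h2⟩ := isCompact_Icc.exists_sSup_image_eq_and_ge
    (nonempty_Icc.2 zero_le_one) (h.contDot v)
  exact ⟨t, ht, h1.symm, fun s hs' => (h2 s hs').trans h1.ge⟩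

lemma Worm.le_hs {γ : ℝ → ℂ} (h : Worm γ) (v : ℂ) {s : ℝ} (hs' : s ∈ Icc (0 : ℝ) 1) :
    dot (γ s) v ≤ hs γ v := by
  obtain ⟨_, _, _, h2⟩ := h.exists_max v
  exact h2 s hs'

lemma Worm.hs_smul {γ : ℝ → ℂ} (h : Worm γ) (v : ℂ) {c : ℝ} (hc : 0 ≤ c) :
    hs γ (c * v) = c * hs γ v := by
  have e : ∀ z, dot z (c * v) = c * dot z v := by
    intro z; simp [dot]; ring
  apply le_antisymm
  · obtain ⟨t, ht, h1, -⟩ := h.exists_max (c * v)
    rw [← h1, e]
    exact mul_le_mul_of_nonneg_left (h.le_hs v ht) hc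
  · obtain ⟨t, ht, h1, -⟩ := h.exists_max v
    rw [← h1, ← e]
    exact h.le_hs _ ht

lemma Worm.continuous_hs {γ : ℝ → ℂ} (h : Worm γ) : Continuous (hs γ) := by
  obtain ⟨R, hR⟩ := isCompact_Icc.exists_bound_of_continuousOn h.cont
  have hR0 : 0 ≤ R := (norm_nonneg _).trans (hR 0 (left_mem_Icc.2 zero_le_one))
  have : LipschitzWith ⟨R, hR0⟩ (hs γ) := by
    refine LipschitzWith.of_le_add_mul _ fun v w => ?_
    obtain ⟨t, ht, h1, -⟩ := h.exists_max v
    have h2 := h.le_hs w ht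
    have h3 := dot_le (γ t) (v - w)
    rw [dot_sub_right] at h3
    have h4 : ‖γ t‖ * ‖v - w‖ ≤ R * ‖v - w‖ := mul_le_mul_of_nonneg_right (hR t ht) (norm_nonneg _)
    rw [dist_eq_norm]
    show hs γ v ≤ hs γ w + R * ‖v - w‖
    linarith
  exact this.continuous

/-- Unit vector of argument `θ`. -/
noncomputable def uu (θ : ℝ) : ℂ := ⟨cos θ, sin θ⟩

lemma continuous_uu : Continuous uu := by
  have : uu = fun θ : ℝ => ((cos θ : ℝ) : ℂ) + ((sin θ : ℝ) : ℂ) * Complex.I := by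
    funext θ; apply Complex.ext <;> simp [uu, Complex.cos_ofReal_re, Complex.sin_ofReal_re]
  rw [this]; fun_prop

lemma norm_uu (θ : ℝ) : ‖uu θ‖ = 1 := by
  rw [Complex.norm_eq_sqrt_sq_add_sq]; simp [uu]

lemma uu_add_pi (θ : ℝ) : uu (θ + π) = -uu θ := by
  apply Complex.ext <;> simp [uu]

lemma uu_add_two_pi (θ : ℝ) : uu (θ + 2 * π) = uu θ := by
  apply Complex.ext <;> simp [uu]

lemma eq_norm_mul_uu (z : ℂ) : z = (‖z‖ : ℝ) * uu z.arg := by
  apply Complex.ext
  · simp [uu]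
  · simp [uu]

lemma dot_uu (z : ℂ) (θ : ℝ) : dot z (uu θ) = ‖z‖ * cos (θ - z.arg) := by
  rw [cos_sub]
  have h1 := Complex.norm_mul_cos_arg z
  have h2 := Complex.norm_mul_sin_arg z
  simp only [dot, uu]
  rw [← h1, ← h2]
  simp only [h1, h2]
  linear_combination (-cos θ) * h1 + (-sin θ) * h2

lemma integral_abs_dot (z : ℂ) : ∫ θ in (0 : ℝ)..π, |dot z (uu θ)| = 2 * ‖z‖ := by
  have hper : Function.Periodic (fun θ : ℝ => |cos (θ - z.arg)|) π := by
    intro θ
    have : θ + π - z.arg = (θ - z.arg) + π := by ring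
    simp only [this, cos_add_pi, abs_neg]
  have h1 := hper.intervalIntegral_add_eq 0 (z.arg - π / 2)
  have h2 : ∫ θ in (z.arg - π / 2)..(z.arg - π / 2 + π), |cos (θ - z.arg)| =
      ∫ θ in (z.arg - π / 2)..(z.arg - π / 2 + π), cos (θ - z.arg) := by
    refine integral_congr fun θ hθ => ?_
    rw [uIcc_of_le (by linarith [pi_pos])] at hθ
    exact abs_of_nonneg (cos_nonneg_of_neg_pi_div_two_le_of_le (by linarith [hθ.1]) (by linarith [hθ.2]))
  have h3 : ∫ θ in (z.arg - π / 2)..(z.arg - π / 2 + π), cos (θ - z.arg) = 2 := by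
    rw [integral_comp_sub_right (fun x => cos x), integral_cos]
    have e1 : z.arg - π / 2 + π - z.arg = π / 2 := by ring
    have e2 : z.arg - π / 2 - z.arg = -(π / 2) := by ring
    rw [e1, e2, sin_neg, sin_pi_div_two]; norm_num
  simp only [dot_uu, abs_mul, abs_norm]
  rw [integral_const_mul]
  rw [zero_add] at h1
  rw [h1, h2, h3]; ring

lemma tour_bound (x : ℕ → ℝ) (i j : ℕ) (hij : i ≤ j) :
    |x j - x i| ≤ ∑ k ∈ Finset.range j, |x (k + 1) - x k| - ∑ k ∈ Finset.range i, |x (k + 1) - x k| := by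
  induction j, hij using Nat.le_induction with
  | base => simp
  | succ j _ ih =>
    rw [Finset.sum_range_succ]
    have := abs_sub_le (x (j + 1)) (x j) (x i)
    linarith

lemma tour_two (x : ℕ → ℝ) (n i j : ℕ) (hi : i ≤ n) (hj : j ≤ n) (h : x n = x 0) :
    2 * (x i - x j) ≤ ∑ k ∈ Finset.range n, |x (k + 1) - x k| := by
  have key : ∀ i j, i ≤ j → j ≤ n →
      2 * |x j - x i| ≤ ∑ k ∈ Finset.range n, |x (k + 1) - x k| := by
    intro i j hij hj
    have h1 := tour_bound x 0 i (Nat.zero_le _)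
    have h2 := tour_bound x i j hij
    have h3 := tour_bound x j n hj
    have h4 : |x j - x i| ≤ |x n - x j| + |x i - x 0| := by
      rw [h]
      have e : x j - x i = -(x 0 - x j) - (x i - x 0) := by ring
      rw [e]
      exact (abs_sub _ _).trans (by rw [abs_neg])
    simp only [Finset.range_zero, Finset.sum_empty, sub_zero] at h1
    linarith
  rcases le_total i j with hij | hij
  · have := key i j hij hj
    have h5 := neg_abs_le (x j - x i)
    linarith
  · have := key j i hij hi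
    have h5 := le_abs_self (x i - x j)
    linarith

lemma Worm.cauchy_half {γ : ℝ → ℂ} (h : Worm γ) :
    ∫ θ in (0 : ℝ)..π, (hs γ (uu θ) + hs γ (-uu θ)) ≤ 1 := by
  have hc1 : Continuous fun θ => hs γ (uu θ) := h.continuous_hs.comp continuous_uu
  have hc2 : Continuous fun θ => hs γ (-uu θ) := h.continuous_hs.comp continuous_uu.neg
  refine le_of_forall_pos_le_add fun ε hε => ?_
  have hε' : 0 < ε / (2 * π) := by positivity
  obtain ⟨δ, hδ, hu⟩ := Metric.uniformContinuousOn_iff.1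
    (isCompact_Icc.uniformContinuousOn_of_continuous h.cont) _ hε'
  obtain ⟨n, hn⟩ := exists_nat_one_div_lt hδ
  set N : ℕ := n + 1 with hN
  have hN0 : (0 : ℝ) < N := by positivity
  let s : ℕ → ℝ := fun k => min ((k : ℝ) / N) 1
  have hs_mem : ∀ k, s k ∈ Icc (0 : ℝ) 1 := fun k =>
    ⟨le_min (by positivity) zero_le_one, min_le_right _ _⟩
  have hs_mono : Monotone s := fun a b hab =>
    min_le_min (div_le_div_of_nonneg_right (by exact_mod_cast hab) hN0.le) le_rfl
  have hs0 : s 0 = 0 := by simp [s]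
  have hsN : s N = 1 := by simp only [s]; rw [div_self hN0.ne']; simp
  have near : ∀ t ∈ Icc (0 : ℝ) 1, ∃ k ≤ N, ‖γ t - γ (s k)‖ ≤ ε / (2 * π) := by
    intro t ht
    have h0 : 0 ≤ t * N := mul_nonneg ht.1 hN0.le
    have h1 : (⌊t * N⌋₊ : ℝ) ≤ t * N := Nat.floor_le h0
    have h2 : t * N < ⌊t * N⌋₊ + 1 := Nat.lt_floor_add_one _
    have h3 : t * N ≤ N := by nlinarith [ht.2]
    have h4 : (⌊t * N⌋₊ : ℝ) / N ≤ t := by rw [div_le_iff₀ hN0]; exact h1
    refine ⟨⌊t * N⌋₊, by exact_mod_cast h1.trans h3, ?_⟩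
    rw [← dist_eq_norm]
    refine (hu t ht _ (hs_mem _) ?_).le
    have h5 : s ⌊t * N⌋₊ = (⌊t * N⌋₊ : ℝ) / N := min_eq_left (h4.trans ht.2)
    rw [h5, Real.dist_eq, abs_of_nonneg (by linarith)]
    have h6 : t - (⌊t * N⌋₊ : ℝ) / N < 1 / N := by
      rw [sub_lt_iff_lt_add, ← add_div, lt_div_iff₀ hN0]; linarith
    have h7 : (1 : ℝ) / N < δ := by rw [hN]; push_cast; exact hn
    linarith
  have hlen : ∑ k ∈ Finset.range N, ‖γ (s (k + 1)) - γ (s k)‖ ≤ 1 := by
    have h1 := (eVariationOn.sum_le (f := γ) (n := N) hs_mono hs_mem).trans h.len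
    simp only [edist_dist, dist_eq_norm] at h1
    rw [← ENNReal.ofReal_sum_of_nonneg (fun _ _ => norm_nonneg _)] at h1
    exact ENNReal.ofReal_le_one.1 h1
  have hpt : ∀ θ, hs γ (uu θ) + hs γ (-uu θ) ≤
      (1 / 2) * ∑ k ∈ Finset.range N, |dot (γ (s (k + 1)) - γ (s k)) (uu θ)| + ε / π := by
    intro θ
    obtain ⟨t1, ht1, e1, -⟩ := h.exists_max (uu θ)
    obtain ⟨t2, ht2, e2, -⟩ := h.exists_max (-uu θ)
    obtain ⟨i, hi, hi'⟩ := near t1 ht1
    obtain ⟨j, hj, hj'⟩ := near t2 ht2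
    have h1 := tour_two (fun k => dot (γ (s k)) (uu θ)) N i j hi hj (by simp only [hsN, hs0, h.closed])
    have h2 := dot_le (γ t1 - γ (s i)) (uu θ)
    have h3 := dot_le (γ t2 - γ (s j)) (-uu θ)
    rw [norm_neg] at h3
    rw [norm_uu, mul_one, dot_sub_left] at h2 h3
    have h4 : dot (γ (s j)) (-uu θ) = -dot (γ (s j)) (uu θ) := by simp [dot]; ring
    have h5 : ε / π = 2 * (ε / (2 * π)) := by field_simp
    simp only [dot_sub_left]
    linarith
  have hcd : ∀ z : ℂ, Continuous fun θ => |dot z (uu θ)| := by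
    intro z
    simp only [dot, uu]
    fun_prop
  calc ∫ θ in (0 : ℝ)..π, (hs γ (uu θ) + hs γ (-uu θ))
      ≤ ∫ θ in (0 : ℝ)..π,
        ((1 / 2) * ∑ k ∈ Finset.range N, |dot (γ (s (k + 1)) - γ (s k)) (uu θ)| + ε / π) := by
        refine integral_mono_on pi_pos.le ((hc1.add hc2).intervalIntegrable _ _) ?_ fun θ _ => hpt θ
        refine Continuous.intervalIntegrable ?_ _ _
        exact (continuous_const.mul (continuous_finsetSum _ fun k _ => hcd _)).add continuous_const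
    _ = ∑ k ∈ Finset.range N, ‖γ (s (k + 1)) - γ (s k)‖ + ε := by
        rw [integral_add, integral_const_mul, integral_finsetSum, integral_const]
        · simp only [integral_abs_dot, ← Finset.mul_sum, sub_zero, smul_eq_mul]
          field_simp
        · exact fun k _ => (hcd _).intervalIntegrable _ _
        · exact (continuous_const.mul (continuous_finsetSum _ fun k _ => hcd _)).intervalIntegrable _ _
        · exact continuous_const.intervalIntegrable _ _
    _ ≤ 1 + ε := by linarith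

lemma Worm.cauchy {γ : ℝ → ℂ} (h : Worm γ) (a : ℝ) :
    ∫ θ in a..(a + 2 * π), hs γ (uu θ) ≤ 1 := by
  have hc1 : Continuous fun θ => hs γ (uu θ) := h.continuous_hs.comp continuous_uu
  have hc2 : Continuous fun θ => hs γ (-uu θ) := h.continuous_hs.comp continuous_uu.neg
  have hper : Function.Periodic (fun θ : ℝ => hs γ (uu θ)) (2 * π) := fun θ => by
    simp only [uu_add_two_pi]
  rw [hper.intervalIntegral_add_eq a 0, zero_add,
    ← integral_add_adjacent_intervals (b := π) (hc1.intervalIntegrable _ _) (hc1.intervalIntegrable _ _)]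
  have h2 : ∫ θ in π..(2 * π), hs γ (uu θ) = ∫ θ in (0 : ℝ)..π, hs γ (-uu θ) := by
    have := integral_comp_add_right (a := 0) (b := π) (fun θ => hs γ (uu θ)) π
    simp only [uu_add_pi, zero_add] at this
    rw [this, two_mul]
  rw [h2, ← integral_add (hc1.intervalIntegrable _ _) (hc2.intervalIntegrable _ _)]
  exact h.cauchy_half

/-- Component along the tangent direction. -/
noncomputable def tg (z : ℂ) (θ : ℝ) : ℝ := -z.re * sin θ + z.im * cos θ

lemma integral_dot (z : ℂ) (a b : ℝ) : ∫ θ in a..b, dot z (uu θ) = tg z a - tg z b := by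
  simp only [dot, uu, tg]
  rw [integral_add, integral_const_mul, integral_const_mul, integral_cos, integral_sin]
  · ring
  · exact (continuous_const.mul continuous_cos).intervalIntegrable _ _
  · exact (continuous_const.mul continuous_sin).intervalIntegrable _ _

lemma exists_tangent (d : ℂ) {φ φ' : ℝ} (h1 : φ < φ') (_h2 : φ' < φ + π)
    (h3 : dot d (uu φ) ≤ 0) (h4 : 0 ≤ dot d (uu φ')) : ∃ ψ ∈ Icc φ φ', ‖d‖ ≤ tg d ψ := by
  rcases (norm_nonneg d).eq_or_lt with h0 | h0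
  · refine ⟨φ, ⟨le_rfl, h1.le⟩, ?_⟩
    have : d = 0 := norm_eq_zero.1 h0.symm
    simp [this, tg]
  set α := toIcoMod two_pi_pos φ (d.arg - π / 2) with hα
  have hm := toIcoMod_mem_Ico two_pi_pos φ (d.arg - π / 2)
  rw [← hα] at hm
  obtain ⟨k, hk⟩ : ∃ k : ℤ, d.arg = α + π / 2 + k * (2 * π) := by
    refine ⟨toIcoDiv two_pi_pos φ (d.arg - π / 2), ?_⟩
    have := toIcoMod_add_toIcoDiv_zsmul two_pi_pos φ (d.arg - π / 2)
    rw [← hα, zsmul_eq_mul] at this
    linarith
  have hsin : ∀ θ, dot d (uu θ) = ‖d‖ * sin (θ - α) := by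
    intro θ
    rw [dot_uu, hk]
    have : θ - (α + π / 2 + k * (2 * π)) = (θ - α - π / 2) - k * (2 * π) := by ring
    rw [this, cos_sub_int_mul_two_pi, cos_sub_pi_div_two]
  rw [hsin] at h3 h4
  have h5 : α ≤ φ + π := by
    by_contra hc
    push Not at hc
    have : 0 < sin (φ - α + 2 * π) := sin_pos_of_pos_of_lt_pi (by linarith [hm.2]) (by linarith)
    rw [sin_add_two_pi] at this
    nlinarith
  have h6 : α ≤ φ' := by
    by_contra hc
    push Not at hc
    have : 0 < sin (α - φ') := sin_pos_of_pos_of_lt_pi (by linarith) (by linarith)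
    have e : sin (φ' - α) = -sin (α - φ') := by rw [← sin_neg]; congr 1; ring
    rw [e] at h4
    nlinarith
  refine ⟨α, ⟨hm.1, h6⟩, le_of_eq ?_⟩
  have h7 := hsin (α + π / 2)
  simp only [dot, uu, cos_add_pi_div_two, sin_add_pi_div_two, add_sub_cancel_left,
    sin_pi_div_two, mul_one] at h7
  simp only [tg]
  linarith

open Classical in
/-- A point of the curve that is extreme in direction `v`. -/
noncomputable def ext (γ : ℝ → ℂ) (v : ℂ) : ℂ :=
  if h : ∃ t ∈ Icc (0 : ℝ) 1, dot (γ t) v = hs γ v then γ h.choose else 0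

lemma Worm.ext_spec {γ : ℝ → ℂ} (h : Worm γ) (v : ℂ) :
    dot (ext γ v) v = hs γ v ∧ ∀ w, dot (ext γ v) w ≤ hs γ w := by
  have h1 : ∃ t ∈ Icc (0 : ℝ) 1, dot (γ t) v = hs γ v := by
    obtain ⟨t, ht, h1, -⟩ := h.exists_max v
    exact ⟨t, ht, h1⟩
  unfold ext
  rw [dif_pos h1]
  exact ⟨h1.choose_spec.2, fun w => h.le_hs w h1.choose_spec.1⟩

/-- Boundary length function of the convex hull. -/
noncomputable def arc (γ : ℝ → ℂ) (a φ : ℝ) : ℝ :=
  (∫ θ in a..φ, hs γ (uu θ)) + tg (ext γ (uu φ)) φ - tg (ext γ (uu a)) a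

lemma arc_self (γ : ℝ → ℂ) (a : ℝ) : arc γ a a = 0 := by simp [arc]

lemma Worm.arc_full {γ : ℝ → ℂ} (h : Worm γ) (a : ℝ) : arc γ a (a + 2 * π) ≤ 1 := by
  have := h.cauchy a
  simp only [arc, uu_add_two_pi, tg, sin_add_two_pi, cos_add_two_pi]
  linarith

lemma Worm.arc_step {γ : ℝ → ℂ} (h : Worm γ) (a : ℝ) {φ φ' : ℝ} (h1 : φ < φ') (h2 : φ' < φ + π) :
    arc γ a φ + ‖ext γ (uu φ) - ext γ (uu φ')‖ ≤ arc γ a φ' := by
  have hc1 : Continuous fun θ => hs γ (uu θ) := h.continuous_hs.comp continuous_uu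
  obtain ⟨e1, l1⟩ := h.ext_spec (uu φ)
  obtain ⟨e2, l2⟩ := h.ext_spec (uu φ')
  obtain ⟨ψ, hψ, hd⟩ := exists_tangent (ext γ (uu φ') - ext γ (uu φ)) h1 h2
    (by rw [dot_sub_left]; linarith [l2 (uu φ)]) (by rw [dot_sub_left]; linarith [l1 (uu φ')])
  have hcd : ∀ z : ℂ, Continuous fun θ => dot z (uu θ) := by
    intro z
    simp only [dot, uu]
    fun_prop
  have i1 : ∫ θ in φ..ψ, dot (ext γ (uu φ)) (uu θ) ≤ ∫ θ in φ..ψ, hs γ (uu θ) :=
    integral_mono_on hψ.1 ((hcd _).intervalIntegrable _ _) (hc1.intervalIntegrable _ _) fun θ _ => l1 _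
  have i2 : ∫ θ in ψ..φ', dot (ext γ (uu φ')) (uu θ) ≤ ∫ θ in ψ..φ', hs γ (uu θ) :=
    integral_mono_on hψ.2 ((hcd _).intervalIntegrable _ _) (hc1.intervalIntegrable _ _) fun θ _ => l2 _
  rw [integral_dot] at i1 i2
  have a1 := integral_add_adjacent_intervals (a := a) (b := φ) (c := ψ) (μ := MeasureTheory.volume)
    (hc1.intervalIntegrable _ _) (hc1.intervalIntegrable _ _)
  have a2 := integral_add_adjacent_intervals (a := a) (b := ψ) (c := φ') (μ := MeasureTheory.volume)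
    (hc1.intervalIntegrable _ _) (hc1.intervalIntegrable _ _)
  have e3 : tg (ext γ (uu φ') - ext γ (uu φ)) ψ = tg (ext γ (uu φ')) ψ - tg (ext γ (uu φ)) ψ := by
    simp [tg]; ring
  rw [norm_sub_rev]
  simp only [arc]
  linarith

lemma Worm.arc_step_nat {γ : ℝ → ℂ} (h : Worm γ) (a : ℝ) (n : ℕ) : ∀ {φ φ' : ℝ}, φ ≤ φ' → φ' ≤ φ + n →
    arc γ a φ + ‖ext γ (uu φ) - ext γ (uu φ')‖ ≤ arc γ a φ' := by
  induction n with
  | zero =>
    intro φ φ' h1 h2
    have : φ' = φ := le_antisymm (by simpa using h2) h1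
    subst this; simp
  | succ n ih =>
    intro φ φ' h1 h2
    by_cases h3 : φ' ≤ φ + n
    · exact ih h1 h3
    · push Not at h3
      have hn : (0 : ℝ) ≤ n := Nat.cast_nonneg n
      have i1 := ih (φ := φ) (φ' := φ + n) (by linarith) le_rfl
      have i2 := h.arc_step a (φ := φ + n) (φ' := φ') h3 (by push_cast at h2; linarith [pi_gt_three])
      have i3 := norm_sub_le_norm_sub_add_norm_sub (ext γ (uu φ)) (ext γ (uu (φ + n))) (ext γ (uu φ'))
      linarith

lemma Worm.arc_le {γ : ℝ → ℂ} (h : Worm γ) (a : ℝ) {φ φ' : ℝ} (h1 : φ ≤ φ') :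
    arc γ a φ + ‖ext γ (uu φ) - ext γ (uu φ')‖ ≤ arc γ a φ' := by
  obtain ⟨n, hn⟩ := exists_nat_ge (φ' - φ)
  exact h.arc_step_nat a n h1 (by linarith)

/-- Cross product. -/
def crs (z w : ℂ) : ℝ := z.re * w.im - z.im * w.re

lemma crs_eq (z w : ℂ) : crs z w = ‖z‖ * ‖w‖ * sin (w.arg - z.arg) := by
  rw [sin_sub]
  have h1 := Complex.norm_mul_cos_arg z
  have h2 := Complex.norm_mul_sin_arg z
  have h3 := Complex.norm_mul_cos_arg w
  have h4 := Complex.norm_mul_sin_arg w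
  simp only [crs]
  rw [← h1, ← h2, ← h3, ← h4]
  simp only [h1, h2, h3, h4]
  linear_combination (-(‖w‖ * sin w.arg)) * h1 - z.re * h4 + (‖w‖ * cos w.arg) * h2 + z.im * h3

lemma sin_pos_range {δ : ℝ} (h : 0 < sin δ) (h1 : -π ≤ δ) (h2 : δ ≤ 2 * π) : 0 < δ ∧ δ < π := by
  constructor
  · by_contra hc
    push Not at hc
    linarith [sin_nonpos_of_nonpos_of_neg_pi_le hc h1]
  · by_contra hc
    push Not at hc
    have := sin_nonpos_of_nonpos_of_neg_pi_le (x := δ - 2 * π) (by linarith) (by linarith)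
    rw [sin_sub_two_pi] at this
    linarith

lemma sin_pos_of_crs {z w : ℂ} (h : 0 < crs z w) : 0 < sin (w.arg - z.arg) := by
  rw [crs_eq] at h
  by_contra hc
  push Not at hc
  have : 0 ≤ ‖z‖ * ‖w‖ := by positivity
  nlinarith

lemma arg_step {z w : ℂ} (h : 0 < crs z w) (h1 : z.im < 0 ∨ 0 ≤ w.im) :
    z.arg < w.arg ∧ w.arg < z.arg + π := by
  have hz1 := Complex.neg_pi_lt_arg z
  have hz2 := Complex.arg_le_pi z
  have hw1 := Complex.neg_pi_lt_arg w
  have hw2 := Complex.arg_le_pi w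
  have := sin_pos_range (sin_pos_of_crs h) (by
    rcases h1 with h1 | h1
    · linarith [Complex.arg_neg_iff.2 h1]
    · linarith [Complex.arg_nonneg_iff.2 h1]) (by linarith)
  constructor <;> linarith [this.1, this.2]

/-- The extreme point attached to a direction; it only depends on the argument. -/
noncomputable def pt (γ : ℝ → ℂ) (v : ℂ) : ℂ := ext γ (uu v.arg)

lemma Worm.dot_pt {γ : ℝ → ℂ} (h : Worm γ) (v : ℂ) : dot (pt γ v) v = hs γ v := by
  have h1 := (h.ext_spec (uu v.arg)).1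
  have h2 := h.hs_smul (uu v.arg) (norm_nonneg v)
  rw [← eq_norm_mul_uu] at h2
  rw [h2, ← h1]
  conv_lhs => rw [eq_norm_mul_uu v]
  simp only [pt, dot, Complex.re_ofReal_mul, Complex.im_ofReal_mul]
  rw [← eq_norm_mul_uu v]
  ring

lemma Worm.dot_pt_le {γ : ℝ → ℂ} (h : Worm γ) (v w : ℂ) : dot (pt γ v) w ≤ hs γ w :=
  (h.ext_spec _).2 w

end Pool.Agent.Lib.MP_4662c0_co
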