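import Pool.Agent.Lib.MP_4662c0_co.LSound

set_option autoImplicit false

/-! Rectangles and discs in a convex cover. -/

namespace Pool.Agent.Lib.MP_4662c0_co.Low

open Set Real MeasureTheory

/-- The four vertices of a placed rectangle lie in `K`. -/
def H4 (K : Set ℂ) (t z : ℂ) (a b : ℝ) : Prop :=
  t + z * ⟨a, b⟩ ∈ K ∧ t + z * ⟨-a, b⟩ ∈ K ∧ t + z * ⟨-a, -b⟩ ∈ K ∧ t + z * ⟨a, -b⟩ ∈ K

/-- `K` contains the vertices of a rectangle with half sides `a`, `b`. -/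
def Has (K : Set ℂ) (a b : ℝ) : Prop := ∃ t z : ℂ, ‖z‖ = 1 ∧ H4 K t z a b

/-- A congruent copy of the curve lies in `K`. -/
def Fit (K : Set ℂ) (γ : ℝ → ℂ) : Prop :=
  ∃ a b : ℂ, ‖a‖ = 1 ∧ ((∀ t ∈ Icc (0 : ℝ) 1, a * γ t + b ∈ K) ∨
    ∀ t ∈ Icc (0 : ℝ) 1, a * (starRingEnd ℂ) (γ t) + b ∈ K)

/-- `K` covers every closed curve of length one. -/
def Covers (K : Set ℂ) : Prop :=
  ∀ γ : ℝ → ℂ, ContinuousOn γ (Icc 0 1) → γ 0 = γ 1 → eVariationOn γ (Icc 0 1) = 1 → Fit K γ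

lemma var_smul_le (c : NNReal) (γ : ℝ → ℂ) :
    eVariationOn (fun t => (c : ℝ) • γ t) (Icc 0 1) ≤ c * eVariationOn γ (Icc 0 1) := by
  have h : LipschitzWith c fun z : ℂ => (c : ℝ) • z := by
    simpa using lipschitzWith_smul (β := ℂ) (c : ℝ)
  exact (h.lipschitzOnWith (s := univ)).comp_eVariationOn_le (mapsTo_univ γ _)

lemma var_le_one {γ : ℝ → ℂ} (hl : LipschitzOnWith 1 γ (Icc 0 1)) :
    eVariationOn γ (Icc 0 1) ≤ 1 := by
  have a := hl.comp_eVariationOn_le (g := id) (s := Icc 0 1) (mapsTo_id _)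
  have b := MonotoneOn.eVariationOn_eq (f := id) (s := univ) (a := (0 : ℝ)) (b := 1)
    (monotone_id.monotoneOn _) (mem_univ _) (mem_univ _)
  rw [univ_inter] at b
  rw [b] at a
  simpa using a

lemma var_norm {γ : ℝ → ℂ} {V : NNReal} (hV : eVariationOn γ (Icc 0 1) = V) (w0 : V ≠ 0) :
    eVariationOn (fun t => ((V⁻¹ : NNReal) : ℝ) • γ t) (Icc 0 1) = 1 := by
  have w2 : (V : ℝ) ≠ 0 := by exact_mod_cast w0
  have e : (fun t => (V : ℝ) • ((V⁻¹ : NNReal) : ℝ) • γ t) = γ := by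
    funext t
    rw [smul_smul, NNReal.coe_inv, mul_inv_cancel₀ w2, one_smul]
  have u1 := var_smul_le V⁻¹ γ
  have u2 := var_smul_le V fun t => ((V⁻¹ : NNReal) : ℝ) • γ t
  rw [e, hV] at u2
  rw [hV, ← ENNReal.coe_mul, inv_mul_cancel₀ w0] at u1
  refine le_antisymm u1 ?_
  refine (ENNReal.mul_le_mul_iff_right (a := V) (by exact_mod_cast w0) ENNReal.coe_ne_top).1 ?_
  rwa [mul_one]

lemma shrink {K : Set ℂ} (hK : Convex ℝ K) {V : ℝ} (h0 : 0 < V) (h1 : V ≤ 1) {a b p q : ℂ}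
    (hp : a * (V⁻¹ • p) + b ∈ K) (hq : a * (V⁻¹ • q) + b ∈ K) :
    a * p + (b + (1 - V) * a * (V⁻¹ • q)) ∈ K := by
  have w3 : (V : ℂ) ≠ 0 := by exact_mod_cast h0.ne'
  have e : a * p + (b + (1 - V) * a * (V⁻¹ • q)) =
      V • (a * (V⁻¹ • p) + b) + (1 - V) • (a * (V⁻¹ • q) + b) := by
    simp only [Complex.real_smul]
    push_cast
    field_simp
    ring
  rw [e]
  exact hK hp hq h0.le (sub_nonneg.2 h1) (by ring)

lemma Covers.fit {K : Set ℂ} (hK : Convex ℝ K) (hc : Covers K) {γ : ℝ → ℂ}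
    (hl : LipschitzOnWith 1 γ (Icc 0 1)) (h0 : γ 0 = γ 1) (h1 : γ 0 ≠ γ (1 / 2)) : Fit K γ := by
  have v1 := var_le_one hl
  have v0 : eVariationOn γ (Icc 0 1) ≠ 0 := by
    intro h
    have := eVariationOn.edist_le γ (s := Icc 0 1) (x := 0) (y := 1 / 2) (by simp)
      ⟨by norm_num, by norm_num⟩
    rw [h, nonpos_iff_eq_zero, edist_eq_zero] at this
    exact h1 this
  obtain ⟨V, hV⟩ : ∃ V : NNReal, eVariationOn γ (Icc 0 1) = V :=
    ⟨_, (ENNReal.coe_toNNReal (ne_top_of_le_ne_top ENNReal.one_ne_top v1)).symm⟩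
  rw [hV] at v0 v1
  have w0 : V ≠ 0 := by simpa using v0
  have w1 : (V : ℝ) ≤ 1 := by exact_mod_cast v1
  have w2 : (0 : ℝ) < V := by exact_mod_cast pos_iff_ne_zero.2 w0
  have hg := hl.continuousOn
  obtain ⟨a, b, ha, h⟩ := hc (fun t => ((V⁻¹ : NNReal) : ℝ) • γ t) (by fun_prop)
    (by simp only [h0]) (var_norm hV w0)
  have z0 : (0 : ℝ) ∈ Icc (0 : ℝ) 1 := by simp
  rw [NNReal.coe_inv] at h
  rcases h with h | h
  · exact ⟨a, _, ha, Or.inl fun t ht => shrink hK w2 w1 (h t ht) (h 0 z0)⟩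
  · have e : ∀ z : ℂ, (starRingEnd ℂ) ((V : ℝ)⁻¹ • z) = (V : ℝ)⁻¹ • (starRingEnd ℂ) z := by
      intro z
      rw [Complex.real_smul, Complex.real_smul, map_mul, Complex.conj_ofReal]
    simp only [e] at h
    exact ⟨a, _, ha, Or.inr fun t ht => shrink hK w2 w1 (h t ht) (h 0 z0)⟩

/-- Clamping to an interval. -/
def cl (l h t : ℝ) : ℝ := max l (min t h)

lemma cl_mono (l h : ℝ) {s t : ℝ} (hst : s ≤ t) : cl l h s ≤ cl l h t :=
  max_le_max le_rfl (min_le_min hst le_rfl)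

lemma cl_add {l h k : ℝ} (h1 : l ≤ h) (h2 : h ≤ k) (t : ℝ) : cl l h t + cl h k t = cl l k t + h := by
  simp only [cl, max_def, min_def]
  split_ifs <;> linarith

lemma cl_lo {l h t : ℝ} (h1 : t ≤ l) : cl l h t = l := max_eq_left ((min_le_left _ _).trans h1)

lemma cl_hi {l h t : ℝ} (h1 : l ≤ h) (h2 : h ≤ t) : cl l h t = h := by
  rw [cl, min_eq_right h2, max_eq_right h1]

/-- The boundary of a rectangle. -/
noncomputable def rc (a b t : ℝ) : ℂ :=
  ⟨a - cl 0 (2 * a) t + (cl (1 / 2) (1 / 2 + 2 * a) t - 1 / 2),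
    b - (cl (2 * a) (1 / 2) t - 2 * a) + (cl (1 / 2 + 2 * a) 1 t - (1 / 2 + 2 * a))⟩

lemma rc_lip {a b : ℝ} (ha : 0 ≤ a) (ha' : a ≤ 1 / 4) : LipschitzOnWith 1 (rc a b) (Icc 0 1) := by
  have key : ∀ s ∈ Icc (0 : ℝ) 1, ∀ t ∈ Icc (0 : ℝ) 1, s ≤ t → ‖rc a b t - rc a b s‖ ≤ t - s := by
    intro s hs t ht hst
    have sum : ∀ u ∈ Icc (0 : ℝ) 1, cl 0 (2 * a) u + cl (2 * a) (1 / 2) u +
        cl (1 / 2) (1 / 2 + 2 * a) u + cl (1 / 2 + 2 * a) 1 u = u + (1 + 4 * a) := by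
      intro u hu
      have e1 := cl_add (l := 0) (h := 2 * a) (k := 1 / 2) (by linarith) (by linarith) u
      have e2 := cl_add (l := 1 / 2) (h := 1 / 2 + 2 * a) (k := 1) (by linarith) (by linarith) u
      have e3 := cl_add (l := 0) (h := 1 / 2) (k := 1) (by linarith) (by linarith) u
      have e4 : cl 0 1 u = u := by rw [cl, min_eq_left hu.2, max_eq_right hu.1]
      linarith
    have s1 := sum s hs
    have s2 := sum t ht
    have m1 := cl_mono 0 (2 * a) hst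
    have m2 := cl_mono (2 * a) (1 / 2) hst
    have m3 := cl_mono (1 / 2) (1 / 2 + 2 * a) hst
    have m4 := cl_mono (1 / 2 + 2 * a) 1 hst
    refine (Complex.norm_le_abs_re_add_abs_im _).trans ?_
    simp only [rc, Complex.sub_re, Complex.sub_im]
    rcases abs_cases (a - cl 0 (2 * a) t + (cl (1 / 2) (1 / 2 + 2 * a) t - 1 / 2) -
      (a - cl 0 (2 * a) s + (cl (1 / 2) (1 / 2 + 2 * a) s - 1 / 2))) with h | h <;>
    rcases abs_cases (b - (cl (2 * a) (1 / 2) t - 2 * a) + (cl (1 / 2 + 2 * a) 1 t - (1 / 2 + 2 * a)) -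
      (b - (cl (2 * a) (1 / 2) s - 2 * a) + (cl (1 / 2 + 2 * a) 1 s - (1 / 2 + 2 * a)))) with g | g <;>
    linarith [h.1, g.1]
  refine LipschitzOnWith.of_dist_le_mul fun s hs t ht => ?_
  rw [NNReal.coe_one, one_mul, dist_eq_norm, Real.dist_eq]
  rcases le_total s t with h | h
  · rw [norm_sub_rev, abs_sub_comm]
    exact (key s hs t ht h).trans (le_abs_self _)
  · exact (key t ht s hs h).trans (le_abs_self _)

lemma Covers.has {K : Set ℂ} (hK : Convex ℝ K) (hc : Covers K) {a b : ℝ} (ha : 0 < a) (hb : 0 ≤ b)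
    (hab : a + b = 1 / 4) : Has K a b := by
  have p0 : rc a b 0 = ⟨a, b⟩ := by
    rw [rc, cl_lo le_rfl, cl_lo (by norm_num), cl_lo (by linarith), cl_lo (by linarith)]
    simp
  have p1 : rc a b (2 * a) = ⟨-a, b⟩ := by
    rw [rc, cl_hi (by linarith) le_rfl, cl_lo (by linarith), cl_lo le_rfl, cl_lo (by linarith)]
    apply Complex.ext <;> simp only <;> ring
  have p2 : rc a b (1 / 2) = ⟨-a, -b⟩ := by
    rw [rc, cl_hi (by linarith) (by linarith), cl_lo le_rfl, cl_hi (by linarith) le_rfl,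
      cl_lo (by linarith)]
    apply Complex.ext <;> simp only <;> linarith
  have p3 : rc a b (1 / 2 + 2 * a) = ⟨a, -b⟩ := by
    rw [rc, cl_hi (by linarith) (by linarith), cl_hi (by linarith) le_rfl,
      cl_hi (by linarith) (by linarith), cl_lo le_rfl]
    apply Complex.ext <;> simp only <;> linarith
  have p4 : rc a b 1 = ⟨a, b⟩ := by
    rw [rc, cl_hi (by linarith) (by linarith), cl_hi (by linarith) (by linarith),
      cl_hi (by linarith) (by linarith), cl_hi (by linarith) le_rfl]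
    apply Complex.ext <;> simp only <;> linarith
  obtain ⟨z, t, hz, h⟩ := hc.fit hK (rc_lip (b := b) ha.le (by linarith)) (p0.trans p4.symm) (by
    rw [p0, p2]
    intro h
    have := congrArg Complex.re h
    simp only at this
    linarith)
  have m0 : (0 : ℝ) ∈ Icc (0 : ℝ) 1 := by simp
  have m1 : 2 * a ∈ Icc (0 : ℝ) 1 := ⟨by linarith, by linarith⟩
  have m2 : 1 / 2 ∈ Icc (0 : ℝ) 1 := ⟨by linarith, by linarith⟩
  have m3 : 1 / 2 + 2 * a ∈ Icc (0 : ℝ) 1 := ⟨by linarith, by linarith⟩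
  have cj : ∀ x y : ℝ, (starRingEnd ℂ) ⟨x, y⟩ = ⟨x, -y⟩ := fun x y => rfl
  refine ⟨t, z, hz, ?_⟩
  unfold H4
  simp only [add_comm t]
  rcases h with h | h
  · exact ⟨p0 ▸ h _ m0, p1 ▸ h _ m1, p2 ▸ h _ m2, p3 ▸ h _ m3⟩
  · have a0 := h _ m0
    have a1 := h _ m1
    have a2 := h _ m2
    have a3 := h _ m3
    rw [p0, cj] at a0
    rw [p1, cj] at a1
    rw [p2, cj, neg_neg] at a2
    rw [p3, cj, neg_neg] at a3
    exact ⟨a3, a2, a1, a0⟩

lemma exists_turn (u : ℂ) (hu : ‖u‖ = 1) :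
    ∃ t ∈ Icc (0 : ℝ) 1, Complex.exp (((2 * π * t : ℝ) : ℂ) * Complex.I) = u := by
  have hp := two_pi_pos
  obtain ⟨m1, m2⟩ := psi_mem 0 u
  refine ⟨psi 0 u / (2 * π), ⟨by positivity, by rw [div_le_one hp]; linarith⟩, ?_⟩
  rw [mul_div_cancel₀ _ hp.ne']
  obtain ⟨r, hr, e⟩ := pol_psi 0 u
  have h1 : r = 1 := by
    have := congrArg norm e
    rw [hu, norm_mul, norm_uu, mul_one, Complex.norm_real, Real.norm_of_nonneg hr] at this
    exact this.symm
  rw [h1] at e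
  conv_rhs => rw [e]
  apply Complex.ext <;> simp [uu, Complex.exp_re, Complex.exp_im]

lemma Covers.disc {K : Set ℂ} (hK : Convex ℝ K) (hc : Covers K) {r : ℝ} (hr : 0 < r)
    (hr' : 2 * π * r ≤ 1) : ∃ c : ℂ, Metric.closedBall c r ⊆ K := by
  have hp := two_pi_pos
  have hl : LipschitzOnWith 1 (fun t : ℝ => circleMap 0 r (2 * π * t)) (Icc 0 1) := by
    refine LipschitzOnWith.of_dist_le_mul fun s _ t _ => ?_
    refine ((lipschitzWith_circleMap 0 r).dist_le_mul _ _).trans ?_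
    rw [Real.dist_eq, Real.dist_eq, ← mul_sub, abs_mul, abs_of_pos hp, Real.coe_nnabs,
      abs_of_pos hr, NNReal.coe_one, ← mul_assoc]
    exact mul_le_mul_of_nonneg_right (by linarith) (abs_nonneg _)
  obtain ⟨a, c, ha, h⟩ := hc.fit hK hl (by simp [circleMap]) (by
    simp only [circleMap]
    rw [show 2 * π * (1 / 2) = π by ring]
    intro h
    have := congrArg Complex.re h
    simp at this
    linarith)
  have ha0 : a ≠ 0 := by rintro rfl; simp at ha
  have key : ∀ u : ℂ, ‖u‖ = 1 → r * u + c ∈ K := by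
    intro u hu
    have hv : ‖u / a‖ = 1 := by rw [norm_div, hu, ha, div_one]
    rcases h with h | h
    · obtain ⟨t, ht, e⟩ := exists_turn (u / a) hv
      have := h t ht
      simp only [circleMap, e, zero_add] at this
      convert this using 2
      field_simp
    · obtain ⟨t, ht, e⟩ := exists_turn ((starRingEnd ℂ) (u / a)) (by rwa [Complex.norm_conj])
      have := h t ht
      simp only [circleMap, e, zero_add, map_mul, Complex.conj_ofReal, Complex.conj_conj] at this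
      convert this using 2
      field_simp
  refine ⟨c, fun w hw => ?_⟩
  rw [mem_closedBall_iff_norm] at hw
  have e := eq_norm_mul_uu (w - c)
  have n1 := norm_uu (w - c).arg
  have hn := norm_nonneg (w - c)
  generalize uu (w - c).arg = u at e n1
  generalize ‖w - c‖ = ρ at e hw hn
  have b1 : 0 ≤ (r + ρ) / (2 * r) := by positivity
  have b2 : 0 ≤ (r - ρ) / (2 * r) := div_nonneg (by linarith) (by linarith)
  have hr2 : (r : ℂ) ≠ 0 := by exact_mod_cast hr.ne'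
  convert hK (key u n1) (key (-u) (by rwa [norm_neg])) b1 b2 (by field_simp; ring) using 1
  rw [show w = ρ * u + c by rw [← e]; ring]
  simp only [Complex.real_smul]
  push_cast
  field_simp
  ring

end Pool.Agent.Lib.MP_4662c0_co.Low
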