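import Pool.Agent.Lib.MP_4662c0_co.LRep

set_option autoImplicit false

/-! Angular sectors of a convex set. -/

namespace Pool.Agent.Lib.MP_4662c0_co.Low

open Set Real MeasureTheory

/-- `P` lies on the ray of angle `θ`. -/
def Pol (θ : ℝ) (P : ℂ) : Prop := ∃ r : ℝ, 0 ≤ r ∧ P = r * uu θ

/-- The angle of `z` in the window `(a, a + 2π]`. -/
noncomputable def psi (a : ℝ) (z : ℂ) : ℝ := toIocMod two_pi_pos a z.arg

/-- Twice the area of the part of `K` of angle less than `θ`. -/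
noncomputable def Gf (K : Set ℂ) (a θ : ℝ) : ℝ := 2 * (volume (K ∩ {z | psi a z < θ})).toReal

lemma uu_int (θ : ℝ) (n : ℤ) : uu (θ + n * (2 * π)) = uu θ := by
  apply Complex.ext <;> simp [uu]

lemma pol_arg (z : ℂ) (n : ℤ) : Pol (z.arg + n * (2 * π)) z :=
  ⟨‖z‖, norm_nonneg z, by rw [uu_int]; exact eq_norm_mul_uu z⟩

lemma pol_psi (a : ℝ) (z : ℂ) : Pol (psi a z) z := by
  have h := pol_arg z (-toIocDiv two_pi_pos a z.arg)
  have e : psi a z = z.arg + ((-toIocDiv two_pi_pos a z.arg : ℤ) : ℝ) * (2 * π) := by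
    simp only [psi, toIocMod, zsmul_eq_mul]; push_cast; ring
  rwa [e]

lemma psi_mem (a : ℝ) (z : ℂ) : a < psi a z ∧ psi a z ≤ a + 2 * π :=
  toIocMod_mem_Ioc two_pi_pos a z.arg

lemma crs_uu (r s θ φ : ℝ) : crs (r * uu θ) (s * uu φ) = r * s * sin (φ - θ) := by
  simp [crs, uu, sin_sub]; ring

lemma Pol.sin_pos {θ φ : ℝ} {P Q : ℂ} (hP : Pol θ P) (hQ : Pol φ Q) (h : 0 < crs P Q) :
    0 < sin (φ - θ) := by
  obtain ⟨r, hr, rfl⟩ := hP
  obtain ⟨s, hs, rfl⟩ := hQ
  rw [crs_uu] at h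
  exact pos_of_mul_pos_left (by rwa [mul_comm] at h) (mul_nonneg hr hs)

lemma bracket {a θ φ : ℝ} {P Q w : ℂ} (hP : Pol θ P) (hQ : Pol φ Q) (h1 : a ≤ θ) (h2 : θ ≤ φ)
    (h3 : φ ≤ a + 2 * π) (c1 : 0 < crs P w) (c2 : 0 < crs w Q) :
    θ < psi a w ∧ psi a w < φ := by
  have s1 := hP.sin_pos (pol_psi a w) c1
  have s2 := (pol_psi a w).sin_pos hQ c2
  obtain ⟨m1, m2⟩ := psi_mem a w
  have hp := pi_pos
  by_cases b1 : -π ≤ psi a w - θ
  · have t1 := sin_pos_range s1 b1 (by linarith)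
    have t2 := sin_pos_range s2 (by linarith) (by linarith)
    constructor <;> linarith
  · have t2 := sin_pos_range s2 (by linarith) (by linarith)
    exact absurd t2.2 (by linarith)

lemma vol_T0 : volume {w : ℂ | 0 < w.re ∧ 0 < w.im ∧ w.re + w.im < 1} = ENNReal.ofReal (1 / 2) := by
  have hm : MeasurableSet (regionBetween (fun _ : ℝ => (0 : ℝ)) (fun x => 1 - x) (Ioo 0 1)) :=
    measurableSet_regionBetween measurable_const (by fun_prop) measurableSet_Ioo
  have e := Complex.volume_preserving_equiv_real_prod.measure_preimage hm.nullMeasurableSet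
  have e1 : {w : ℂ | 0 < w.re ∧ 0 < w.im ∧ w.re + w.im < 1} =
      Complex.measurableEquivRealProd ⁻¹'
        regionBetween (fun _ : ℝ => (0 : ℝ)) (fun x => 1 - x) (Ioo 0 1) := by
    ext w
    simp only [regionBetween, mem_ofPred_eq, mem_preimage, mem_Ioo,
      Complex.measurableEquivRealProd_apply]
    constructor
    · rintro ⟨a, b, c⟩
      exact ⟨⟨a, by linarith⟩, b, by linarith⟩
    · rintro ⟨⟨a, _⟩, b, c⟩
      exact ⟨a, b, by linarith⟩
  rw [e1, e, Measure.volume_eq_prod, volume_regionBetween_eq_integral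
    (integrableOn_const (by simp))
    ((Continuous.integrableOn_Icc (by fun_prop)).mono_set Ioo_subset_Icc_self) measurableSet_Ioo
    (fun x hx => by linarith [hx.2])]
  congr 1
  rw [← integral_Ioc_eq_integral_Ioo, ← intervalIntegral.integral_of_le zero_le_one]
  simp only [Pi.sub_apply, sub_zero]
  rw [intervalIntegral.integral_sub (by simp) (by simp)]
  simp
  norm_num

/-- The linear map with columns `P`, `Q`. -/
noncomputable def cols (P Q : ℂ) : ℂ →ₗ[ℝ] ℂ :=
  Complex.reLm.smulRight P + Complex.imLm.smulRight Q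

lemma cols_apply (P Q w : ℂ) : cols P Q w = w.re • P + w.im • Q := by simp [cols]

lemma det_cols (P Q : ℂ) : LinearMap.det (cols P Q) = crs P Q := by
  rw [← LinearMap.det_toMatrix Complex.basisOneI, Matrix.det_fin_two]
  simp [LinearMap.toMatrix_apply, cols_apply, crs]
  ring

lemma Gf_nonneg (K : Set ℂ) (a θ : ℝ) : 0 ≤ Gf K a θ := by
  unfold Gf; positivity

lemma Gf_le {K : Set ℂ} (hf : volume K ≠ ⊤) (a θ : ℝ) : Gf K a θ ≤ 2 * (volume K).toReal := by
  unfold Gf
  have := ENNReal.toReal_mono hf (measure_mono (inter_subset_left (t := {z | psi a z < θ})))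
  linarith

lemma step {K : Set ℂ} (hK : Convex ℝ K) (h0 : (0 : ℂ) ∈ K) (hf : volume K ≠ ⊤) {a θ φ : ℝ}
    {P Q : ℂ} (hP : Pol θ P) (hQ : Pol φ Q) (mP : P ∈ K) (mQ : Q ∈ K) (h1 : a ≤ θ) (h2 : θ ≤ φ)
    (h3 : φ ≤ a + 2 * π) : Gf K a θ + crs P Q ≤ Gf K a φ := by
  have fin : volume (K ∩ {z | psi a z < φ}) ≠ ⊤ :=
    ne_top_of_le_ne_top hf (measure_mono inter_subset_left)
  rcases le_or_gt (crs P Q) 0 with hc | hc
  · have := ENNReal.toReal_mono fin (measure_mono (show K ∩ {z | psi a z < θ} ⊆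
      K ∩ {z | psi a z < φ} from fun z hz => ⟨hz.1, lt_of_lt_of_le hz.2 h2⟩))
    unfold Gf
    linarith
  have hO : MeasurableSet {z : ℂ | 0 < crs P z ∧ 0 < crs z Q} := by
    have o1 : IsOpen {z : ℂ | 0 < crs P z} := isOpen_lt (by fun_prop) (by unfold crs; fun_prop)
    have o2 : IsOpen {z : ℂ | 0 < crs z Q} := isOpen_lt (by fun_prop) (by unfold crs; fun_prop)
    exact (o1.inter o2).measurableSet
  have e := measure_inter_add_sdiff (μ := volume) (K ∩ {z | psi a z < φ}) hO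
  have l1 : volume (cols P Q '' {w : ℂ | 0 < w.re ∧ 0 < w.im ∧ w.re + w.im < 1}) ≤
      volume (K ∩ {z | psi a z < φ} ∩ {z : ℂ | 0 < crs P z ∧ 0 < crs z Q}) := by
    refine measure_mono ?_
    rintro _ ⟨w, ⟨w1, w2, w3⟩, rfl⟩
    have c1 : 0 < crs P (cols P Q w) := by
      have : crs P (cols P Q w) = w.im * crs P Q := by simp [cols_apply, crs]; ring
      rw [this]; positivity
    have c2 : 0 < crs (cols P Q w) Q := by
      have : crs (cols P Q w) Q = w.re * crs P Q := by simp [cols_apply, crs]; ring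
      rw [this]; positivity
    refine ⟨⟨?_, (bracket hP hQ h1 h2 h3 c1 c2).2⟩, c1, c2⟩
    have hs : 0 < w.re + w.im := by linarith
    have m1 := hK mP mQ (div_pos w1 hs).le (div_pos w2 hs).le (by field_simp)
    have m2 := hK m1 h0 hs.le (show 0 ≤ 1 - (w.re + w.im) by linarith) (by ring)
    rw [smul_zero, add_zero, smul_add, smul_smul, smul_smul, mul_div_cancel₀ _ hs.ne',
      mul_div_cancel₀ _ hs.ne'] at m2
    rwa [cols_apply]
  have l2 : volume (K ∩ {z | psi a z < θ}) ≤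
      volume ((K ∩ {z | psi a z < φ}) \ {z : ℂ | 0 < crs P z ∧ 0 < crs z Q}) := by
    refine measure_mono fun z hz => ⟨⟨hz.1, lt_of_lt_of_le hz.2 h2⟩, fun h => ?_⟩
    exact absurd (bracket hP hQ h1 h2 h3 h.1 h.2).1 (not_lt.2 (le_of_lt hz.2))
  rw [Measure.addHaar_image_linearMap, det_cols, vol_T0, abs_of_pos hc,
    ← ENNReal.ofReal_mul hc.le] at l1
  have l3 := ENNReal.toReal_mono fin ((add_le_add l1 l2).trans e.le)
  rw [ENNReal.toReal_add ENNReal.ofReal_ne_top
    (ne_top_of_le_ne_top hf (measure_mono inter_subset_left)),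
    ENNReal.toReal_ofReal (by positivity)] at l3
  unfold Gf
  linarith

lemma far {K : Set ℂ} (hK : Convex ℝ K) {r : ℝ} (hr : 0 ≤ r) (hB : Metric.closedBall 0 r ⊆ K)
    (hf : volume K ≠ ⊤) {t : ℂ} (ht : t ∈ K) :
    2 * r ^ 2 + 2 * r * ‖t‖ ≤ 2 * (volume K).toReal := by
  have h0 : (0 : ℂ) ∈ K := hB (Metric.mem_closedBall_self hr)
  have hp := pi_pos
  have m : ∀ θ, (r : ℂ) * uu θ ∈ K := fun θ => hB (by
    simp [norm_uu, abs_of_nonneg hr])
  have p : ∀ θ, Pol θ (r * uu θ) := fun θ => ⟨r, hr, rfl⟩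
  have et := eq_norm_mul_uu t
  have pt : Pol t.arg t := ⟨‖t‖, norm_nonneg t, et⟩
  have s1 := step hK h0 hf (a := t.arg - π) (p (t.arg - π)) (p (t.arg - π / 2)) (m _) (m _)
    le_rfl (by linarith) (by linarith)
  have s2 := step hK h0 hf (a := t.arg - π) (p (t.arg - π / 2)) pt (m _) ht
    (by linarith) (by linarith) (by linarith)
  have s3 := step hK h0 hf (a := t.arg - π) pt (p (t.arg + π / 2)) ht (m _)
    (by linarith) (by linarith) (by linarith)
  have s4 := step hK h0 hf (a := t.arg - π) (p (t.arg + π / 2)) (p (t.arg + π)) (m _) (m _)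
    (by linarith) (by linarith) (by linarith)
  have c2 : crs (r * uu (t.arg - π / 2)) t = r * ‖t‖ := by
    conv_lhs => rw [et]
    rw [← et, show crs (r * uu (t.arg - π / 2)) t =
      crs (r * uu (t.arg - π / 2)) ((‖t‖ : ℝ) * uu t.arg) by rw [← et], crs_uu]
    simp
  have c3 : crs t (r * uu (t.arg + π / 2)) = r * ‖t‖ := by
    rw [show crs t (r * uu (t.arg + π / 2)) =
      crs ((‖t‖ : ℝ) * uu t.arg) (r * uu (t.arg + π / 2)) by rw [← et], crs_uu]
    simp [mul_comm]
  rw [crs_uu, show t.arg - π / 2 - (t.arg - π) = π / 2 by ring, sin_pi_div_two] at s1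
  rw [crs_uu, show t.arg + π - (t.arg + π / 2) = π / 2 by ring, sin_pi_div_two] at s4
  have := Gf_nonneg K (t.arg - π) (t.arg - π)
  have := Gf_le hf (t.arg - π) (t.arg + π)
  nlinarith

/-- The direction number `k`. -/
noncomputable def dir (k : ℕ) : ℂ := vec 512 (dX (Nat.land k 4095)) (dY (Nat.land k 4095))

/-- The angle of the direction number `k`. -/
noncomputable def Ang (k : ℕ) : ℝ := (dir k).arg + ((k + 511) / 4096 : ℕ) * (2 * π)

lemma land_mod (k : ℕ) : Nat.land k 4095 = k % 4096 := Nat.and_two_pow_sub_one_eq_mod k 12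

lemma pol_dir (k : ℕ) : Pol (Ang k) (dir k) := by
  have := pol_arg (dir k) ((k + 511) / 4096 : ℕ)
  rwa [Int.cast_natCast] at this

lemma dir_chk0 : ∀ i < 64, ∀ j < 64, 64 * i + j ≠ 3584 →
    ale 512 (dX (64 * i + j)) (dY (64 * i + j)) (dX ((64 * i + j + 1) % 4096))
      (dY ((64 * i + j + 1) % 4096)) = true := by decide +kernel

lemma dir_chk (r : ℕ) (h : r < 4096) (h' : r ≠ 3584) :
    ale 512 (dX r) (dY r) (dX ((r + 1) % 4096)) (dY ((r + 1) % 4096)) = true := by
  have e : 64 * (r / 64) + r % 64 = r := Nat.div_add_mod r 64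
  have := dir_chk0 (r / 64) (by omega) (r % 64) (by omega) (by omega)
  rwa [e] at this

lemma Ang_succ (k : ℕ) : Ang k ≤ Ang (k + 1) := by
  unfold Ang
  by_cases h : k % 4096 = 3584
  · rw [show (k + 1 + 511) / 4096 = (k + 511) / 4096 + 1 by omega]
    have := Complex.arg_le_pi (dir k)
    have := Complex.neg_pi_lt_arg (dir (k + 1))
    push_cast
    linarith
  · rw [show (k + 1 + 511) / 4096 = (k + 511) / 4096 by omega]
    have := ale_spec (dir_chk (k % 4096) (Nat.mod_lt _ (by norm_num)) h)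
    rw [show (k % 4096 + 1) % 4096 = (k + 1) % 4096 by omega] at this
    unfold dir
    rw [land_mod, land_mod]
    linarith

lemma Ang_mono : Monotone Ang := monotone_nat_of_le_succ Ang_succ

lemma Ang_per (k : ℕ) : Ang (k + 4096) = Ang k + 2 * π := by
  unfold Ang dir
  rw [land_mod, land_mod, show (k + 4096) % 4096 = k % 4096 by omega,
    show (k + 4096 + 511) / 4096 = (k + 511) / 4096 + 1 by omega]
  push_cast; ring

/-- The vertex number `k` of the inscribed polygon. -/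
noncomputable def tq (k : ℕ) : ℂ := vec 6710886400 (tX (tR k)) (tY (tR k))

def ix (k : ℕ) : ℤ := (tX (tR k) : ℤ) - 6710886400

def iy (k : ℕ) : ℤ := (tY (tR k) : ℤ) - 6710886400

def il (k : ℕ) : ℕ := max (ix k).natAbs (iy k).natAbs / 512

lemma tab_chk : ∀ k < 512, ix k = il k * ((dX (16 * k % 4096) : ℤ) - 512) ∧
    iy k = il k * ((dY (16 * k % 4096) : ℤ) - 512) ∧
    ix k * ix k + iy k * iy k ≤ 2136140907 * 2136140907 ∧
    (tS (tR (k + 1)) : ℤ) = tS (tR k) + (ix k * iy (k + 1) - iy k * ix (k + 1)) := by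
  decide +kernel

lemma tq_pol {k : ℕ} (hk : k < 512) : Pol (Ang (16 * k)) (tq k) := by
  obtain ⟨h1, h2, -⟩ := tab_chk k hk
  obtain ⟨r, hr, e⟩ := pol_dir (16 * k)
  refine ⟨il k * r, by positivity, ?_⟩
  push_cast
  rw [mul_assoc, ← e]
  have a1 := congrArg (Int.cast : ℤ → ℝ) h1
  have a2 := congrArg (Int.cast : ℤ → ℝ) h2
  unfold ix at a1
  unfold iy at a2
  push_cast at a1 a2
  unfold tq dir
  rw [land_mod]
  generalize tX (tR k) = x, tY (tR k) = y, il k = l, dX (16 * k % 4096) = dx,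
    dY (16 * k % 4096) = dy at a1 a2 ⊢
  apply Complex.ext
  · simpa [vec] using a1
  · simpa [vec] using a2

lemma tq_mem {k : ℕ} (hk : k < 512) : tq k ∈ Metric.closedBall (0 : ℂ) 2136140907 := by
  obtain ⟨-, -, h, -⟩ := tab_chk k hk
  have a : ((ix k * ix k + iy k * iy k : ℤ) : ℝ) ≤ ((2136140907 * 2136140907 : ℤ) : ℝ) :=
    Int.cast_le.2 h
  unfold ix iy at a
  push_cast at a
  rw [mem_closedBall_zero_iff]
  refine abs_le_of_sq_le_sq' ?_ (by norm_num) |>.2
  rw [norm_sq_eq]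
  simp only [tq, vec]
  push_cast
  nlinarith

lemma tq_crs {k : ℕ} (hk : k < 512) :
    (tS (tR (k + 1)) : ℝ) = tS (tR k) + crs (tq k) (tq (k + 1)) := by
  obtain ⟨-, -, -, h⟩ := tab_chk k hk
  have a := congrArg (Int.cast : ℤ → ℝ) h
  unfold ix iy at a
  push_cast at a
  simpa [tq, vec, crs] using a

end Pool.Agent.Lib.MP_4662c0_co.Low
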