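import Pool.Agent.Lib.MP_4662c0_co.LLin

set_option autoImplicit false

/-! Soundness of the chains of a leaf certificate. -/

namespace Pool.Agent.Lib.MP_4662c0_co.Low

open Real MeasureTheory

lemma Rp.mul {δ m : ℕ → ℝ} (hm : MOK δ m) {X Y : ℤ} {v w : ℝ} {n n' : ℤ} (h : Rp 11 gol δ X v n)
    (h' : Rp 11 gol δ Y w n') : Rep m (X * Y) (v * w) (n * n') := Lin.mul hm h h'

lemma Rp.rep {δ m : ℕ → ℝ} (hm : MOK δ m) {X : ℤ} {v : ℝ} {n : ℤ} (h : Rp 11 gol δ X v n) :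
    Rep m X v n := Lin.rep hm h

/-- A convex set of finite area containing the disc. -/
structure Good (K : Set ℂ) : Prop where
  conv : Convex ℝ K
  ball : Metric.closedBall 0 2136140907 ⊆ K
  fin : volume K ≠ ⊤

/-- The potential of a point. -/
noncomputable def Gp (K : Set ℂ) (k0 : ℕ) (p : ℂ) : ℝ :=
  Gf K (Ang (16 * k0)) (psi (Ang (16 * k0)) p)

/-- The potential of a vertex of the inscribed polygon. -/
noncomputable def Ft (K : Set ℂ) (k0 k : ℕ) : ℝ :=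
  Gf K (Ang (16 * k0)) (Ang (16 * k)) - tS (tR k)

/-- The data of a leaf. -/
structure Ctx (K : Set ℂ) (δ m : ℕ → ℝ) (q : ℕ → ℂ) (k0 : ℕ) : Prop where
  good : Good K
  mok : MOK δ m
  mem : ∀ j, q j ∈ K
  mark : ∀ j, m (145 + j) = -(Gp K k0 (q j) + ov δ * ((q j).im - (q j).re))
  lt : k0 < 256

/-- A correct vertex record. -/
def VOK (δ : ℕ → ℝ) (q : ℕ → ℂ) (k0 x y lo hi sh : ℕ) : Prop :=
  ∃ j < 10, sh = 104 * (145 + j) ∧ Lin δ x ((q j).re + ov δ) (2 ^ 37) ∧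
    Lin δ y ((q j).im + ov δ) (2 ^ 37) ∧ Ang lo ≤ psi (Ang (16 * k0)) (q j) ∧
    psi (Ang (16 * k0)) (q j) ≤ Ang hi

lemma Good.zero {K : Set ℂ} (h : Good K) : (0 : ℂ) ∈ K :=
  h.ball (Metric.mem_closedBall_self (by norm_num))

lemma Ang_top (k0 : ℕ) : Ang (16 * (k0 + 256)) = Ang (16 * k0) + 2 * π := by
  rw [← Ang_per, show 16 * (k0 + 256) = 16 * k0 + 4096 by ring]

lemma dX_le (k : ℕ) : dX k ≤ 1024 := by
  rw [show dX k = k - (k - 1024) - (k - 2048) from rfl]; omega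

lemma dY_le (k : ℕ) : dY k ≤ 1024 := by
  rw [show dY k = k - 1024 - (k - 2048) - (k - 3072) from rfl]; omega

lemma lin_bP {δ : ℕ → ℝ} (h0 : δ 0 = 1) {x y dx dy : ℕ} {px py : ℝ}
    (hx : Lin δ x (px + ov δ) (2 ^ 37)) (hy : Lin δ y (py + ov δ) (2 ^ 37)) (h1 : dx ≤ 1024)
    (h2 : dy ≤ 1024) :
    Lin δ (bP dx dy x y) (dx * (py + ov δ) + 512 * (px + ov δ) + dy * ov δ) (2 ^ 50) := by
  refine (((hy.smul dx).add (hx.smul 512)).add ((lin_O h0).smul dy)).of ?_ ?_ ?_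
  · simp only [bP, Nat.add_eq, Nat.mul_eq]
    push_cast; ring
  · push_cast; ring
  · omega

section
variable {K : Set ℂ} {δ m : ℕ → ℝ} {q : ℕ → ℂ} {k0 : ℕ}

lemma brL_spec (hm : MOK δ m) {x y k : ℕ} {p : ℂ} (hx : Lin δ x (p.re + ov δ) (2 ^ 37))
    (hy : Lin δ y (p.im + ov δ) (2 ^ 37)) (h : brL x y k = true) : 0 < crs (dir k) p := by
  simp only [brL, force_eq] at h
  simp only [brL2, force_eq] at h
  have := lowb_sound hm (((lin_bP hm.one hx hy (dX_le _) (dY_le _)).sub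
    (lin_bP hm.one hy hx (dY_le _) (dX_le _))).rep hm) (by norm_num) h
  simp only [crs, dir, vec]
  push_cast at this ⊢
  linarith

lemma brH_spec (hm : MOK δ m) {x y k : ℕ} {p : ℂ} (hx : Lin δ x (p.re + ov δ) (2 ^ 37))
    (hy : Lin δ y (p.im + ov δ) (2 ^ 37)) (h : brH x y k = true) : 0 < crs p (dir k) := by
  simp only [brH, force_eq] at h
  simp only [brH2, force_eq] at h
  have := lowb_sound hm (((lin_bP hm.one hy hx (dY_le _) (dX_le _)).sub
    (lin_bP hm.one hx hy (dX_le _) (dY_le _))).rep hm) (by norm_num) h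
  simp only [crs, dir, vec]
  push_cast at this ⊢
  linarith

lemma mkV2_spec {top sh x y lo hi : ℕ} {k : Vx → Bool} (h : mkV2 top sh k x y lo hi = true) :
    hi ≤ top ∧ brL x y lo = true ∧ brH x y hi = true ∧ k ⟨x, y, lo, hi, sh⟩ = true := by
  simpa only [mkV2, brec, Nat.ble_eq] using h

lemma mkV1_spec {base top x y sh f : ℕ} {k : Vx → Bool} (h : mkV1 base top x y sh k f = true) :
    ∃ lo hi, base ≤ lo ∧ lo ≤ hi ∧ mkV2 top sh k x y lo hi = true := by
  simp only [mkV1, force_eq] at h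
  exact ⟨_, _, Nat.le_add_right _ _, Nat.le_add_right _ _, h⟩

lemma mkV_spec (hm : MOK δ m) {x y j f : ℕ} {k : Vx → Bool} (hj : j < 10)
    (hx : Lin δ x ((q j).re + ov δ) (2 ^ 37)) (hy : Lin δ y ((q j).im + ov δ) (2 ^ 37))
    (h : mkV (16 * k0) (16 * k0 + 4096) x y (104 * (145 + j)) k f = true) :
    ∃ v, k v = true ∧ VOK δ q k0 v.x v.y v.lo v.hi v.sh := by
  have hp := psi_mem (Ang (16 * k0)) (q j)
  cases f with
  | zero => exact ⟨_, h, j, hj, rfl, hx, hy, hp.1.le, by rw [Ang_per]; exact hp.2⟩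
  | succ n =>
    obtain ⟨lo, hi, a1, a2, h1⟩ := mkV1_spec (f := Nat.succ n) h
    obtain ⟨a3, b1, b2, h2⟩ := mkV2_spec h1
    have := bracket (a := Ang (16 * k0)) (pol_dir lo) (pol_dir hi) (Ang_mono a1) (Ang_mono a2)
      (by rw [← Ang_per]; exact Ang_mono a3) (brL_spec hm hx hy b1) (brH_spec hm hx hy b2)
    exact ⟨_, h2, j, hj, rfl, hx, hy, this.1.le, this.2.le⟩

lemma bld_spec (hm : MOK δ m) {k : ℕ → List Vx → Bool} (l : List (ℕ × ℕ)) :
    ∀ (Y j : ℕ) (acc : List Vx), LOK δ q j l →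
      (∀ v ∈ acc, VOK δ q k0 v.x v.y v.lo v.hi v.sh) →
      bld (16 * k0) (16 * k0 + 4096) k l Y (104 * (145 + j)) acc = true →
      ∃ Y' vs, k Y' vs = true ∧ ∀ v ∈ vs, VOK δ q k0 v.x v.y v.lo v.hi v.sh := by
  induction l with
  | nil => exact fun Y j acc _ ha h => ⟨Y, acc, h, ha⟩
  | cons p l ih =>
    intro Y j acc hl ha h
    obtain ⟨l1, l2, l3, l4⟩ := hl
    have h1 : bldS (16 * k0) (16 * k0 + 4096) p (bld (16 * k0) (16 * k0 + 4096) k l) Y
      (104 * (145 + j)) acc = true := h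
    unfold bldS at h1
    obtain ⟨v, v1, v2⟩ := mkV_spec hm l1 l2 l3 h1
    simp only [force_eq] at v1
    rw [show Nat.add (104 * (145 + j)) 104 = 104 * (145 + (j + 1)) by
      simp only [Nat.add_eq]; omega] at v1
    refine ih _ _ _ l4 (fun w hw => ?_) v1
    rcases List.mem_cons.1 hw with rfl | hw
    · exact v2
    · exact ha w hw

lemma get_spec {k : ℕ → ℕ → ℕ → ℕ → ℕ → Bool} (l : List Vx) :
    ∀ n, get k l n = true → ∃ v ∈ l, k v.x v.y v.lo v.hi v.sh = true := by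
  induction l with
  | nil => intro n h; exact absurd h (by simp [get])
  | cons v l ih =>
    intro n h
    cases n with
    | zero => exact ⟨v, List.mem_cons_self, h⟩
    | succ n =>
      obtain ⟨w, w1, w2⟩ := ih n h
      exact ⟨w, List.mem_cons_of_mem _ w1, w2⟩

lemma Ang_rng {k0 k : ℕ} (h1 : k0 ≤ k) (h2 : k ≤ k0 + 256) :
    Ang (16 * k0) ≤ Ang (16 * k) ∧ Ang (16 * k) ≤ Ang (16 * k0) + 2 * π :=
  ⟨Ang_mono (by omega), by rw [← Ang_top]; exact Ang_mono (by omega)⟩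

lemma Ft_mono (hK : Good K) (h0 : k0 < 256) {i j : ℕ} (h1 : k0 ≤ i) (h2 : i ≤ j)
    (h3 : j ≤ k0 + 256) : Ft K k0 i ≤ Ft K k0 j := by
  induction j, h2 using Nat.le_induction with
  | base => exact le_rfl
  | succ j hj ih =>
    refine (ih (by omega)).trans ?_
    have s := step hK.conv hK.zero hK.fin (a := Ang (16 * k0)) (tq_pol (k := j) (by omega))
      (tq_pol (k := j + 1) (by omega)) (hK.ball (tq_mem (by omega))) (hK.ball (tq_mem (by omega)))
      (Ang_rng (by omega) (by omega)).1 (Ang_mono (by omega)) (Ang_rng (by omega) h3).2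
    have := tq_crs (k := j) (by omega)
    unfold Ft
    linarith

/-- The invariant of the chain. -/
def Gl (K : Set ℂ) (m : ℕ → ℝ) (k0 thr : ℕ) (b : ℤ) (P N pool cur : ℕ) : Prop :=
  cur ≤ k0 + 256 ∧ ∀ (v C0 : ℝ) (n : ℤ), Rep m ((P : ℤ) - N) v n → n ≤ b → k0 ≤ cur →
    v ≤ pool * Ft K k0 cur + C0 → (thr : ℝ) ≤ 65535 * Ft K k0 (k0 + 256) + C0

lemma rep_mark (m : ℕ → ℝ) {j : ℕ} (hj : j < 10) (mu : ℕ) :
    Rep m (Nat.shiftLeft mu (104 * (145 + j)) : ℕ) (mu * m (145 + j)) mu := by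
  refine (Rp.single (N := 155) id m (i := 145 + j) (by omega) (mu : ℤ)).of ?_ (by simp) (by simp)
  simp only [Nat.shiftLeft_eq', Nat.shiftLeft_eq, id]
  push_cast; rfl

lemma ww2_spec (c : Ctx K δ m q k0) {thr : ℕ} {b : ℤ} {ih : ℕ → ℕ → ℕ → ℕ → Bool}
    (hi : ∀ P N pool cur, ih P N pool cur = true → Gl K m k0 thr b P N pool cur)
    {P N pool cur mu x y lo hi' sh x2 y2 lo2 hi2 sh2 : ℕ} (hmu : mu ≤ 65535)
    (v1 : VOK δ q k0 x y lo hi' sh) (v2 : VOK δ q k0 x2 y2 lo2 hi2 sh2)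
    (h : ww2 ih P N pool cur mu x y hi' sh x2 y2 lo2 hi2 sh2 = true) :
    Gl K m k0 thr (b - 2 ^ 93) P N pool cur := by
  simp only [ww2, brec, force_eq, Nat.ble_eq] at h
  obtain ⟨h1, h2⟩ := h
  obtain ⟨g1, g2⟩ := hi _ _ _ _ h2
  obtain ⟨j, hj, rfl, lx, ly, -, a2⟩ := v1
  obtain ⟨i, hi2, rfl, lx2, ly2, a3, -⟩ := v2
  refine ⟨g1, fun v C0 n r hn hc hv => ?_⟩
  have s := step c.good.conv c.good.zero c.good.fin (a := Ang (16 * k0)) (pol_psi _ (q j))
    (pol_psi _ (q i)) (c.mem j) (c.mem i) (psi_mem _ _).1.le (a2.trans ((Ang_mono h1).trans a3))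
    (psi_mem _ _).2
  refine g2 (v + mu * (crs (q j) (q i) + Gp K k0 (q j) - Gp K k0 (q i))) C0 (n + 2 ^ 93)
    ((r.add ((((lx.smul mu).mul c.mok ly2).add (rep_mark m hi2 mu)).sub
      (((ly.smul mu).mul c.mok lx2).add (rep_mark m hj mu)))).of ?_ ?_ ?_) (by linarith) hc ?_
  · simp only [Nat.add_eq, Nat.mul_eq]
    push_cast; ring
  · rw [c.mark, c.mark, crs]; ring
  · omega
  · have : (mu : ℝ) * (crs (q j) (q i) + Gp K k0 (q j) - Gp K k0 (q i)) ≤ 0 :=
      mul_nonpos_of_nonneg_of_nonpos (Nat.cast_nonneg _) (by unfold Gp; linarith)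
    linarith

lemma tS_le (k : ℕ) : tS (tR k) ≤ 2 ^ 72 := by
  have h : tR k ≤ 22300745198530623141535718272648361505980415 := Nat.and_le_right
  generalize tR k = r at h
  simp only [tS, Nat.shiftRight_eq, Nat.shiftRight_eq_div_pow]
  omega

lemma tAB_rep (c : Ctx K δ m q k0) {j x y mu : ℕ} (k : ℕ) (hj : j < 10) (hmu : mu ≤ 65535)
    (lx : Lin δ x ((q j).re + ov δ) (2 ^ 37)) (ly : Lin δ y ((q j).im + ov δ) (2 ^ 37)) :
    Rep m ((tA x (Nat.mul mu (Nat.add (tX (tR k)) cOp)) (Nat.mul mu (Nat.add (tY (tR k)) cOp)) : ℤ) -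
      tB y (Nat.mul mu (Nat.add (tX (tR k)) cOp)) (Nat.mul mu (Nat.add (tY (tR k)) cOp)) mu
        (tS (tR k)) (104 * (145 + j)))
      (mu * (crs (q j) (tq k) + Gp K k0 (q j) - tS (tR k))) (2 ^ 93) := by
  have b1 : tX (tR k) ≤ 68719476735 := Nat.and_le_right
  have b2 : tY (tR k) ≤ 68719476735 := Nat.and_le_right
  have b3 := tS_le k
  unfold tq
  generalize tX (tR k) = X, tY (tR k) = Y, tS (tR k) = S at b1 b2 b3 ⊢
  have h0 := c.mok.one
  have la : Lin δ (X + cOp) (X - 6710886400 + ov δ) (2 ^ 37) :=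
    ((Lin.nat h0 X).add (lin_Op h0)).of rfl (by ring) (by omega)
  have lb : Lin δ (Y + cOp) (Y - 6710886400 + ov δ) (2 ^ 37) :=
    ((Lin.nat h0 Y).add (lin_Op h0)).of rfl (by ring) (by omega)
  have ls : Lin δ S S (2 ^ 72) := (Lin.nat h0 S).of rfl rfl (by omega)
  refine ((((lb.smul mu).mul c.mok lx).add ((la.smul mu).mul c.mok (lin_O h0))).sub
    ((((la.smul mu).mul c.mok ly).add ((lb.smul mu).mul c.mok (lin_O h0))).add
      (((ls.smul mu).rep c.mok).add (rep_mark m hj mu)))).of ?_ ?_ ?_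
  · simp only [tA, tB, Nat.add_eq, Nat.mul_eq]
    push_cast; ring
  · rw [c.mark, crs]
    simp only [vec]
    push_cast; ring
  · omega

lemma ent_spec {ih : ℕ → ℕ → ℕ → ℕ → Bool} {P N pool mu x y hi sh k s a b : ℕ}
    (h : ent ih P N pool mu x y hi sh k s a b = true) :
    hi ≤ 16 * k ∧ ih (P + tA x a b) (N + tB y a b mu s sh) (pool + mu) k = true := by
  simpa only [ent, brec, force_eq, Nat.ble_eq, Nat.add_eq, Nat.mul_eq] using h

lemma ext_spec {ih : ℕ → ℕ → ℕ → ℕ → Bool} {P N pool mu x y lo sh k s a b : ℕ}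
    (h : ext ih P N pool mu x y lo sh k s a b = true) :
    16 * k ≤ lo ∧ mu ≤ pool ∧ ih (P + tB y a b mu s sh) (N + tA x a b) (pool - mu) k = true := by
  simpa only [ext, brec, force_eq, Nat.ble_eq, Nat.add_eq, Nat.mul_eq, Nat.sub_eq] using h

lemma tb2_spec {mu r : ℕ} {f : ℕ → ℕ → ℕ → Bool} (h : tb2 mu f r = true) :
    f (tS r) (Nat.mul mu (Nat.add (tX r) cOp)) (Nat.mul mu (Nat.add (tY r) cOp)) = true := by
  simpa only [tb2, force_eq] using h

lemma tb_spec (c : Ctx K δ m q k0) {thr : ℕ} {b : ℤ} {ih : ℕ → ℕ → ℕ → ℕ → Bool}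
    (hi : ∀ P N pool cur, ih P N pool cur = true → Gl K m k0 thr b P N pool cur)
    {P N pool cur mu x y lo hi' sh ty k : ℕ} (hmu : mu ≤ 65535) (hk : cur ≤ k)
    (v1 : VOK δ q k0 x y lo hi' sh) (h : tb ih P N pool mu x y lo hi' sh ty k = true) :
    Gl K m k0 thr (b - 2 ^ 93) P N pool cur := by
  simp only [tb, force_eq] at h
  have h1 := tb2_spec h
  obtain ⟨j, hj, rfl, lx, ly, a1, a2⟩ := v1
  have r0 := tAB_rep c k hj hmu lx ly
  have lt := c.lt
  have hp : (0 : ℝ) ≤ pool := Nat.cast_nonneg _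
  have hm : (0 : ℝ) ≤ mu := Nat.cast_nonneg _
  cases ty with
  | zero =>
    obtain ⟨b1, h2⟩ := ent_spec h1
    obtain ⟨g1, g2⟩ := hi _ _ _ _ h2
    refine ⟨hk.trans g1, fun v C0 n r hn hc hv => ?_⟩
    have s := step c.good.conv c.good.zero c.good.fin (a := Ang (16 * k0)) (pol_psi _ (q j))
      (tq_pol (k := k) (by omega)) (c.mem j) (c.good.ball (tq_mem (by omega))) (psi_mem _ _).1.le
      (a2.trans (Ang_mono b1)) (Ang_rng (hc.trans hk) g1).2
    have mo := mul_le_mul_of_nonneg_left (Ft_mono c.good lt hc hk g1) hp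
    refine g2 _ C0 _ ((r.add r0).of (by push_cast; ring) rfl le_rfl) (by linarith) (hc.trans hk) ?_
    have : crs (q j) (tq k) + Gp K k0 (q j) - tS (tR k) ≤ Ft K k0 k := by
      unfold Gp Ft; linarith
    have := mul_le_mul_of_nonneg_left this hm
    push_cast
    linarith
  | succ ty =>
    obtain ⟨b1, b2, h2⟩ := ext_spec h1
    obtain ⟨g1, g2⟩ := hi _ _ _ _ h2
    refine ⟨hk.trans g1, fun v C0 n r hn hc hv => ?_⟩
    have s := step c.good.conv c.good.zero c.good.fin (a := Ang (16 * k0))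
      (tq_pol (k := k) (by omega)) (pol_psi _ (q j)) (c.good.ball (tq_mem (by omega))) (c.mem j)
      (Ang_rng (hc.trans hk) g1).1 ((Ang_mono b1).trans a1) (psi_mem _ _).2
    have mo := mul_le_mul_of_nonneg_left (Ft_mono c.good lt hc hk g1) hp
    refine g2 _ C0 _ ((r.sub r0).of (by push_cast; ring) rfl le_rfl) (by linarith) (hc.trans hk) ?_
    have : Ft K k0 k ≤ crs (q j) (tq k) + Gp K k0 (q j) - tS (tR k) := by
      have : crs (q j) (tq k) = -crs (tq k) (q j) := by unfold crs; ring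
      unfold Gp Ft; linarith
    have := mul_le_mul_of_nonneg_left this hm
    push_cast [b2]
    linarith

lemma edV_spec (c : Ctx K δ m q k0) {thr : ℕ} {b : ℤ} {ih : ℕ → ℕ → ℕ → ℕ → Bool} {vs : List Vx}
    (hv : ∀ v ∈ vs, VOK δ q k0 v.x v.y v.lo v.hi v.sh)
    (hi : ∀ P N pool cur, ih P N pool cur = true → Gl K m k0 thr b P N pool cur)
    {P N pool cur mu ty j x y lo hi' sh : ℕ} (hmu : mu ≤ 65535) (v1 : VOK δ q k0 x y lo hi' sh)
    (h : edV vs ih P N pool cur mu ty j x y lo hi' sh = true) :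
    Gl K m k0 thr (b - 2 ^ 93) P N pool cur := by
  cases ty with
  | zero =>
    obtain ⟨w, w1, w2⟩ := get_spec vs j h
    exact ww2_spec c hi hmu v1 (hv w w1) w2
  | succ n =>
    have h1 : force (Nat.add cur j) (tb ih P N pool mu x y lo hi' sh n) = true := h
    rw [force_eq] at h1
    exact tb_spec c hi hmu (Nat.le_add_right _ _) v1 h1

lemma edF_spec {kend thr Y P N pool cur : ℕ} (h : edF kend thr Y P N pool cur = true) :
    pool = 65535 ∧ cur ≤ kend ∧ lowb cOff cOne P N thr = true := by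
  simpa only [edF, brec, Nat.ble_eq, Nat.beq_eq] using h

lemma eds_spec (c : Ctx K δ m q k0) {thr : ℕ} {vs : List Vx}
    (hv : ∀ v ∈ vs, VOK δ q k0 v.x v.y v.lo v.hi v.sh) (n : ℕ) :
    ∀ Y P N pool cur, eds (k0 + 256) thr vs n Y P N pool cur = true →
      Gl K m k0 thr (2 ^ 103 - n * 2 ^ 93) P N pool cur := by
  induction n with
  | zero =>
    intro Y P N pool cur h
    obtain ⟨rfl, h2, h3⟩ := edF_spec (Y := Y) h
    refine ⟨h2, fun v C0 n r hn hc hv => ?_⟩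
    have := lowb_sound c.mok r (by simpa using hn) h3
    have := Ft_mono c.good c.lt hc h2 le_rfl
    push_cast at hv
    linarith
  | succ n ih =>
    intro Y P N pool cur h
    have h1 : edS vs (eds (k0 + 256) thr vs n) Y P N pool cur = true := h
    simp only [edS, force_eq] at h1
    obtain ⟨w, w1, w2⟩ := get_spec vs _ h1
    have := edV_spec c hv (ih _) Nat.and_le_right (hv w w1) w2
    rwa [show (2 : ℤ) ^ 103 - n * 2 ^ 93 - 2 ^ 93 = 2 ^ 103 - (n + 1 : ℕ) * 2 ^ 93 by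
      push_cast; ring] at this

lemma lf3_spec (c : Ctx K δ m q k0) {thr Y P N : ℕ} {l : List (ℕ × ℕ)} (hl : LOK δ q 0 l)
    (r : Rep m ((P : ℤ) - N) (65535 * (tS (tR (k0 + 256)) : ℝ) - 65535 * tS (tR k0)) (2 ^ 102))
    (h : lf3 thr Y k0 l P N = true) : (thr : ℝ) ≤ 65535 * (2 * (volume K).toReal) := by
  simp only [lf3, force_eq] at h
  obtain ⟨Y', vs, h1, h2⟩ := bld_spec (k0 := k0) c.mok l _ 0 [] hl (by simp) h
  have hb : Nat.land (Nat.shiftRight Y 8) 63 ≤ 63 := Nat.and_le_right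
  obtain ⟨-, g⟩ := eds_spec c h2 _ _ _ _ _ _ h1
  have := g _ (65535 * (tS (tR (k0 + 256)) : ℝ) - 65535 * tS (tR k0) - 65535 * Ft K k0 k0) _ r
    (by omega) le_rfl (by push_cast; linarith)
  have := Gf_le c.good.fin (Ang (16 * k0)) (Ang (16 * (k0 + 256)))
  have := Gf_nonneg K (Ang (16 * k0)) (Ang (16 * k0))
  unfold Ft at *
  linarith

end

end Pool.Agent.Lib.MP_4662c0_co.Low
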