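import Pool.Agent.Lib.MP_4662c0_co.LGeo

set_option autoImplicit false

/-! The packed coordinates of the vertices. -/

namespace Pool.Agent.Lib.MP_4662c0_co.Low

lemma brec {c x : Bool} :
    Bool.rec (motive := fun _ => Bool) false x c = true ↔ c = true ∧ x = true := by
  cases c <;> simp

/-- The packed guard of a rotation. -/
def gN (e1 e2 : ℕ) : ℕ := 67108864 * (1 + 2 ^ e1 + 2 ^ e2)

/-- The value of the guard. -/
def gv (δ : ℕ → ℝ) (i j : ℕ) : ℝ := 67108864 * (1 + δ i + δ j)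

/-- The value of the offset. -/
def ov (δ : ℕ → ℝ) : ℝ := 100 * (gv δ 5 6 + gv δ 9 10) + 6710886400

lemma const_chk : cD1 = 2 * gN 3432 4888 ∧ cD2 = 2 * gN 7280 7488 ∧ cC1 = 100 * gN 7280 7488 ∧
    cC2 = 100 * gN 3432 4888 ∧ cOp = 100 * (gN 3432 4888 + gN 7280 7488) ∧
    cO = cOp + 6710886400 ∧ cSp = cOp + 3355443200 ∧ cSm + 3355443200 = cOp ∧
    cH1 = 2 * (gN 3432 4888 * gN 3432 4888) ∧ cH2 = 2 * (gN 7280 7488 * gN 7280 7488) := by
  decide +kernel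

section
variable {δ : ℕ → ℝ}

lemma lin_var (δ : ℕ → ℝ) {i e : ℕ} (hi : i < 11) (he : e = 104 * gol i) (a : ℕ) :
    Lin δ (a * 2 ^ e) (a * δ i) a := by
  subst he
  simpa using Rp.single (N := 11) gol δ hi (a : ℤ)

lemma lin_g (h0 : δ 0 = 1) {i j e1 e2 : ℕ} (hi : i < 11) (hj : j < 11) (h1 : e1 = 104 * gol i)
    (h2 : e2 = 104 * gol j) : Lin δ (gN e1 e2) (gv δ i j) 201326592 := by
  refine (((Lin.nat h0 67108864).add (lin_var δ hi h1 67108864)).add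
    (lin_var δ hj h2 67108864)).of ?_ ?_ (by norm_num)
  · unfold gN; push_cast; ring
  · unfold gv; push_cast; ring

lemma lin_g1 (h0 : δ 0 = 1) : Lin δ (gN 3432 4888) (gv δ 5 6) 201326592 :=
  lin_g h0 (by norm_num) (by norm_num) rfl rfl

lemma lin_g2 (h0 : δ 0 = 1) : Lin δ (gN 7280 7488) (gv δ 9 10) 201326592 :=
  lin_g h0 (by norm_num) (by norm_num) rfl rfl

lemma lin_Op (h0 : δ 0 = 1) : Lin δ cOp (ov δ - 6710886400) 40265318400 := by
  refine (((lin_g1 h0).add (lin_g2 h0)).smul 100).of ?_ ?_ (by norm_num)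
  · rw [const_chk.2.2.2.2.1]; push_cast; ring
  · unfold ov; push_cast; ring

lemma lin_O (h0 : δ 0 = 1) : Lin δ cO (ov δ) (2 ^ 37) := by
  refine ((lin_Op h0).add (Lin.nat h0 6710886400)).of ?_ ?_ (by norm_num)
  · rw [const_chk.2.2.2.2.2.1]; push_cast; ring
  · push_cast; ring

lemma lin_Sp (h0 : δ 0 = 1) : Lin δ cSp (ov δ - 3355443200) 43620761600 := by
  refine ((lin_Op h0).add (Lin.nat h0 3355443200)).of ?_ ?_ (by norm_num)
  · rw [const_chk.2.2.2.2.2.2.1]; push_cast; ring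
  · push_cast; ring

lemma lin_Sm (h0 : δ 0 = 1) : Lin δ cSm (ov δ - 10066329600) 43620761600 := by
  refine ((lin_Op h0).sub (Lin.nat h0 3355443200)).of ?_ ?_ (by norm_num)
  · rw [← const_chk.2.2.2.2.2.2.2.1]; push_cast; ring
  · push_cast; ring

lemma lin_C1 (h0 : δ 0 = 1) : Lin δ cC1 (ov δ - 6710886400 - 100 * gv δ 5 6) 20132659200 := by
  refine ((lin_g2 h0).smul 100).of ?_ ?_ (by norm_num)
  · rw [const_chk.2.2.1]; push_cast; ring
  · unfold ov; push_cast; ring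

lemma lin_C2 (h0 : δ 0 = 1) : Lin δ cC2 (ov δ - 6710886400 - 100 * gv δ 9 10) 20132659200 := by
  refine ((lin_g1 h0).smul 100).of ?_ ?_ (by norm_num)
  · rw [const_chk.2.2.2.1]; push_cast; ring
  · unfold ov; push_cast; ring

lemma lin_tF (h0 : δ 0 = 1) {i e C l h : ℕ} (hi : i < 11) (he : e = 104 * gol i) {X vC : ℝ}
    {nC : ℤ} (hC : Lin δ C vC nC) (hl : l ≤ h) (hh : h ≤ 13421772800)
    (hX : 2 * X = l + h + (h - l) * δ i) : Lin δ (tF e C l h) (2 * X + vC) (26843545600 + nC) := by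
  refine (((Lin.nat h0 (l + h)).add (lin_var δ hi he (h - l))).add hC).of ?_ ?_ ?_
  · simp only [tF, Nat.add_eq, Nat.sub_eq, Nat.shiftLeft_eq', Nat.shiftLeft_eq]
    push_cast; ring
  · rw [hX]; push_cast [hl]; ring
  · omega

end

lemma exists_par {l h : ℕ} {X : ℝ} (h1 : (l : ℝ) ≤ X) (h2 : X ≤ h) :
    ∃ d : ℝ, |d| ≤ 1 ∧ 2 * X = l + h + (h - l) * d := by
  rcases (h1.trans h2).eq_or_lt with e | e
  · exact ⟨0, by simp, by linarith⟩
  · have hp : (0 : ℝ) < h - l := by linarith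
    refine ⟨(2 * X - l - h) / (h - l), ?_, by field_simp; ring⟩
    rw [abs_le, le_div_iff₀ hp, div_le_iff₀ hp]
    constructor <;> linarith

/-- The checks made on a range of rotations. -/
structure ZOK (sl sh c1 c2 H : ℕ) : Prop where
  d1 : inD c1 sl = true
  d2 : inD c2 sh = true
  pos : 0 < H
  le : H ≤ 16777216
  err : zE c1 c2 (c1 + c2) (sh - sl) (sl + sh) ≤ 8 * (c1 - (c1 - c2)) * H

lemma zf3_spec {D c s : ℕ} {k : ℕ → ℕ → ℕ → ℕ → Bool} (h : zf3 D k c s = true) :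
    c ≤ D ∧ s ≤ D ∧ k c (D - c) s (D - s) = true := by
  simpa only [zf3, force_eq, brec, Nat.ble_eq, Nat.sub_eq] using h

lemma zf2_spec {e1 e2 D c1 c2 M R T E mn H : ℕ} {k : ℕ → ℕ → ℕ → ℕ → Bool}
    (h : zf2 e1 e2 D c1 c2 M R T k E mn H = true) :
    E ≤ mn * H ∧ H ≤ 16777216 ∧ zf3 D k (zC e1 e2 c1 c2 M H) (zS e1 e2 R T) = true := by
  simpa only [zf2, force_eq, brec, Nat.ble_eq, Nat.mul_eq] using h

lemma zf1_spec {e1 e2 D c1 c2 M R T : ℕ} {k : ℕ → ℕ → ℕ → ℕ → Bool}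
    (h : zf1 e1 e2 D c1 c2 k M R T = true) : ∃ n,
    zf2 e1 e2 D c1 c2 M R T k (zE c1 c2 M R T) (8 * (c1 - (c1 - c2))) (Nat.succ n) = true := by
  simp only [zf1, force_eq] at h
  exact ⟨_, h⟩

/-- The procedure `zf` with an arbitrary disc test. -/
noncomputable def zfG (I : ℕ → ℕ → Bool) (e1 e2 D sl sh c1 c2 : ℕ) (k : ℕ → ℕ → ℕ → ℕ → Bool) :
    Bool :=
  Bool.rec (motive := fun _ => Bool) false
    (Bool.rec (motive := fun _ => Bool) false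
      (force (Nat.add c1 c2) fun M => force (Nat.sub sh sl) fun R =>
        force (Nat.add sl sh) (zf1 e1 e2 D c1 c2 k M R))
      (I c2 sh)) (I c1 sl)

lemma zf_eq : zf = zfG inD := rfl

lemma zfG_spec {I : ℕ → ℕ → Bool} {e1 e2 D sl sh c1 c2 : ℕ} {k : ℕ → ℕ → ℕ → ℕ → Bool}
    (h : zfG I e1 e2 D sl sh c1 c2 k = true) : I c1 sl = true ∧ I c2 sh = true ∧
      zf1 e1 e2 D c1 c2 k (c1 + c2) (sh - sl) (sl + sh) = true := by
  simpa only [zfG, force_eq, brec, Nat.add_eq, Nat.sub_eq] using h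

lemma zf_spec {e1 e2 D sl sh c1 c2 : ℕ} {k : ℕ → ℕ → ℕ → ℕ → Bool}
    (h : zf e1 e2 D sl sh c1 c2 k = true) : ∃ H c s, ZOK sl sh c1 c2 H ∧
      c = zC e1 e2 c1 c2 (c1 + c2) H ∧ s = zS e1 e2 (sh - sl) (sl + sh) ∧ c ≤ D ∧ s ≤ D ∧
      k c (D - c) s (D - s) = true := by
  rw [zf_eq] at h
  obtain ⟨a1, a2, h1⟩ := zfG_spec h
  obtain ⟨n, h2⟩ := zf1_spec h1
  obtain ⟨a3, a4, h3⟩ := zf2_spec h2
  obtain ⟨a5, a6, a7⟩ := zf3_spec h3
  exact ⟨_, _, _, ⟨a1, a2, Nat.succ_pos _, a4, a3⟩, rfl, rfl, a5, a6, a7⟩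

lemma inD_cast {c s : ℕ} (h : inD c s = true) :
    (c : ℝ) ^ 2 + ((s : ℝ) - 11878400) ^ 2 ≤ 16777216 ^ 2 := by
  have h1 := ble_cast h
  simp only [Nat.add_eq, Nat.mul_eq] at h1
  rw [Nat.cast_add, sd_cast'] at h1
  push_cast at h1
  nlinarith

lemma inD_le {c s : ℕ} (h : inD c s = true) : c ≤ 16777216 ∧ s ≤ 33554432 := by
  have h1 := inD_cast h
  constructor
  · have : (c : ℝ) ≤ 16777216 := by
      refine (abs_le_of_sq_le_sq' ?_ (by norm_num)).2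
      nlinarith [sq_nonneg ((s : ℝ) - 11878400)]
    exact_mod_cast this
  · have : (s : ℝ) - 11878400 ≤ 16777216 := by
      refine (abs_le_of_sq_le_sq' ?_ (by norm_num)).2
      nlinarith [sq_nonneg (c : ℝ)]
    have : (s : ℝ) ≤ 33554432 := by linarith
    exact_mod_cast this

lemma sub_cast (a b : ℕ) : (a : ℝ) - b ≤ ((a - b : ℕ) : ℝ) := by
  rcases le_total a b with h | h
  · rw [Nat.sub_eq_zero_of_le h]
    have : (a : ℝ) ≤ b := by exact_mod_cast h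
    simpa using this
  · rw [Nat.cast_sub h]

lemma abs_cast (a b : ℕ) : |(a : ℝ) - b| ≤ ((a - b : ℕ) : ℝ) + ((b - a : ℕ) : ℝ) := by
  have h1 := sub_cast a b
  have h2 := sub_cast b a
  have h3 : (0 : ℝ) ≤ ((a - b : ℕ) : ℝ) := Nat.cast_nonneg _
  have h4 : (0 : ℝ) ≤ ((b - a : ℕ) : ℝ) := Nat.cast_nonneg _
  rw [abs_le]
  constructor <;> linarith

lemma chord {c1 c2 u1 u2 Z σ : ℝ} (h1 : c1 ^ 2 + u1 ^ 2 ≤ Z ^ 2) (h2 : c2 ^ 2 + u2 ^ 2 ≤ Z ^ 2)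
    (s1 : -1 ≤ σ) (s2 : σ ≤ 1) :
    (c1 + c2 + (c2 - c1) * σ) ^ 2 + (u1 + u2 + (u2 - u1) * σ) ^ 2 ≤ 4 * Z ^ 2 := by
  have a : 0 ≤ 1 - σ := by linarith
  have b : 0 ≤ 1 + σ := by linarith
  have := mul_nonneg (mul_nonneg a b) (add_nonneg (sq_nonneg (c1 - c2)) (sq_nonneg (u1 - u2)))
  nlinarith [mul_le_mul_of_nonneg_left h1 a, mul_le_mul_of_nonneg_left h2 b]

lemma sag {C q mn H E : ℝ} (hC : 0 ≤ C) (hm : 0 ≤ mn) (hq : 2 * mn ≤ q) (hH : 0 < H)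
    (h1 : q ^ 2 ≤ (2 * C) ^ 2) (h2 : (2 * C) ^ 2 - q ^ 2 ≤ E) (h3 : E ≤ 8 * mn * H) :
    ∃ κ : ℝ, |κ| ≤ 1 ∧ 2 * C = q + H * (1 + κ) := by
  have a1 : q ≤ 2 * C := (abs_le_of_sq_le_sq' h1 (by linarith)).2
  have a2 : 2 * C - q ≤ 2 * H := by
    by_contra hc
    push Not at hc
    have hs : 0 < 2 * C + q := by linarith
    have := mul_lt_mul_of_pos_right hc hs
    nlinarith
  refine ⟨(2 * C - q) / H - 1, ?_, by field_simp; ring⟩
  have b1 : 0 ≤ (2 * C - q) / H := div_nonneg (by linarith) hH.le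
  have b2 : (2 * C - q) / H ≤ 2 := by rw [div_le_iff₀ hH]; linarith
  rw [abs_le]
  constructor <;> linarith

lemma zf_real {sl sh c1 c2 H : ℕ} (h : ZOK sl sh c1 c2 H) {s C : ℝ} (h1 : (sl : ℝ) ≤ s)
    (h2 : s ≤ sh) (hC : 0 ≤ C) (hz : C ^ 2 + (s - 11878400) ^ 2 = 16777216 ^ 2) :
    ∃ σ κ : ℝ, |σ| ≤ 1 ∧ |κ| ≤ 1 ∧ 2 * s = sl + sh + (sh - sl) * σ ∧
      2 * C = c1 + c2 + (c2 - c1) * σ + H * (1 + κ) := by
  obtain ⟨σ, s1, s2⟩ := exists_par h1 h2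
  have hl : sl ≤ sh := by exact_mod_cast h1.trans h2
  obtain ⟨t1, t2⟩ := abs_le.1 s1
  have ch := chord (inD_cast h.d1) (inD_cast h.d2) t1 t2
  have eu : (sl : ℝ) - 11878400 + (sh - 11878400) + (sh - 11878400 - (sl - 11878400)) * σ =
      2 * (s - 11878400) := by linarith
  rw [eu] at ch
  have he : ((zE c1 c2 (c1 + c2) (sh - sl) (sl + sh) : ℕ) : ℝ) ≤
      8 * ((c1 - (c1 - c2) : ℕ) : ℝ) * H := by exact_mod_cast h.err
  have m1 : ((c1 - (c1 - c2) : ℕ) : ℝ) ≤ c1 := by exact_mod_cast Nat.sub_le _ _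
  have m2 : ((c1 - (c1 - c2) : ℕ) : ℝ) ≤ c2 := by
    have : c1 - (c1 - c2) ≤ c2 := by omega
    exact_mod_cast this
  have hH : (0 : ℝ) < H := by exact_mod_cast h.pos
  have hq : 2 * ((c1 - (c1 - c2) : ℕ) : ℝ) ≤ c1 + c2 + (c2 - c1) * σ := by
    nlinarith [mul_le_mul_of_nonneg_right m1 (show 0 ≤ 1 - σ by linarith),
      mul_le_mul_of_nonneg_right m2 (show 0 ≤ 1 + σ by linarith)]
  have hE : (2 * C) ^ 2 - ((c1 : ℝ) + c2 + (c2 - c1) * σ) ^ 2 ≤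
      ((zE c1 c2 (c1 + c2) (sh - sl) (sl + sh) : ℕ) : ℝ) := by
    simp only [zE, Nat.add_eq, Nat.mul_eq, Nat.sub_eq]
    have a1 := sub_cast 1125899906842624 ((c1 + c2) * (c1 + c2) + sd (sl + sh) 23756800)
    have a2 := abs_cast ((c1 + c2) * c2 + (sl + sh) * (sh - sl))
      ((c1 + c2) * c1 + 23756800 * (sh - sl))
    rw [Nat.cast_add, sd_cast'] at a1
    rw [Nat.cast_add, Nat.cast_mul, Nat.cast_add]
    generalize ((1125899906842624 - ((c1 + c2) * (c1 + c2) + sd (sl + sh) 23756800) : ℕ) : ℝ) = A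
      at a1 ⊢
    generalize (((c1 + c2) * c2 + (sl + sh) * (sh - sl) -
      ((c1 + c2) * c1 + 23756800 * (sh - sl)) : ℕ) : ℝ) = B1 at a2 ⊢
    generalize (((c1 + c2) * c1 + 23756800 * (sh - sl) -
      ((c1 + c2) * c2 + (sl + sh) * (sh - sl)) : ℕ) : ℝ) = B2 at a2 ⊢
    push_cast [hl] at a1 a2 ⊢
    have a3 : -(σ * (((c1 : ℝ) + c2) * c2 + (sl + sh) * (sh - sl) -
        ((c1 + c2) * c1 + 23756800 * (sh - sl)))) ≤ B1 + B2 := by
      refine (neg_le_abs _).trans ?_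
      rw [abs_mul]
      exact (mul_le_of_le_one_left (abs_nonneg _) s1).trans a2
    have e2 : (2 * C) ^ 2 = 4 * 16777216 ^ 2 - (sl + sh - 23756800 + (sh - sl) * σ) ^ 2 := by
      have : (sl : ℝ) + sh - 23756800 + (sh - sl) * σ = 2 * (s - 11878400) := by linarith
      rw [this]; linarith
    rw [e2]
    nlinarith [sq_nonneg (((c2 : ℝ) - c1) * σ), sq_nonneg (((sh : ℝ) - sl) * σ)]
  obtain ⟨κ, k1, k2⟩ := sag (C := C) (q := c1 + c2 + (c2 - c1) * σ) hC (Nat.cast_nonneg _) hq hH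
    (by nlinarith) hE he
  exact ⟨σ, κ, s1, k1, s2, k2⟩

section
variable {δ : ℕ → ℝ}

lemma lin_zC (h0 : δ 0 = 1) {i j e1 e2 sl sh c1 c2 H : ℕ} (hi : i < 11) (hj : j < 11)
    (h1 : e1 = 104 * gol i) (h2 : e2 = 104 * gol j) (h : ZOK sl sh c1 c2 H) {C : ℝ}
    (hC : 2 * C = c1 + c2 + (c2 - c1) * δ i + H * (1 + δ j)) :
    Lin δ (zC e1 e2 c1 c2 (c1 + c2) H) (2 * C + gv δ i j) 285212672 := by
  have b1 := (inD_le h.d1).1
  have b2 := (inD_le h.d2).1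
  have b3 := h.le
  refine (((Lin.nat h0 (c1 + c2 + H + 67108864)).add (lin_var δ hi h1 (67108864 + c2 - c1))).add
    (lin_var δ hj h2 (67108864 + H))).of ?_ ?_ ?_
  · simp only [zC, Nat.add_eq, Nat.sub_eq, Nat.shiftLeft_eq', Nat.shiftLeft_eq]
    push_cast; ring
  · rw [hC, gv, Nat.cast_sub (by omega)]; push_cast; ring
  · omega

lemma lin_zS (h0 : δ 0 = 1) {i j e1 e2 sl sh c1 c2 H : ℕ} (hi : i < 11) (hj : j < 11)
    (h1 : e1 = 104 * gol i) (h2 : e2 = 104 * gol j) (h : ZOK sl sh c1 c2 H) {s : ℝ}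
    (hl : sl ≤ sh) (hs : 2 * s = sl + sh + (sh - sl) * δ i) :
    Lin δ (zS e1 e2 (sh - sl) (sl + sh)) (2 * (s - 11878400) + gv δ i j) 285212672 := by
  have b1 := (inD_le h.d1).2
  have b2 := (inD_le h.d2).2
  refine (((Lin.nat h0 (sl + sh + 43352064)).add (lin_var δ hi h1 (67108864 + (sh - sl)))).add
    (lin_var δ hj h2 67108864)).of ?_ ?_ ?_
  · simp only [zS, Nat.add_eq, Nat.shiftLeft_eq', Nat.shiftLeft_eq]
    push_cast; ring
  · rw [mul_sub, hs, gv]; push_cast [hl]; ring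
  · omega

lemma lin_neg {g c : ℕ} {vg v : ℝ} (hg : Lin δ g vg 201326592) (hc : Lin δ c (v + vg) 285212672)
    (hl : c ≤ 2 * g) : Lin δ ((2 * g - c : ℕ) : ℤ) (-v + vg) 687865856 := by
  refine ((hg.smul 2).sub hc).of ?_ ?_ (by norm_num)
  · push_cast [hl]; ring
  · push_cast; ring

lemma lin_cmb {X u w a b : ℕ} {vX vu vw vg o : ℝ} (hab : a + b = 100)
    (hX : Lin δ X (vX + (o - 100 * vg)) 46976204800) (hu : Lin δ u (vu + vg) 687865856)
    (hw : Lin δ w (vw + vg) 687865856) :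
    Lin δ (cmb X u a w b) (vX + vu * a + vw * b + o) (2 ^ 37) := by
  refine (hX.add ((hu.smul a).add (hw.smul b))).of ?_ ?_ ?_
  · simp only [cmb, Nat.add_eq, Nat.mul_eq]
    push_cast; ring
  · have : (a : ℝ) + b = 100 := by exact_mod_cast hab
    linear_combination (-vg) * this
  · omega

end

/-- A vertex of a placed rectangle. -/
def rv (X Y C s a b : ℝ) : ℂ :=
  ⟨2 * X - 6710886400 + 2 * (C * a - (s - 11878400) * b),
    2 * Y - 6710886400 + 2 * ((s - 11878400) * a + C * b)⟩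

/-- The packed list `l` describes the points `q j, q (j + 1), ...`. -/
def LOK (δ : ℕ → ℝ) (q : ℕ → ℂ) : ℕ → List (ℕ × ℕ) → Prop
  | _, [] => True
  | j, p :: l => j < 10 ∧ Lin δ p.1 ((q j).re + ov δ) (2 ^ 37) ∧
      Lin δ p.2 ((q j).im + ov δ) (2 ^ 37) ∧ LOK δ q (j + 1) l

lemma quad_ok {δ : ℕ → ℝ} {q : ℕ → ℂ} {j a b X Y c c' s s' : ℕ} {l : List (ℕ × ℕ)}
    {x y C t vg : ℝ} (hab : a + b = 100) (hj : j + 3 < 10)
    (hX : Lin δ X (2 * x + (ov δ - 6710886400 - 100 * vg)) 46976204800)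
    (hY : Lin δ Y (2 * y + (ov δ - 6710886400 - 100 * vg)) 46976204800)
    (hc : Lin δ c (2 * C + vg) 285212672) (hc' : Lin δ c' (-(2 * C) + vg) 687865856)
    (hs : Lin δ s (2 * (t - 11878400) + vg) 285212672)
    (hs' : Lin δ s' (-(2 * (t - 11878400)) + vg) 687865856)
    (q0 : q j = rv x y C t a b) (q1 : q (j + 1) = rv x y C t (-a) b)
    (q2 : q (j + 2) = rv x y C t (-a) (-b)) (q3 : q (j + 3) = rv x y C t a (-b))
    (hl : LOK δ q (j + 4) l) : LOK δ q j (quad a b X Y c c' s s' l) := by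
  have hX' : Lin δ X (2 * x - 6710886400 + (ov δ - 100 * vg)) 46976204800 :=
    hX.of rfl (by ring) le_rfl
  have hY' : Lin δ Y (2 * y - 6710886400 + (ov δ - 100 * vg)) 46976204800 :=
    hY.of rfl (by ring) le_rfl
  have hc2 : Lin δ c (2 * C + vg) 687865856 := hc.of rfl rfl (by norm_num)
  have hs2 : Lin δ s (2 * (t - 11878400) + vg) 687865856 := hs.of rfl rfl (by norm_num)
  refine ⟨by omega, (lin_cmb hab hX' hc2 hs').of rfl ?_ le_rfl,
    (lin_cmb hab hY' hs2 hc2).of rfl ?_ le_rfl, by omega,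
    (lin_cmb hab hX' hc' hs').of rfl ?_ le_rfl, (lin_cmb hab hY' hs' hc2).of rfl ?_ le_rfl,
    by omega, (lin_cmb hab hX' hc' hs2).of rfl ?_ le_rfl,
    (lin_cmb hab hY' hs' hc').of rfl ?_ le_rfl, by omega,
    (lin_cmb hab hX' hc2 hs2).of rfl ?_ le_rfl, (lin_cmb hab hY' hs2 hc').of rfl ?_ le_rfl, hl⟩ <;>
  simp only [q0, q1, q2, q3, rv] <;> ring

lemma nu_rep {δ m : ℕ → ℝ} (hm : MOK δ m) {P N nu g c c' s s' : ℕ} {C t vg v : ℝ} {n : ℤ}
    (hg : Lin δ g vg 201326592)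
    (hc : Lin δ c (2 * C + vg) 285212672) (hc' : Lin δ c' (-(2 * C) + vg) 687865856)
    (hs : Lin δ s (2 * t + vg) 285212672) (hs' : Lin δ s' (-(2 * t) + vg) 687865856)
    (hz : C ^ 2 + t ^ 2 = 16777216 ^ 2) (hnu : nu ≤ 4294967295)
    (h : Rep m ((P : ℤ) - N) v n) :
    Rep m (((Nat.add P (nuP nu c c' s s') : ℕ) : ℤ) - (Nat.add N (Nat.mul nu (2 * (g * g))) : ℕ))
      v (n + 2 ^ 91) := by
  refine (h.add (((((hc.mul hm hc').add (hs.mul hm hs')).add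
    ((Lin.nat hm.one 1125899906842624).rep hm)).sub ((hg.mul hm hg).smul 2)).smul nu)).of ?_ ?_ ?_
  · simp only [nuP, Nat.add_eq, Nat.mul_eq]
    push_cast; ring
  · push_cast
    linear_combination (4 * nu) * hz
  · omega

end Pool.Agent.Lib.MP_4662c0_co.Low
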