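import Pool.Agent.Lib.MP_4662c0_co.LCurve
import Pool.Agent.Lib.MP_4662c0_co.L.Top

set_option autoImplicit false

/-! The lower bound. -/

namespace Pool.Agent.Lib.MP_4662c0_co.Low

open Set Real MeasureTheory

/-- The area of `K` reaches the threshold. -/
def Big (K : Set ℂ) : Prop := (L.thr : ℝ) ≤ 65535 * (2 * (volume K).toReal)

lemma H4.neg {K : Set ℂ} {t z : ℂ} {a b : ℝ} (h : H4 K t z a b) : H4 K t (-z) a b := by
  obtain ⟨h1, h2, h3, h4⟩ := h
  refine ⟨?_, ?_, ?_, ?_⟩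
  · convert h3 using 2; apply Complex.ext <;> simp <;> ring
  · convert h4 using 2; apply Complex.ext <;> simp <;> ring
  · convert h1 using 2; apply Complex.ext <;> simp <;> ring
  · convert h2 using 2; apply Complex.ext <;> simp <;> ring

lemma H4.rot {K : Set ℂ} {t z : ℂ} {a b : ℝ} (h : H4 K t z a b) :
    H4 K t (Complex.I * z) b a := by
  obtain ⟨h1, h2, h3, h4⟩ := h
  refine ⟨?_, ?_, ?_, ?_⟩
  · convert h2 using 2; apply Complex.ext <;> simp <;> ring
  · convert h3 using 2; apply Complex.ext <;> simp <;> ring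
  · convert h4 using 2; apply Complex.ext <;> simp <;> ring
  · convert h1 using 2; apply Complex.ext <;> simp <;> ring

lemma H4.mid {K : Set ℂ} (hK : Convex ℝ K) {t z : ℂ} {a b : ℝ} (h : H4 K t z a b) : t ∈ K := by
  have e : t = (1 / 2 : ℝ) • (t + z * ⟨a, b⟩) + (1 / 2 : ℝ) • (t + z * ⟨-a, -b⟩) := by
    apply Complex.ext <;> simp <;> ring
  rw [e]
  exact hK h.1 h.2.2.1 (by norm_num) (by norm_num) (by norm_num)

lemma Has.chart {K : Set ℂ} {a b : ℝ} (h : Has K a b) :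
    ∃ t z : ℂ, ‖z‖ = 1 ∧ |z.im| ≤ z.re ∧ (H4 K t z a b ∨ H4 K t z b a) := by
  obtain ⟨t, z, hz, h⟩ := h
  have n1 : ‖-z‖ = 1 := by rwa [norm_neg]
  have n2 : ‖Complex.I * z‖ = 1 := by rw [norm_mul, Complex.norm_I, hz, one_mul]
  have n3 : ‖-(Complex.I * z)‖ = 1 := by rwa [norm_neg]
  rcases le_total |z.im| |z.re| with c | c
  · rcases le_total 0 z.re with d | d
    · exact ⟨t, z, hz, by rwa [abs_of_nonneg d] at c, Or.inl h⟩
    · exact ⟨t, -z, n1, by simpa [abs_of_nonpos d] using c, Or.inl h.neg⟩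
  · rcases le_total 0 z.im with d | d
    · exact ⟨t, -(Complex.I * z), n3, by simpa [abs_of_nonneg d] using c, Or.inr h.rot.neg⟩
    · exact ⟨t, Complex.I * z, n2, by simpa [abs_of_nonpos d] using c, Or.inr h.rot⟩

lemma near {K : Set ℂ} (hK : Good K) (hn : ¬Big K) {t : ℂ} (ht : t ∈ K) :
    |t.re| ≤ 6710886400 ∧ |t.im| ≤ 6710886400 := by
  have h := far hK.conv (by norm_num) hK.ball hK.fin ht
  have h1 : ‖t‖ ≤ 6710886400 := by
    by_contra hc
    apply hn
    have : (L.thr : ℝ) = 2401286715252646304808960 := by norm_num [L.thr]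
    unfold Big
    rw [this]
    linarith [not_le.1 hc]
  exact ⟨(Complex.abs_re_le_norm t).trans h1, (Complex.abs_im_le_norm t).trans h1⟩

/-- The box of all placements. -/
def root : Ob := ⟨0, 6710886400, 0, 6710886400, 0, 23756800, 11848146, 11848146⟩

lemma H4.rin {K : Set ℂ} (hK : Good K) (hn : ¬Big K) {t z : ℂ} {a b : ℝ} (hz : ‖z‖ = 1)
    (hc : |z.im| ≤ z.re) (h : H4 K t z (33554432 * a) (33554432 * b)) :
    ∃ X Y C s, In root X Y s ∧ RIn K a b X Y C s := by
  obtain ⟨n1, n2⟩ := near hK hn (h.mid hK.conv)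
  obtain ⟨a1, a2⟩ := abs_le.1 n1
  obtain ⟨a3, a4⟩ := abs_le.1 n2
  have hs := norm_sq_eq z
  rw [hz] at hs
  have hi : |z.im| ≤ 725 / 1024 := by
    refine abs_le.2 (abs_le_of_sq_le_sq' ?_ (by norm_num))
    have := sq_le_sq' (by linarith [abs_nonneg z.im]) hc
    rw [sq_abs] at this
    nlinarith
  obtain ⟨a5, a6⟩ := abs_le.1 hi
  have e : ∀ x y : ℝ, rv ((t.re + 6710886400) / 2) ((t.im + 6710886400) / 2) (16777216 * z.re)
      (11878400 + 16777216 * z.im) x y = t + z * ⟨33554432 * x, 33554432 * y⟩ := by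
    intro x y
    apply Complex.ext <;> simp [rv] <;> ring
  refine ⟨(t.re + 6710886400) / 2, (t.im + 6710886400) / 2, 16777216 * z.re,
    11878400 + 16777216 * z.im, ?_, ?_, by nlinarith, ?_⟩
  · simp only [In, root]
    push_cast
    refine ⟨?_, ?_, ?_, ?_, ?_, ?_⟩ <;> linarith
  · have := (abs_nonneg _).trans hc
    positivity
  · simp only [e, mul_neg]
    exact h

/-- The rectangle and the square. -/
def Two (K : Set ℂ) : Prop :=
  Has K (33554432 * 29) (33554432 * 71) ∧ Has K (33554432 * 50) (33554432 * 50)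

/-- The horizontal segment. -/
def Seg (K : Set ℂ) (t : ℂ) : Prop := t + 3355443200 ∈ K ∧ t - 3355443200 ∈ K

lemma main0 {K : Set ℂ} (hK : Good K) (h : Two K) {t : ℂ} (hs : Seg K t) (h1 : 0 ≤ t.re)
    (h2 : 0 ≤ t.im) : Big K := by
  by_contra hn
  have ht : t ∈ K := by
    have e : t = (1 / 2 : ℝ) • (t + 3355443200) + (1 / 2 : ℝ) • (t - 3355443200) := by
      apply Complex.ext <;> simp <;> ring
    rw [e]
    exact hK.conv hs.1 hs.2 (by norm_num) (by norm_num) (by norm_num)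
  obtain ⟨n1, n2⟩ := near hK hn ht
  have I0 : In ⟨3355443200, 6710886400, 3355443200, 6710886400, 0, 23756800, 11848146, 11848146⟩
      ((t.re + 6710886400) / 2) ((t.im + 6710886400) / 2) 0 := by
    simp only [In]
    push_cast
    refine ⟨?_, ?_, ?_, ?_, ?_, ?_⟩ <;> linarith [abs_le.1 n1, abs_le.1 n2]
  have S0 : SIn K ((t.re + 6710886400) / 2) ((t.im + 6710886400) / 2) := by
    constructor
    · convert hs.1 using 1
      apply Complex.ext <;> simp <;> ring
    · convert hs.2 using 1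
      apply Complex.ext <;> simp <;> ring
  obtain ⟨t2, z2, a1, a2, a3⟩ := h.2.chart
  obtain ⟨X2, Y2, C2, s2, I2, R2⟩ := H4.rin hK hn a1 a2 (or_self_iff.1 a3)
  obtain ⟨t1, z1, b1, b2, b3⟩ := h.1.chart
  rcases b3 with b3 | b3
  · obtain ⟨X1, Y1, C1, s1, I1, R1⟩ := H4.rin hK hn b1 b2 b3
    exact hn (L.top0 rfl K hK _ _ _ X1 Y1 C1 s1 X2 Y2 C2 s2 I0 I1 I2 S0 (by exact_mod_cast R1) R2)
  · obtain ⟨X1, Y1, C1, s1, I1, R1⟩ := H4.rin hK hn b1 b2 b3
    exact hn (L.top1 rfl K hK _ _ _ X1 Y1 C1 s1 X2 Y2 C2 s2 I0 I1 I2 S0 (by exact_mod_cast R1) R2)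

lemma vol_iso {K : Set ℂ} (hK : Convex ℝ K) (e : ℂ ≃ₗᵢ[ℝ] ℂ) : volume (e ⁻¹' K) = volume K :=
  e.measurePreserving.measure_preimage (hK.nullMeasurableSet volume)

lemma Good.iso {K : Set ℂ} (hK : Good K) (e : ℂ ≃ₗᵢ[ℝ] ℂ) : Good (e ⁻¹' K) := by
  refine ⟨hK.conv.linear_preimage e.toLinearEquiv.toLinearMap, fun z hz => hK.ball ?_, ?_⟩
  · rwa [mem_closedBall_zero_iff, e.norm_map, ← mem_closedBall_zero_iff]
  · rw [vol_iso hK.conv]; exact hK.fin

lemma Big.iso {K : Set ℂ} (hK : Good K) (e : ℂ ≃ₗᵢ[ℝ] ℂ) (h : Big (e ⁻¹' K)) : Big K := by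
  unfold Big at h ⊢
  rwa [vol_iso hK.conv] at h

lemma Has.conj {K : Set ℂ} {a b : ℝ} (h : Has K a b) : Has (Complex.conjLIE ⁻¹' K) a b := by
  obtain ⟨t, z, hz, h1, h2, h3, h4⟩ := h
  have e : ∀ x y : ℝ, Complex.conjLIE ((starRingEnd ℂ) t + (starRingEnd ℂ) z * ⟨x, y⟩) =
      t + z * ⟨x, -y⟩ := by
    intro x y
    apply Complex.ext <;> simp
  refine ⟨(starRingEnd ℂ) t, (starRingEnd ℂ) z, by rwa [Complex.norm_conj], ?_⟩
  simp only [H4, mem_preimage, e, neg_neg]
  exact ⟨h4, h3, h2, h1⟩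

lemma H4.turn {K : Set ℂ} {t z : ℂ} {a b : ℝ} (h : H4 K t z a b) (u : Circle) :
    H4 (rotation u ⁻¹' K) (t / u) (z / u) a b := by
  have hu := u.coe_ne_zero
  have e : ∀ w : ℂ, rotation u (t / u + z / u * w) = t + z * w := by
    intro w
    rw [rotation_apply]
    field_simp
  simpa only [H4, mem_preimage, e] using h

lemma Has.turn {K : Set ℂ} {a b : ℝ} (h : Has K a b) (u : Circle) :
    Has (rotation u ⁻¹' K) a b := by
  obtain ⟨t, z, hz, h⟩ := h
  exact ⟨_, _, by rw [norm_div, hz, u.norm_coe, div_one], h.turn u⟩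

lemma main1 {K : Set ℂ} (hK : Good K) (h : Two K) {t : ℂ} (hs : Seg K t) (h1 : 0 ≤ t.re) :
    Big K := by
  rcases le_total 0 t.im with h2 | h2
  · exact main0 hK h hs h1 h2
  · refine Big.iso hK Complex.conjLIE (main0 (t := (starRingEnd ℂ) t) (hK.iso _)
      ⟨h.1.conj, h.2.conj⟩ ⟨?_, ?_⟩ (by simpa using h1) (by simpa using h2))
    · rw [mem_preimage]
      convert hs.1 using 1
      apply Complex.ext <;> simp
    · rw [mem_preimage]
      convert hs.2 using 1
      apply Complex.ext <;> simp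

lemma main2 {K : Set ℂ} (hK : Good K) (h : Two K) {t z : ℂ} (hz : ‖z‖ = 1)
    (hs : H4 K t z 3355443200 0) (h1 : 0 ≤ (t / z).re) : Big K := by
  obtain ⟨u, rfl⟩ : ∃ u : Circle, (u : ℂ) = z := ⟨⟨z, by simpa [Submonoid.unitSphere] using hz⟩, rfl⟩
  have h2 := hs.turn u
  rw [div_self u.coe_ne_zero] at h2
  refine Big.iso hK (rotation u) (main1 (hK.iso _) ⟨h.1.turn u, h.2.turn u⟩ ⟨?_, ?_⟩ h1)
  · convert h2.1 using 2
    apply Complex.ext <;> simp
  · convert h2.2.1 using 1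
    apply Complex.ext <;> simp [sub_eq_add_neg]

lemma main3 {K : Set ℂ} (hK : Good K) (h : Two K) (hs : Has K 3355443200 0) : Big K := by
  obtain ⟨t, z, hz, hs⟩ := hs
  rcases le_total 0 (t / z).re with h1 | h1
  · exact main2 hK h hz hs h1
  · refine main2 hK h (by rwa [norm_neg]) hs.neg ?_
    rw [div_neg, Complex.neg_re]
    linarith

lemma Has.scale {K : Set ℂ} {a b : ℝ} (h : Has K a b) (c : ℂ) :
    Has ((fun w : ℂ => (13421772800 : ℝ)⁻¹ • w) ⁻¹' ((fun w => c + w) ⁻¹' K))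
      (13421772800 * a) (13421772800 * b) := by
  obtain ⟨t, z, hz, h⟩ := h
  have e : ∀ x y : ℝ, c + (13421772800 : ℝ)⁻¹ • ((13421772800 : ℝ) • (t - c) +
      z * ⟨13421772800 * x, 13421772800 * y⟩) = t + z * ⟨x, y⟩ := by
    intro x y
    apply Complex.ext <;> simp <;> ring
  refine ⟨(13421772800 : ℝ) • (t - c), z, hz, ?_⟩
  simpa only [H4, mem_preimage, ← mul_neg, e] using h

theorem lower {K : Set ℂ} (hK : Convex ℝ K) (hc : Covers K) :
    ENNReal.ofReal 0.1017 ≤ volume K := by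
  by_cases hf : volume K = ⊤
  · rw [hf]; exact le_top
  obtain ⟨c, hB⟩ := hc.disc hK (r := 2136140907 / 13421772800) (by norm_num)
    (by linarith [pi_lt_d6])
  have hv : volume ((fun w : ℂ => (13421772800 : ℝ)⁻¹ • w) ⁻¹' ((fun w => c + w) ⁻¹' K)) =
      ENNReal.ofReal (13421772800 ^ 2) * volume K := by
    rw [Measure.addHaar_preimage_smul _ (by norm_num), measure_preimage_add,
      Complex.finrank_real_complex]
    norm_num
  have hG : Good ((fun w : ℂ => (13421772800 : ℝ)⁻¹ • w) ⁻¹' ((fun w => c + w) ⁻¹' K)) := by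
    refine ⟨(hK.translate_preimage_right c).smul_preimage _, fun z hz => hB ?_, ?_⟩
    · rw [mem_closedBall_zero_iff] at hz
      rw [mem_closedBall_iff_norm, add_sub_cancel_left, norm_smul, Real.norm_of_nonneg
        (by norm_num)]
      linarith
    · rw [hv]
      exact ENNReal.mul_ne_top ENNReal.ofReal_ne_top hf
  have h1 := (hc.has hK (a := 29 / 400) (b := 71 / 400) (by norm_num) (by norm_num)
    (by norm_num)).scale c
  have h2 := (hc.has hK (a := 50 / 400) (b := 50 / 400) (by norm_num) (by norm_num)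
    (by norm_num)).scale c
  have h3 := (hc.has hK (a := 1 / 4) (b := 0) (by norm_num) (by norm_num) (by norm_num)).scale c
  have hb := main3 hG ⟨by convert h1 using 1 <;> norm_num, by convert h2 using 1 <;> norm_num⟩
    (by convert h3 using 1 <;> norm_num)
  unfold Big at hb
  rw [hv, ENNReal.toReal_mul, ENNReal.toReal_ofReal (by norm_num),
    show (L.thr : ℝ) = 2401286715252646304808960 by norm_num [L.thr]] at hb
  refine (ENNReal.ofReal_le_iff_le_toReal hf).2 ?_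
  linarith

end Pool.Agent.Lib.MP_4662c0_co.Low
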