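import Pool.Agent.Lib.MP_4662c0_co.Prog
import Pool.Agent.Lib.MP_4662c0_co.LConst

set_option autoImplicit false

/-! The lower bound checker: programs only. -/

namespace Pool.Agent.Lib.MP_4662c0_co.Low

/-- A box of placements: two translation ranges, a sine range and two cosine hints. -/
structure Ob where
  xl : ℕ
  xh : ℕ
  yl : ℕ
  yh : ℕ
  sl : ℕ
  sh : ℕ
  c1 : ℕ
  c2 : ℕ

/-- A vertex: packed coordinates, bracket of its direction, marker position. -/
structure Vx where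
  x : ℕ
  y : ℕ
  lo : ℕ
  hi : ℕ
  sh : ℕ

def lbX (one x : ℕ) : ℕ :=
  Nat.land x (Nat.mul (Nat.land (Nat.shiftRight x (nat_lit 103)) one) (nat_lit 4951760157141521099596496895))

def lbC (P N thr ya yb yn : ℕ) : Bool :=
  Bool.rec (motive := fun _ => Bool) false
    (Nat.ble (Nat.add thr (Nat.mod (Nat.add ya yn) (nat_lit 20282409603651670423947251286015)))
      (Nat.mod yb (nat_lit 20282409603651670423947251286016)))
    (Nat.beq (Nat.add P yn) (Nat.add N (Nat.add ya yb)))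

noncomputable def lbB (P N thr yp : ℕ) : Bool :=
  force (Nat.land yp cMns) fun ya => force (Nat.land yp cMsq) fun yb =>
    force (Nat.land (Nat.sub (Nat.add N (Nat.add ya yb)) P) cMall) (lbC P N thr ya yb)

/-- The packed form `P - N` is at least `thr`. -/
noncomputable def lowb (off one P N thr : ℕ) : Bool :=
  force (Nat.sub (Nat.add P off) N) fun x => force (lbX one x) (lbB P N thr)

def dX (k : ℕ) : ℕ := Nat.sub (Nat.sub k (Nat.sub k (nat_lit 1024))) (Nat.sub k (nat_lit 2048))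

def dY (k : ℕ) : ℕ :=
  Nat.sub (Nat.sub (Nat.sub k (nat_lit 1024)) (Nat.sub k (nat_lit 2048))) (Nat.sub k (nat_lit 3072))

def bP (dx dy x y : ℕ) : ℕ := Nat.add (Nat.add (Nat.mul dx y) (Nat.mul (nat_lit 512) x)) (Nat.mul dy cO)

noncomputable def brL2 (x y dx dy : ℕ) : Bool :=
  force (bP dx dy x y) fun P => force (bP dy dx y x) fun N => lowb cOff1 cOne1 P N (nat_lit 1)

noncomputable def brH2 (x y dx dy : ℕ) : Bool :=
  force (bP dy dx y x) fun P => force (bP dx dy x y) fun N => lowb cOff1 cOne1 P N (nat_lit 1)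

noncomputable def brL (x y k : ℕ) : Bool :=
  force (Nat.land k (nat_lit 4095)) fun k => force (dX k) fun dx => force (dY k) (brL2 x y dx)

noncomputable def brH (x y k : ℕ) : Bool :=
  force (Nat.land k (nat_lit 4095)) fun k => force (dX k) fun dx => force (dY k) (brH2 x y dx)

noncomputable def mkV2 (top sh : ℕ) (k : Vx → Bool) (x y lo hi : ℕ) : Bool :=
  Bool.rec (motive := fun _ => Bool) false
    (Bool.rec (motive := fun _ => Bool) false
      (Bool.rec (motive := fun _ => Bool) false (k ⟨x, y, lo, hi, sh⟩) (brH x y hi)) (brL x y lo))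
    (Nat.ble hi top)

noncomputable def mkV1 (base top x y sh : ℕ) (k : Vx → Bool) (f : ℕ) : Bool :=
  force x fun x => force y fun y => force (Nat.add base (Nat.land f (nat_lit 4095))) fun lo =>
    force (Nat.add lo (Nat.shiftRight f (nat_lit 12))) (mkV2 top sh k x y lo)

noncomputable def mkV (base top x y sh : ℕ) (k : Vx → Bool) (f : ℕ) : Bool :=
  Nat.rec (motive := fun _ => Bool) (k ⟨x, y, base, top, sh⟩)
    (fun n _ => mkV1 base top x y sh k (Nat.succ n)) f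

noncomputable def bldS (base top : ℕ) (p : ℕ × ℕ) (ih : ℕ → ℕ → List Vx → Bool) (Y sh : ℕ)
    (acc : List Vx) : Bool :=
  mkV base top p.1 p.2 sh (fun v => force (Nat.shiftRight Y (nat_lit 24)) fun Y' =>
    force (Nat.add sh (nat_lit 104)) fun sh' => ih Y' sh' (v :: acc)) (Nat.land Y (nat_lit 16777215))

noncomputable def bld (base top : ℕ) (k : ℕ → List Vx → Bool) (l : List (ℕ × ℕ)) :
    ℕ → ℕ → List Vx → Bool :=
  List.rec (motive := fun _ => ℕ → ℕ → List Vx → Bool) (fun Y _ acc => k Y acc)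
    (fun p _ ih => bldS base top p ih) l

noncomputable def get (k : ℕ → ℕ → ℕ → ℕ → ℕ → Bool) (l : List Vx) : ℕ → Bool :=
  List.rec (motive := fun _ => ℕ → Bool) (fun _ => false)
    (fun v _ ih n => Nat.rec (motive := fun _ => Bool)
      (Vx.rec (motive := fun _ => Bool) k v) (fun m _ => ih m) n) l

noncomputable def ww2 (ih : ℕ → ℕ → ℕ → ℕ → Bool) (P N pool cur mu x y hi sh x' y' lo' : ℕ)
    (_hi' sh' : ℕ) : Bool :=
  Bool.rec (motive := fun _ => Bool) false
    (force (Nat.add P (Nat.add (Nat.mul (Nat.mul mu x) y') (Nat.shiftLeft mu sh'))) fun P' =>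
      force (Nat.add N (Nat.add (Nat.mul (Nat.mul mu y) x') (Nat.shiftLeft mu sh))) fun N' =>
        ih P' N' pool cur)
    (Nat.ble hi lo')

def tA (x a b : ℕ) : ℕ := Nat.add (Nat.mul b x) (Nat.mul a cO)

def tB (y a b mu s sh : ℕ) : ℕ :=
  Nat.add (Nat.add (Nat.mul a y) (Nat.mul b cO)) (Nat.add (Nat.mul mu s) (Nat.shiftLeft mu sh))

noncomputable def ent (ih : ℕ → ℕ → ℕ → ℕ → Bool) (P N pool mu x y hi sh k s a b : ℕ) : Bool :=
  Bool.rec (motive := fun _ => Bool) false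
    (force (Nat.add P (tA x a b)) fun P' => force (Nat.add N (tB y a b mu s sh)) fun N' =>
      force (Nat.add pool mu) fun pool' => ih P' N' pool' k)
    (Nat.ble hi (Nat.mul (nat_lit 16) k))

noncomputable def ext (ih : ℕ → ℕ → ℕ → ℕ → Bool) (P N pool mu x y lo sh k s a b : ℕ) : Bool :=
  Bool.rec (motive := fun _ => Bool) false
    (Bool.rec (motive := fun _ => Bool) false
      (force (Nat.add P (tB y a b mu s sh)) fun P' => force (Nat.add N (tA x a b)) fun N' =>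
        force (Nat.sub pool mu) fun pool' => ih P' N' pool' k)
      (Nat.ble mu pool))
    (Nat.ble (Nat.mul (nat_lit 16) k) lo)

def tR (k : ℕ) : ℕ := Nat.land (Nat.shiftRight cTab (Nat.mul (nat_lit 144) k))
  (nat_lit 22300745198530623141535718272648361505980415)

def tX (r : ℕ) : ℕ := Nat.land r (nat_lit 68719476735)

def tY (r : ℕ) : ℕ := Nat.land (Nat.shiftRight r (nat_lit 36)) (nat_lit 68719476735)

def tS (r : ℕ) : ℕ := Nat.shiftRight r (nat_lit 72)

noncomputable def tb2 (mu : ℕ) (f : ℕ → ℕ → ℕ → Bool) (r : ℕ) : Bool :=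
  force (Nat.mul mu (Nat.add (tX r) cOp)) fun a => force (Nat.mul mu (Nat.add (tY r) cOp)) (f (tS r) a)

noncomputable def tb (ih : ℕ → ℕ → ℕ → ℕ → Bool) (P N pool mu x y lo hi sh ty k : ℕ) : Bool :=
  force (tR k) (tb2 mu (Nat.rec (motive := fun _ => ℕ → ℕ → ℕ → Bool)
    (ent ih P N pool mu x y hi sh k) (fun _ _ => ext ih P N pool mu x y lo sh k) ty))

noncomputable def edV (vs : List Vx) (ih : ℕ → ℕ → ℕ → ℕ → Bool)
    (P N pool cur mu ty j x y lo hi sh : ℕ) : Bool :=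
  Nat.rec (motive := fun _ => Bool) (get (ww2 ih P N pool cur mu x y hi sh) vs j)
    (fun n _ => force (Nat.add cur j) (tb ih P N pool mu x y lo hi sh n)) ty

noncomputable def edS (vs : List Vx) (ih : ℕ → ℕ → ℕ → ℕ → ℕ → Bool) (Y P N pool cur : ℕ) : Bool :=
  force (Nat.land Y (nat_lit 65535)) fun mu => force (Nat.shiftRight Y (nat_lit 31)) fun Y' =>
    get (edV vs (ih Y') P N pool cur mu (Nat.land (Nat.shiftRight Y (nat_lit 16)) (nat_lit 3))
      (Nat.land (Nat.shiftRight Y (nat_lit 22)) (nat_lit 511))) vs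
      (Nat.land (Nat.shiftRight Y (nat_lit 18)) (nat_lit 15))

noncomputable def edF (kend thr : ℕ) (_Y P N pool cur : ℕ) : Bool :=
  Bool.rec (motive := fun _ => Bool) false
    (Bool.rec (motive := fun _ => Bool) false (lowb cOff cOne P N thr) (Nat.ble cur kend))
    (Nat.beq pool (nat_lit 65535))

noncomputable def eds (kend thr : ℕ) (vs : List Vx) (c : ℕ) : ℕ → ℕ → ℕ → ℕ → ℕ → Bool :=
  Nat.rec (motive := fun _ => ℕ → ℕ → ℕ → ℕ → ℕ → Bool) (edF kend thr) (fun _ ih => edS vs ih) c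

def zE (c1 c2 M R T : ℕ) : ℕ :=
  Nat.add (Nat.sub (nat_lit 1125899906842624) (Nat.add (Nat.mul M M) (sd T (nat_lit 23756800))))
    (Nat.mul (nat_lit 2) (Nat.add
      (Nat.sub (Nat.add (Nat.mul M c2) (Nat.mul T R))
        (Nat.add (Nat.mul M c1) (Nat.mul (nat_lit 23756800) R)))
      (Nat.sub (Nat.add (Nat.mul M c1) (Nat.mul (nat_lit 23756800) R))
        (Nat.add (Nat.mul M c2) (Nat.mul T R)))))

def zC (e1 e2 c1 c2 M H : ℕ) : ℕ :=
  Nat.add (Nat.add (Nat.add M H) (nat_lit 67108864))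
    (Nat.add (Nat.shiftLeft (Nat.sub (Nat.add (nat_lit 67108864) c2) c1) e1)
      (Nat.shiftLeft (Nat.add (nat_lit 67108864) H) e2))

def zS (e1 e2 R T : ℕ) : ℕ :=
  Nat.add (Nat.add T (nat_lit 43352064))
    (Nat.add (Nat.shiftLeft (Nat.add (nat_lit 67108864) R) e1) (Nat.shiftLeft (nat_lit 67108864) e2))

def inD (c s : ℕ) : Bool :=
  Nat.ble (Nat.add (Nat.mul c c) (sd s (nat_lit 11878400))) (nat_lit 281474976710656)

noncomputable def zf3 (D : ℕ) (k : ℕ → ℕ → ℕ → ℕ → Bool) (c s : ℕ) : Bool :=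
  Bool.rec (motive := fun _ => Bool) false
    (Bool.rec (motive := fun _ => Bool) false
      (force (Nat.sub D c) fun c' => force (Nat.sub D s) (k c c' s)) (Nat.ble s D)) (Nat.ble c D)

noncomputable def zf2 (e1 e2 D c1 c2 M R T : ℕ) (k : ℕ → ℕ → ℕ → ℕ → Bool) (E mn H : ℕ) : Bool :=
  Bool.rec (motive := fun _ => Bool) false
    (Bool.rec (motive := fun _ => Bool) false
      (force (zC e1 e2 c1 c2 M H) fun c => force (zS e1 e2 R T) (zf3 D k c))
      (Nat.ble H (nat_lit 16777216)))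
    (Nat.ble E (Nat.mul mn H))

noncomputable def zf1 (e1 e2 D c1 c2 : ℕ) (k : ℕ → ℕ → ℕ → ℕ → Bool) (M R T : ℕ) : Bool :=
  force (zE c1 c2 M R T) fun E => force (Nat.mul (nat_lit 8) (Nat.sub c1 (Nat.sub c1 c2))) fun mn =>
    force (Nat.succ (Nat.div E mn)) (zf2 e1 e2 D c1 c2 M R T k E mn)

/-- Packed forms of the cosine and sine of a rotation and of their opposites. -/
noncomputable def zf (e1 e2 D sl sh c1 c2 : ℕ) (k : ℕ → ℕ → ℕ → ℕ → Bool) : Bool :=
  Bool.rec (motive := fun _ => Bool) false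
    (Bool.rec (motive := fun _ => Bool) false
      (force (Nat.add c1 c2) fun M => force (Nat.sub sh sl) fun R =>
        force (Nat.add sl sh) (zf1 e1 e2 D c1 c2 k M R))
      (inD c2 sh)) (inD c1 sl)

def tF (e C l h : ℕ) : ℕ := Nat.add (Nat.add (Nat.add l h) (Nat.shiftLeft (Nat.sub h l) e)) C

def cmb (X u a w b : ℕ) : ℕ := Nat.add X (Nat.add (Nat.mul u a) (Nat.mul w b))

def quad (a b X Y c c' s s' : ℕ) (l : List (ℕ × ℕ)) : List (ℕ × ℕ) :=
  (cmb X c a s' b, cmb Y s a c b) :: (cmb X c' a s' b, cmb Y s' a c b) ::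
    (cmb X c' a s b, cmb Y s' a c' b) :: (cmb X c a s b, cmb Y s a c' b) :: l

def nuP (nu c c' s s' : ℕ) : ℕ :=
  Nat.mul nu (Nat.add (Nat.add (Nat.mul c c') (Nat.mul s s')) (nat_lit 1125899906842624))

noncomputable def wm2 (H a b nu : ℕ) (l : List (ℕ × ℕ)) (P N : ℕ)
    (k : List (ℕ × ℕ) → ℕ → ℕ → Bool) (X Y c c' s s' : ℕ) : Bool :=
  force (Nat.add P (nuP nu c c' s s')) fun P' => force (Nat.add N (Nat.mul nu H))
    (k (quad a b X Y c c' s s' l) P')

/-- Adds the four vertices of a rectangle. -/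
noncomputable def wm (ex ey e1 e2 C D H a b nu : ℕ) (l : List (ℕ × ℕ)) (P N : ℕ)
    (k : List (ℕ × ℕ) → ℕ → ℕ → Bool) (xl xh yl yh sl sh c1 c2 : ℕ) : Bool :=
  Bool.rec (motive := fun _ => Bool) false
    (force (tF ex C xl xh) fun X => force (tF ey C yl yh) fun Y =>
      zf e1 e2 D sl sh c1 c2 (wm2 H a b nu l P N k X Y))
    (Nat.ble (Nat.add xh yh) (nat_lit 13421772800))

noncomputable def lf3 (thr Y k0 : ℕ) (l : List (ℕ × ℕ)) (P N : ℕ) : Bool :=
  force (Nat.mul (nat_lit 16) k0) fun base => force (Nat.add base (nat_lit 4096)) fun top =>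
    bld base top (fun Y' vs => eds (Nat.add k0 (nat_lit 256)) thr vs
        (Nat.land (Nat.shiftRight Y (nat_lit 8)) (nat_lit 63)) Y' P N (nat_lit 65535) k0)
      l (Nat.shiftRight Y (nat_lit 78)) (nat_lit 15080) []

noncomputable def lf2 (a b thr Y : ℕ) (o1 o2 : Ob) (k0 : ℕ) (l : List (ℕ × ℕ)) : Bool :=
  Ob.rec (motive := fun _ => Bool)
    (wm (nat_lit 1352) (nat_lit 2912) (nat_lit 3432) (nat_lit 4888) cC1 cD1 cH1 a b
      (Nat.land (Nat.shiftRight Y (nat_lit 14)) (nat_lit 4294967295)) l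
      (Nat.mul (nat_lit 65535) (tS (tR (Nat.add k0 (nat_lit 256))))) (Nat.mul (nat_lit 65535) (tS (tR k0)))
      fun l P N => Ob.rec (motive := fun _ => Bool)
        (wm (nat_lit 5616) (nat_lit 6656) (nat_lit 7280) (nat_lit 7488) cC2 cD2 cH2 (nat_lit 50) (nat_lit 50)
          (Nat.land (Nat.shiftRight Y (nat_lit 46)) (nat_lit 4294967295)) l P N (lf3 thr Y k0)) o2) o1

noncomputable def lf1 (a b thr Y : ℕ) (o1 o2 : Ob) (xl xh yl yh : ℕ) (_sl _sh _c1 _c2 : ℕ) : Bool :=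
  Bool.rec (motive := fun _ => Bool) false
    (force (Nat.land Y (nat_lit 255)) fun k0 => force (tF (nat_lit 416) cOp yl yh) fun y =>
      lf2 a b thr Y o1 o2 k0 [(tF (nat_lit 104) cSp xl xh, y), (tF (nat_lit 104) cSm xl xh, y)])
    (Nat.ble (Nat.add xh yh) (nat_lit 13421772800))

noncomputable def leaf (a b thr Y : ℕ) (o0 o1 o2 : Ob) : Bool :=
  Ob.rec (motive := fun _ => Bool) (lf1 a b thr Y o1 o2) o0

noncomputable def upX (k : Ob → Ob → Bool) (xl xh yl yh sl sh c1 c2 : ℕ) : Bool :=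
  force (Nat.div (Nat.add xl xh) (nat_lit 2)) fun m =>
    k ⟨xl, m, yl, yh, sl, sh, c1, c2⟩ ⟨m, xh, yl, yh, sl, sh, c1, c2⟩

noncomputable def upY (k : Ob → Ob → Bool) (xl xh yl yh sl sh c1 c2 : ℕ) : Bool :=
  force (Nat.div (Nat.add yl yh) (nat_lit 2)) fun m =>
    k ⟨xl, xh, yl, m, sl, sh, c1, c2⟩ ⟨xl, xh, m, yh, sl, sh, c1, c2⟩

def nwt (N x : ℕ) : ℕ := Nat.div (Nat.add x (Nat.div N x)) (nat_lit 2)

noncomputable def sqr (k : ℕ → Bool) (N : ℕ) : Bool :=
  force (nwt N (nat_lit 16777216)) fun x => force (nwt N x) fun x => force (nwt N x) fun x =>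
    force (Nat.pred (nwt N x)) k

noncomputable def upS (k : Ob → Ob → Bool) (xl xh yl yh sl sh c1 c2 : ℕ) : Bool :=
  force (Nat.div (Nat.add sl sh) (nat_lit 2)) fun m =>
    force (Nat.sub (nat_lit 281474976710656) (sd m (nat_lit 11878400))) (sqr fun c =>
      k ⟨xl, xh, yl, yh, sl, m, c1, c⟩ ⟨xl, xh, yl, yh, m, sh, c, c2⟩)

/-- Branch and bound certificates. -/
inductive Tr where
  | lf (Y : ℕ)
  | p0 (t1 t2 : Tr)
  | p1 (t1 t2 : Tr)
  | q0 (t1 t2 : Tr)
  | q1 (t1 t2 : Tr)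
  | q2 (t1 t2 : Tr)
  | r0 (t1 t2 : Tr)
  | r1 (t1 t2 : Tr)
  | r2 (t1 t2 : Tr)

/-- The type of splitting procedures. -/
abbrev Up : Type := (Ob → Ob → Bool) → ℕ → ℕ → ℕ → ℕ → ℕ → ℕ → ℕ → ℕ → Bool

noncomputable def n0 (u : Up) (_t1 _t2 : Tr) (f g : Ob → Ob → Ob → Bool) (o0 o1 o2 : Ob) : Bool :=
  Ob.rec (motive := fun _ => Bool) (u fun l r => band (f l o1 o2) (g r o1 o2)) o0

noncomputable def n1 (u : Up) (_t1 _t2 : Tr) (f g : Ob → Ob → Ob → Bool) (o0 o1 o2 : Ob) : Bool :=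
  Ob.rec (motive := fun _ => Bool) (u fun l r => band (f o0 l o2) (g o0 r o2)) o1

noncomputable def n2 (u : Up) (_t1 _t2 : Tr) (f g : Ob → Ob → Ob → Bool) (o0 o1 o2 : Ob) : Bool :=
  Ob.rec (motive := fun _ => Bool) (u fun l r => band (f o0 o1 l) (g o0 o1 r)) o2

noncomputable def chk (a b thr : ℕ) (t : Tr) : Ob → Ob → Ob → Bool :=
  Tr.rec (motive := fun _ => Ob → Ob → Ob → Bool) (leaf a b thr)
    (n0 upX) (n0 upY) (n1 upX) (n1 upY) (n1 upS) (n2 upX) (n2 upY) (n2 upS) t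

end Pool.Agent.Lib.MP_4662c0_co.Low
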