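import Mathlib

set_option autoImplicit false

/-! The certificate checker: programs only. -/

namespace Pool.Agent.Lib.MP_4662c0_co

/-- Forces the evaluation of a natural number. -/
noncomputable def force (x : ℕ) (f : ℕ → Bool) : Bool :=
  Nat.rec (motive := fun _ => Bool) (f 0) (fun n _ => f (Nat.succ n)) x

noncomputable def band (a b : Bool) : Bool := Bool.rec (motive := fun _ => Bool) false b a

noncomputable def bor (a b : Bool) : Bool := Bool.rec (motive := fun _ => Bool) b true a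

/-- Forces the evaluation of an integer. -/
noncomputable def intK (z : ℤ) (k : ℤ → Bool) : Bool :=
  Int.rec (motive := fun _ => Bool) (fun n => force n fun m => k (Int.ofNat m))
    (fun n => force n fun m => k (Int.negSucc m)) z


noncomputable def ngt (n : ℕ) : ℤ := Nat.rec (motive := fun _ => ℤ) (Int.ofNat 0) (fun m _ => Int.negSucc m) n

noncomputable def imul (a b : ℤ) : ℤ :=
  Int.rec (motive := fun _ => ℤ)
    (fun m => Int.rec (motive := fun _ => ℤ) (fun n => Int.ofNat (Nat.mul m n)) (fun n => ngt (Nat.mul m (Nat.succ n))) b)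
    (fun m => Int.rec (motive := fun _ => ℤ) (fun n => ngt (Nat.mul (Nat.succ m) n)) (fun n => Int.ofNat (Nat.mul (Nat.succ m) (Nat.succ n))) b) a

noncomputable def snn (m n : ℕ) : ℤ := Nat.rec (motive := fun _ => ℤ) (Int.ofNat (Nat.sub m n)) (fun k _ => Int.negSucc k) (Nat.sub n m)

noncomputable def iadd (a b : ℤ) : ℤ :=
  Int.rec (motive := fun _ => ℤ)
    (fun m => Int.rec (motive := fun _ => ℤ) (fun n => Int.ofNat (Nat.add m n)) (fun n => snn m (Nat.succ n)) b)
    (fun m => Int.rec (motive := fun _ => ℤ) (fun n => snn n (Nat.succ m)) (fun n => Int.negSucc (Nat.succ (Nat.add m n))) b) a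

noncomputable def isub (a b : ℤ) : ℤ :=
  Int.rec (motive := fun _ => ℤ)
    (fun m => Int.rec (motive := fun _ => ℤ) (fun n => snn m n) (fun n => Int.ofNat (Nat.add m (Nat.succ n))) b)
    (fun m => Int.rec (motive := fun _ => ℤ) (fun n => Int.negSucc (Nat.add m n)) (fun n => snn n m) b) a

/-- Continue with `z + A` if it is nonnegative. -/
noncomputable def off (z : ℤ) (A : ℕ) (k : ℕ → Bool) : Bool :=
  Int.rec (motive := fun _ => Bool) (fun n => force (Nat.add A n) k)
    (fun n => Nat.rec (motive := fun _ => Bool) false (fun m _ => k m) (Nat.sub A n)) z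

/-- Squared distance of two naturals. -/
def sd (a b : ℕ) : ℕ := Nat.pow (Nat.add (Nat.sub a b) (Nat.sub b a)) 2

/-- An entry of the sorted list: offset direction, offset weight vector, offset constant. -/
structure En where
  key : ℕ
  sh : ℕ
  ux : ℕ
  uy : ℕ
  wx : ℕ
  wy : ℕ
  b : ℕ

/-- A term `w * h (ux, uy) - b` of a linear constraint on the support function. -/
structure Pe where
  ux : ℤ
  uy : ℤ
  w : ℤ
  b : ℤ

/-- A scaled rotation `a + b i` of modulus `n`, followed by a reflection when `f = -1`. -/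
structure Rt where
  a : ℤ
  b : ℤ
  n : ℤ
  f : ℤ

/-- Three sides with a positive dependency of their normals. -/
structure Dp where
  x1 : ℤ
  y1 : ℤ
  l1 : ℤ
  x2 : ℤ
  y2 : ℤ
  l2 : ℤ
  x3 : ℤ
  y3 : ℤ
  l3 : ℤ
  be : ℤ

/-- Strictly positive cross product of offset directions. -/
def cpos (A px py ux uy : ℕ) : Bool :=
  Nat.ble (Nat.succ (Nat.add (Nat.mul py ux) (Nat.mul A (Nat.add px uy))))
    (Nat.add (Nat.mul px uy) (Nat.mul A (Nat.add py ux)))

def dp (A X Z S ux uy : ℕ) : ℕ :=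
  Nat.add (Nat.add (Nat.mul X ux) (Nat.mul Z uy)) (Nat.mul (Nat.add S S) A)

def dn (A X Z S ux uy : ℕ) : ℕ := Nat.add (Nat.mul A (Nat.add X Z)) (Nat.mul S (Nat.add ux uy))

def cp (A X Z S ux uy : ℕ) : ℕ := Nat.add (Nat.add (Nat.mul ux Z) (Nat.mul uy S)) (Nat.mul A X)

def cn (A X Z S ux uy : ℕ) : ℕ := Nat.add (Nat.add (Nat.mul ux S) (Nat.mul A Z)) (Nat.mul uy X)

def strip (A r2 X Z S ux uy : ℕ) : Bool :=
  Nat.ble (Nat.succ (sd (cp A X Z S ux uy) (cn A X Z S ux uy)))
    (Nat.mul r2 (Nat.add (sd ux A) (sd uy A)))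

noncomputable def ok2 (A r2 X Z S px py ux uy : ℕ) : Bool :=
    (bor (band (Nat.ble (dp A X Z S px py) (dn A X Z S px py)) (strip A r2 X Z S px py))
      (bor (band (Nat.ble (dn A X Z S ux uy) (dp A X Z S ux uy)) (strip A r2 X Z S ux uy))
        (band (Nat.ble (cn A X Z S px py) (cp A X Z S px py))
          (band (Nat.ble (cn A X Z S ux uy) (cp A X Z S ux uy)) (cpos A px py ux uy)))))

/-- The vector `(X - S, Z - S)` has scalar product at most `r` with the unit vectors of a cone. -/
noncomputable def ok (A r2 X Z S px py ux uy : ℕ) : Bool :=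
  Bool.rec (motive := fun _ => Bool) (ok2 A r2 X Z S px py ux uy) true
    (Nat.ble (Nat.add (Nat.pow (Nat.add (Nat.sub X S) (Nat.sub S X)) 2) (Nat.pow (Nat.add (Nat.sub Z S) (Nat.sub S Z)) 2)) r2)

/-- The argument of the first direction is at most the argument of the second. -/
noncomputable def ale (A px py ux uy : ℕ) : Bool :=
  bor (band (Nat.beq px ux) (Nat.beq py uy))
    (Bool.rec (motive := fun _ => Bool)
      (bor (Nat.ble A uy) (cpos A px py ux uy))
      (band (Nat.ble A uy) (cpos A px py ux uy)) (Nat.ble A py))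

/-- The multiplier stored at a bit position. -/
def yv (Y sh : ℕ) : ℕ := Nat.land (Nat.shiftRight Y sh) 67108863

noncomputable def fin (A r r2 hx hy X0 Z0 S0 px py X Z S V : ℕ) : Bool :=
  band (ok A r2 X Z S px py hx hy)
      (band (Nat.beq (Nat.add X S0) (Nat.add X0 S)) (band (Nat.beq (Nat.add Z S0) (Nat.add Z0 S))
        (Nat.ble (Nat.succ (Nat.add r S)) V)))

noncomputable def act (A B r2 : ℕ) (e : En) (y : ℕ) (ih : ℕ → ℕ → ℕ → ℕ → ℕ → ℕ → Bool) (px py X Z S V : ℕ) : Bool :=
  Bool.rec (motive := fun _ => Bool) false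
          (ih e.ux e.uy (Nat.add X (Nat.mul y e.wx)) (Nat.add Z (Nat.mul y e.wy)) (Nat.add S (Nat.mul y B)) (Nat.add V (Nat.mul y e.b)))
     (Bool.rec (motive := fun _ => Bool) (ok A r2 X Z S px py e.ux e.uy) true
       (Bool.rec (motive := fun _ => Bool) false (Nat.beq py e.uy) (Nat.beq px e.ux)))

noncomputable def walk (A B r r2 Y hx hy X0 Z0 S0 : ℕ) (l : List En) :
    ℕ → ℕ → ℕ → ℕ → ℕ → ℕ → Bool :=
  List.rec (motive := fun _ => ℕ → ℕ → ℕ → ℕ → ℕ → ℕ → Bool)
    (fin A r r2 hx hy X0 Z0 S0)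
    (fun e _ ih =>
      Nat.rec (motive := fun _ => ℕ → ℕ → ℕ → ℕ → ℕ → ℕ → Bool) ih
        (fun n _ => act A B r2 e (Nat.succ n) ih)
        (Nat.land (Nat.shiftRight Y e.sh) (nat_lit 67108863))) l

noncomputable def leafChk (A B r r2 Q S0 Y : ℕ) (l : List En) : Bool :=
  List.rec (motive := fun _ => Bool) false
    (fun e _ _ => force (Nat.mul Q (yv Y 0)) fun X0 => force (Nat.mul Q (yv Y 26)) fun Z0 =>
      walk A B r r2 Y e.ux e.uy X0 Z0 S0 l e.ux e.uy X0 Z0 S0 S0) l

noncomputable def insH (A : ℕ) (e x : En) (xs : List En) (px py : ℕ) (k : List En → Bool) : Bool :=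
  band (ale A px py e.ux e.uy) (band (ale A e.ux e.uy x.ux x.uy) (k (e :: x :: xs)))

noncomputable def ins (A key : ℕ) (e : En) (l : List En) : ℕ → ℕ → (List En → Bool) → Bool :=
  List.rec (motive := fun _ => ℕ → ℕ → (List En → Bool) → Bool)
    (fun px py k => band (ale A px py e.ux e.uy) (k [e]))
    (fun x xs ih => Bool.rec (motive := fun _ => ℕ → ℕ → (List En → Bool) → Bool)
      (fun _ _ k => ih x.ux x.uy fun s => k (x :: s))
      (insH A e x xs)
      (Nat.ble key x.key)) l

/-- A pseudo-angle, used only as a hint for sorting. -/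
noncomputable def keyf (A ux uy : ℕ) (k : ℕ → Bool) : Bool :=
  force (Nat.add (Nat.add (Nat.sub ux A) (Nat.sub A ux)) (Nat.add (Nat.sub uy A) (Nat.sub A uy))) fun d =>
    force (Nat.div (Nat.mul (Nat.sub (Nat.add d ux) A) 1099511627776) d) fun t =>
      Bool.rec (motive := fun _ => Bool) (k t) (force (Nat.sub 4398046511104 t) k) (Nat.ble A uy)

noncomputable def addQ (A sh ux uy wx wy b : ℕ) (l : List En) (k : List En → Bool) : Bool :=
  keyf A ux uy fun key => ins A key ⟨key, sh, ux, uy, wx, wy, b⟩ l ux uy k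

noncomputable def addP (A B sh : ℕ) (p : Pe) (l : List En) (k : List En → Bool) : Bool :=
    off p.ux A fun ux => off p.uy A fun uy =>
      off (imul p.w p.ux) B fun wx =>
        off (imul p.w p.uy) B fun wy =>
          off p.b B fun b => addQ A sh ux uy wx wy b l k

noncomputable def addC (A B sh : ℕ) (c : List Pe) : List En → (List En → Bool) → Bool :=
  List.rec (motive := fun _ => List En → (List En → Bool) → Bool) (fun l k => k l)
    (fun p _ ih l k => addP A B sh p l fun l' => ih l' k) c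

noncomputable def pick {α : Type} (l : List α) : ℕ → (α → List α → Bool) → Bool :=
  List.rec (motive := fun _ => ℕ → (α → List α → Bool) → Bool) (fun _ _ => false)
    (fun x xs ih n k => Nat.rec (motive := fun _ => Bool) (k x xs)
      (fun m _ => ih m fun y ys => k y (x :: ys)) n) l

def rp (c : ℕ) : ℤ := Int.ofNat (Nat.succ (Nat.mod c 8192))

def rq (c : ℕ) : ℤ := Int.subNatNat (Nat.mod (Nat.div c 8192) 16384) 8192

noncomputable def rf (ref : Bool) (c : ℕ) : ℤ :=
  Bool.rec (motive := fun _ => ℤ) 1 (-1) (band ref (Nat.ble 134217728 c))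

/-- The rotation coded by a natural number. -/
noncomputable def rotP (ref : Bool) (c : ℕ) : Rt :=
  ⟨isub (imul (rq c) (rq c)) (imul (rp c) (rp c)), imul 2 (imul (rp c) (rq c)),
    iadd (imul (rq c) (rq c)) (imul (rp c) (rp c)), rf ref c⟩

noncomputable def rotK (ref : Bool) (c : ℕ) (k : Rt → Bool) : Bool :=
  intK (rotP ref c).a fun a => intK (rotP ref c).b fun b => intK (rotP ref c).n fun n =>
    intK (rotP ref c).f fun f => k ⟨a, b, n, f⟩

noncomputable def rx (R : Rt) (x y : ℤ) : ℤ := isub (imul R.a x) (imul R.b y)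

noncomputable def ry (R : Rt) (x y : ℤ) : ℤ := imul R.f (iadd (imul R.a y) (imul R.b x))

/-- The constraint saying that three rotated sides are violated (`s = 1`) or its negation. -/
noncomputable def depC (d : Dp) (R : Rt) (s : ℤ) : List Pe :=
  [⟨rx R d.x1 d.y1, ry R d.x1 d.y1, imul s d.l1, imul s (imul R.n d.be)⟩,
   ⟨rx R d.x2 d.y2, ry R d.x2 d.y2, imul s d.l2, 0⟩,
   ⟨rx R d.x3 d.y3, ry R d.x3 d.y3, imul s d.l3, 0⟩]

/-- The width in a direction is at least the width in the direction of the real axis. -/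
noncomputable def cutC (G : ℤ) (R : Rt) : List Pe :=
  [⟨R.a, R.b, G, 0⟩, ⟨Int.neg R.a, Int.neg R.b, G, 0⟩,
   ⟨1, 0, Int.neg (imul G R.n), 0⟩, ⟨-1, 0, Int.neg (imul G R.n), 0⟩]

/-- Branch and bound certificates. -/
inductive Tr where
  | lf (Y : ℕ)
  | rt (c : ℕ) (t : Tr)
  | br (j : ℕ) (t1 t2 : Tr)
  | fn
  | ct (c : ℕ) (t : Tr)
  | us (i : ℕ) (t : Tr)

noncomputable def chk (A B r r2 Q S0 : ℕ) (G : ℤ) (ref : Bool) (deps : List Dp) (t : Tr) :
    List En → List (List Pe) → Rt → List Dp → ℕ → Bool :=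
  Tr.rec (motive := fun _ => List En → List (List Pe) → Rt → List Dp → ℕ → Bool)
    (fun Y l _ _ _ _ => leafChk A B r r2 Q S0 Y l)
    (fun c _ ih l av _ _ n => rotK ref c fun R => ih l av R deps n)
    (fun j _ _ ih1 ih2 l av R rem n => pick rem j fun d rest =>
      band (addC A B n (depC d R 1) l fun l' => force (Nat.add n 26) fun n' => ih1 l' av R rem n')
        (ih2 l (depC d R (-1) :: av) R rest n))
    (fun _ _ _ rem _ => List.rec (motive := fun _ => Bool) true (fun _ _ _ => false) rem)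
    (fun c _ ih l av R rem n => rotK false c fun R' =>
      addC A B n (cutC G R') l fun l' => force (Nat.add n 26) fun n' => ih l' av R rem n')
    (fun i _ ih l av R rem n => pick av i fun c rest =>
      addC A B n c l fun l' => force (Nat.add n 26) fun n' => ih l' rest R rem n') t

/-- Steps of a path from the root of a certificate. -/
inductive Op where
  | rt (c : ℕ)
  | lt (j : ℕ)
  | gt (j : ℕ)
  | ct (c : ℕ)
  | us (i : ℕ)

/-- The state reached along a path. -/
structure St where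
  cs : List (List Pe)
  av : List (List Pe)
  R : Rt
  rem : List Dp

def d0 : Dp := ⟨0, 0, 0, 0, 0, 0, 0, 0, 0, 0⟩

noncomputable def step (G : ℤ) (ref : Bool) (deps : List Dp) (o : Op) (s : St) : St :=
  Op.rec (motive := fun _ => St)
    (fun c => ⟨s.cs, s.av, rotP ref c, deps⟩)
    (fun j => ⟨depC (s.rem.getD j d0) s.R 1 :: s.cs, s.av, s.R, s.rem⟩)
    (fun j => ⟨s.cs, depC (s.rem.getD j d0) s.R (-1) :: s.av, s.R, s.rem.eraseIdx j⟩)
    (fun c => ⟨cutC G (rotP false c) :: s.cs, s.av, s.R, s.rem⟩)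
    (fun i => ⟨s.av.getD i [] :: s.cs, s.av.eraseIdx i, s.R, s.rem⟩) o

noncomputable def st (G : ℤ) (ref : Bool) (deps : List Dp) (av0 : List (List Pe)) (ops : List Op) : St :=
  List.rec (motive := fun _ => St) ⟨[], av0, rotP ref 0, deps⟩ (fun o _ s => step G ref deps o s) ops

/-- Inserts a list of constraints, the last one first. -/
noncomputable def addAll (A B : ℕ) (cs : List (List Pe)) : (List En → ℕ → Bool) → Bool :=
  List.rec (motive := fun _ => (List En → ℕ → Bool) → Bool) (fun k => k [] 52)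
    (fun c _ ih k => ih fun l n => addC A B n c l fun l' => force (Nat.add n 26) fun n' => k l' n') cs

noncomputable def go (A B r r2 Q S0 : ℕ) (G : ℤ) (ref : Bool) (deps : List Dp)
    (av0 : List (List Pe)) (ops : List Op) (t : Tr) : Bool :=
  addAll A B (st G ref deps av0 ops).cs fun l n =>
    chk A B r r2 Q S0 G ref deps t l (st G ref deps av0 ops).av (st G ref deps av0 ops).R
      (st G ref deps av0 ops).rem n

/-- The symmetry constraint `g (σ γ) - g γ ≥ 0`, where `σ` multiplies coordinates by signs. -/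
noncomputable def symC (d : Dp) (R : Rt) (s1 s2 : ℤ) : List Pe :=
  [⟨rx R d.x1 d.y1, ry R d.x1 d.y1, -d.l1, 0⟩, ⟨rx R d.x2 d.y2, ry R d.x2 d.y2, -d.l2, 0⟩,
   ⟨rx R d.x3 d.y3, ry R d.x3 d.y3, -d.l3, 0⟩,
   ⟨s1 * rx R d.x1 d.y1, s2 * ry R d.x1 d.y1, d.l1, 0⟩,
   ⟨s1 * rx R d.x2 d.y2, s2 * ry R d.x2 d.y2, d.l2, 0⟩,
   ⟨s1 * rx R d.x3 d.y3, s2 * ry R d.x3 d.y3, d.l3, 0⟩]

end Pool.Agent.Lib.MP_4662c0_co
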