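import Pool.Agent.Lib.MP_4662c0_co.Geo
import Pool.Agent.Lib.MP_4662c0_co.Prog

set_option autoImplicit false

/-! Soundness of the leaf check and of the insertion. -/

namespace Pool.Agent.Lib.MP_4662c0_co

open Real

lemma force_eq (x : ℕ) (f : ℕ → Bool) : force x f = f x := by cases x <;> rfl

lemma band_true {a b : Bool} : band a b = true ↔ a = true ∧ b = true := by
  cases a <;> cases b <;> simp [band]

lemma bor_true {a b : Bool} : bor a b = true ↔ a = true ∨ b = true := by
  cases a <;> cases b <;> simp [bor]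

lemma intK_eq (z : ℤ) (k : ℤ → Bool) : intK z k = k z := by
  cases z <;> simp only [intK, force_eq]

lemma ngt_eq (n : ℕ) : ngt n = -(n : ℤ) := by cases n <;> rfl

lemma snn_eq (m n : ℕ) : snn m n = (m : ℤ) - n := by
  have : snn m n = Int.subNatNat m n := by
    unfold snn Int.subNatNat
    show Nat.rec (motive := fun _ => ℤ) _ _ (n - m) = _
    cases n - m <;> rfl
  rw [this, Int.subNatNat_eq_coe]

@[simp] lemma imul_eq (a b : ℤ) : imul a b = a * b := by
  cases a <;> cases b <;> simp only [imul, ngt_eq] <;> simp [Int.negSucc_eq] <;> ring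

@[simp] lemma iadd_eq (a b : ℤ) : iadd a b = a + b := by
  cases a <;> cases b <;> simp only [iadd, snn_eq] <;> simp [Int.negSucc_eq] <;> ring

@[simp] lemma isub_eq (a b : ℤ) : isub a b = a - b := by
  cases a <;> cases b <;> simp only [isub, snn_eq] <;> simp [Int.negSucc_eq] <;> ring

lemma off_spec {z : ℤ} {A : ℕ} {k : ℕ → Bool} (h : off z A k = true) :
    ∃ n : ℕ, (n : ℝ) - A = z ∧ k n = true := by
  cases z with
  | ofNat n =>
    simp only [off, force_eq] at h
    exact ⟨_, by simp, h⟩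
  | negSucc n =>
    simp only [off] at h
    have e : Nat.sub A n = A - n := rfl
    rw [e] at h
    cases h1 : A - n with
    | zero => rw [h1] at h; exact absurd h (by simp)
    | succ m =>
      rw [h1] at h
      refine ⟨m, ?_, h⟩
      have : A = m + 1 + n := by omega
      rw [this, Int.negSucc_eq]; push_cast; ring

lemma sd_cast (a b : ℕ) : ((Nat.pow (Nat.add (Nat.sub a b) (Nat.sub b a)) 2 : ℕ) : ℝ) = ((a : ℝ) - b) ^ 2 := by
  simp only [Nat.pow_eq, Nat.add_eq, Nat.sub_eq]
  rcases le_total a b with h | h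
  · rw [Nat.sub_eq_zero_of_le h]; push_cast [Nat.cast_sub h]; ring
  · rw [Nat.sub_eq_zero_of_le h]; push_cast [Nat.cast_sub h]; ring

lemma sd_cast' (a b : ℕ) : ((sd a b : ℕ) : ℝ) = ((a : ℝ) - b) ^ 2 := sd_cast a b

/-- The vector with offset coordinates. -/
noncomputable def vec (A x y : ℕ) : ℂ := ⟨(x : ℝ) - A, (y : ℝ) - A⟩

lemma ble_cast {a b : ℕ} (h : Nat.ble a b = true) : (a : ℝ) ≤ b := by
  exact_mod_cast Nat.le_of_ble_eq_true h

lemma blt_cast {a b : ℕ} (h : Nat.ble (Nat.succ a) b = true) : (a : ℝ) < b := by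
  exact_mod_cast Nat.le_of_ble_eq_true h

lemma cpos_spec {A px py ux uy : ℕ} (h : cpos A px py ux uy = true) :
    0 < crs (vec A px py) (vec A ux uy) := by
  have := blt_cast h
  simp only [Nat.add_eq, Nat.mul_eq] at this
  push_cast at this
  simp only [crs, vec]
  linarith

lemma dot_eq (A X Z S ux uy : ℕ) :
    dot (vec S X Z) (vec A ux uy) = (dp A X Z S ux uy : ℝ) - dn A X Z S ux uy := by
  simp only [dp, dn, dot, vec, Nat.add_eq, Nat.mul_eq]; push_cast; ring

lemma crs_eq' (A X Z S ux uy : ℕ) :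
    crs (vec A ux uy) (vec S X Z) = (cp A X Z S ux uy : ℝ) - cn A X Z S ux uy := by
  simp only [cp, cn, crs, vec, Nat.add_eq, Nat.mul_eq]; push_cast; ring

lemma norm_sq_eq (z : ℂ) : ‖z‖ ^ 2 = z.re ^ 2 + z.im ^ 2 := by
  rw [Complex.sq_norm, Complex.normSq_apply]; ring

lemma strip_le {r u d : ℂ} {ρ : ℝ} (hρ : 0 ≤ ρ) (h1 : dot r u * dot d u ≤ 0)
    (h2 : crs u r ^ 2 < ρ ^ 2 * (u.re ^ 2 + u.im ^ 2)) : dot r d ≤ ρ * ‖d‖ := by
  rw [← norm_sq_eq] at h2
  have hu : 0 < ‖u‖ := by
    rcases (norm_nonneg u).eq_or_lt with h | h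
    · rw [← h] at h2; nlinarith [sq_nonneg (crs u r)]
    · exact h
  have e : ‖u‖ ^ 2 * dot r d = dot r u * dot d u + crs u r * crs u d := by
    rw [norm_sq_eq]; simp only [dot, crs]; ring
  have a1 : |crs u r| ≤ ρ * ‖u‖ := abs_le_of_sq_le_sq (by nlinarith) (by positivity)
  have a2 : |crs u d| ≤ ‖u‖ * ‖d‖ := by
    refine abs_le_of_sq_le_sq ?_ (by positivity)
    rw [mul_pow, norm_sq_eq, norm_sq_eq]
    simp only [crs]
    nlinarith [sq_nonneg (u.re * d.re + u.im * d.im)]
  have a3 : crs u r * crs u d ≤ (ρ * ‖u‖) * (‖u‖ * ‖d‖) := by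
    refine (le_abs_self _).trans ?_
    rw [abs_mul]
    exact mul_le_mul a1 a2 (abs_nonneg _) (by positivity)
  have a4 : ‖u‖ ^ 2 * dot r d ≤ ‖u‖ ^ 2 * (ρ * ‖d‖) := by nlinarith
  exact le_of_mul_le_mul_left a4 (by positivity)

lemma strip_spec {A r r2 X Z S ux uy : ℕ} (hr : r2 ≤ r * r) (h : strip A r2 X Z S ux uy = true) :
    crs (vec A ux uy) (vec S X Z) ^ 2 < (r : ℝ) ^ 2 * ((vec A ux uy).re ^ 2 + (vec A ux uy).im ^ 2) := by
  have h1 := blt_cast h
  simp only [Nat.add_eq, Nat.mul_eq] at h1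
  push_cast at h1
  rw [sd_cast', sd_cast', sd_cast', ← crs_eq'] at h1
  have h2 : (r2 : ℝ) ≤ r * r := by exact_mod_cast hr
  refine h1.trans_le ?_
  simp only [vec]
  exact mul_le_mul_of_nonneg_right (by linarith) (by positivity)

lemma ok_spec {A r r2 X Z S px py ux uy : ℕ} (hr : r2 ≤ r * r)
    (h : ok A r2 X Z S px py ux uy = true) {d : ℂ} (h1 : 0 ≤ dot d (vec A px py))
    (h2 : dot d (vec A ux uy) ≤ 0) : dot (vec S X Z) d ≤ r * ‖d‖ := by
  have hr0 : (0 : ℝ) ≤ r := Nat.cast_nonneg r
  unfold ok at h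
  generalize hb : Nat.ble _ r2 = c at h
  cases c with
  | true =>
    have h3 := ble_cast hb
    rw [Nat.add_eq, Nat.cast_add, sd_cast, sd_cast] at h3
    have h4 : (r2 : ℝ) ≤ r * r := by exact_mod_cast hr
    have h5 : ‖vec S X Z‖ ≤ r := by
      refine le_of_sq_le_sq ?_ hr0
      rw [norm_sq_eq]; simp only [vec]; linarith
    exact (dot_le _ _).trans (mul_le_mul_of_nonneg_right h5 (norm_nonneg _))
  | false =>
    simp only [ok2, bor_true, band_true] at h
    rcases h with ⟨h3, h4⟩ | ⟨h3, h4⟩ | ⟨h3, h4, h5⟩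
    · refine strip_le hr0 ?_ (strip_spec hr h4)
      have := ble_cast h3
      exact mul_nonpos_of_nonpos_of_nonneg (by rw [dot_eq]; linarith) h1
    · refine strip_le hr0 ?_ (strip_spec hr h4)
      have := ble_cast h3
      exact mul_nonpos_of_nonneg_of_nonpos (by rw [dot_eq]; linarith) h2
    · have c1 : 0 ≤ crs (vec A px py) (vec S X Z) := by rw [crs_eq']; linarith [ble_cast h3]
      have c2 : 0 ≤ crs (vec A ux uy) (vec S X Z) := by rw [crs_eq']; linarith [ble_cast h4]
      have c3 := cpos_spec h5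
      have e : crs (vec A px py) (vec A ux uy) * dot (vec S X Z) d =
          dot d (vec A ux uy) * crs (vec A px py) (vec S X Z) -
            dot d (vec A px py) * crs (vec A ux uy) (vec S X Z) := by
        simp only [dot, crs]; ring
      have a1 := mul_nonpos_of_nonpos_of_nonneg h2 c1
      have a2 := mul_nonneg h1 c2
      have a3 : dot (vec S X Z) d ≤ 0 := by
        by_contra hc
        push Not at hc
        linarith [mul_pos c3 hc]
      exact a3.trans (by positivity)

lemma ale_spec {A px py ux uy : ℕ} (h : ale A px py ux uy = true) :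
    (vec A px py).arg ≤ (vec A ux uy).arg := by
  simp only [ale, bor_true, band_true] at h
  rcases h with ⟨h1, h2⟩ | h
  · rw [Nat.eq_of_beq_eq_true h1, Nat.eq_of_beq_eq_true h2]
  · generalize hb : Nat.ble A py = c at h
    cases c with
    | false =>
      have h0 : (vec A px py).im < 0 := by
        have : py < A := by
          by_contra hc
          rw [Nat.ble_eq_true_of_le (not_lt.1 hc)] at hb
          exact absurd hb (by simp)
        have : (py : ℝ) < A := by exact_mod_cast this
        simp only [vec]; linarith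
      simp only [bor_true] at h
      rcases h with h | h
      · have h1 : 0 ≤ (vec A ux uy).im := by simp only [vec]; linarith [ble_cast h]
        exact (Complex.arg_neg_iff.2 h0).le.trans (Complex.arg_nonneg_iff.2 h1)
      · exact (arg_step (cpos_spec h) (Or.inl h0)).1.le
    | true =>
      simp only [band_true] at h
      have h1 : 0 ≤ (vec A ux uy).im := by simp only [vec]; linarith [ble_cast h.1]
      exact (arg_step (cpos_spec h.2) (Or.inr h1)).1.le

/-- The list is sorted by the argument of the direction. -/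
def Srt (A : ℕ) : ℝ → List En → Prop
  | _, [] => True
  | a, e :: l => a ≤ (vec A e.ux e.uy).arg ∧ Srt A (vec A e.ux e.uy).arg l

/-- The value of an entry. -/
noncomputable def term (A B : ℕ) (γ : ℝ → ℂ) (e : En) : ℝ :=
  dot (vec B e.wx e.wy) (pt γ (vec A e.ux e.uy)) - ((e.b : ℝ) - B)

/-- The weighted sum of the entries. -/
noncomputable def tot (A B : ℕ) (γ : ℝ → ℂ) (Y : ℕ) (l : List En) : ℝ :=
  (l.map fun e => (yv Y e.sh : ℝ) * term A B γ e).sum

lemma Worm.gap {γ : ℝ → ℂ} (h : Worm γ) {A r r2 X Z S px py ux uy : ℕ} (hr : r2 ≤ r * r)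
    (hok : ok A r2 X Z S px py ux uy = true) :
    dot (vec S X Z) (pt γ (vec A px py)) - dot (vec S X Z) (pt γ (vec A ux uy)) ≤
      r * ‖pt γ (vec A px py) - pt γ (vec A ux uy)‖ := by
  rw [← dot_sub_right]
  refine ok_spec hr hok ?_ ?_
  · rw [dot_sub_left, h.dot_pt]; linarith [h.dot_pt_le (vec A ux uy) (vec A px py)]
  · rw [dot_sub_left, h.dot_pt]; linarith [h.dot_pt_le (vec A px py) (vec A ux uy)]

lemma walk_spec {γ : ℝ → ℂ} (h : Worm γ) {A B r r2 Y hx hy X0 Z0 S0 : ℕ} (hr : r2 ≤ r * r)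
    (l : List En) : ∀ px py X Z S V : ℕ, walk A B r r2 Y hx hy X0 Z0 S0 l px py X Z S V = true →
      Srt A (vec A px py).arg l →
      tot A B γ Y l < -dot (vec S X Z) (pt γ (vec A px py)) + dot (vec S0 X0 Z0) (pt γ (vec A hx hy)) +
        r * (arc γ (vec A hx hy).arg ((vec A hx hy).arg + 2 * π) -
          arc γ (vec A hx hy).arg (vec A px py).arg) - r + ((V : ℝ) - S) := by
  have hr0 : (0 : ℝ) ≤ r := Nat.cast_nonneg r
  induction l with
  | nil =>
    intro px py X Z S V hw _
    change fin A r r2 hx hy X0 Z0 S0 px py X Z S V = true at hw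
    simp only [fin, band_true] at hw
    obtain ⟨h1, h2, h3, h4⟩ := hw
    have e2 : (X : ℝ) + S0 = X0 + S := by exact_mod_cast Nat.eq_of_beq_eq_true h2
    have e3 : (Z : ℝ) + S0 = Z0 + S := by exact_mod_cast Nat.eq_of_beq_eq_true h3
    have e4 := blt_cast h4
    rw [Nat.add_eq, Nat.cast_add] at e4
    have e5 : vec S0 X0 Z0 = vec S X Z := by
      apply Complex.ext <;> simp only [vec] <;> linarith
    have g := h.gap hr h1
    have a := h.arc_le (vec A hx hy).arg (φ := (vec A px py).arg) (φ' := (vec A hx hy).arg + 2 * π)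
      (by linarith [Complex.arg_le_pi (vec A px py), Complex.neg_pi_lt_arg (vec A hx hy)])
    rw [uu_add_two_pi] at a
    have a2 := mul_le_mul_of_nonneg_left a hr0
    simp only [pt] at g ⊢
    rw [e5]
    simp only [tot, List.map_nil, List.sum_nil]
    linarith
  | cons e l ih =>
    intro px py X Z S V hw hs
    obtain ⟨hs1, hs2⟩ := hs
    have ht : tot A B γ Y (e :: l) = (yv Y e.sh : ℝ) * term A B γ e + tot A B γ Y l := by
      simp [tot]
    change Nat.rec (motive := fun _ => ℕ → ℕ → ℕ → ℕ → ℕ → ℕ → Bool)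
      (walk A B r r2 Y hx hy X0 Z0 S0 l)
      (fun n _ => act A B r2 e (Nat.succ n) (walk A B r r2 Y hx hy X0 Z0 S0 l))
      (yv Y e.sh) px py X Z S V = true at hw
    rw [ht]
    generalize yv Y e.sh = y at hw
    cases y with
    | zero =>
      have hs3 : Srt A (vec A px py).arg l := by
        cases l with
        | nil => trivial
        | cons x xs => exact ⟨hs1.trans hs2.1, hs2.2⟩
      simpa using ih px py X Z S V hw hs3
    | succ n =>
      change act A B r2 e (n + 1) (walk A B r r2 Y hx hy X0 Z0 S0 l) px py X Z S V = true at hw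
      generalize n + 1 = y at hw
      unfold act at hw
      generalize hb : (Bool.rec (motive := fun _ => Bool) (ok A r2 X Z S px py e.ux e.uy) true
        (Bool.rec (motive := fun _ => Bool) false (Nat.beq py e.uy) (Nat.beq px e.ux))) = c at hw
      cases c with
      | false => exact absurd hw (by simp)
      | true =>
        have i := ih _ _ _ _ _ _ hw hs2
        have g : dot (vec S X Z) (pt γ (vec A px py)) - dot (vec S X Z) (pt γ (vec A e.ux e.uy)) ≤
            r * ‖pt γ (vec A px py) - pt γ (vec A e.ux e.uy)‖ := by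
          generalize hc : (Bool.rec (motive := fun _ => Bool) false (Nat.beq py e.uy)
            (Nat.beq px e.ux)) = c at hb
          cases c with
          | false => exact h.gap hr hb
          | true =>
            obtain ⟨h1, h2⟩ := band_true.1 hc
            rw [Nat.eq_of_beq_eq_true h1, Nat.eq_of_beq_eq_true h2]; simp
        have a := h.arc_le (vec A hx hy).arg hs1
        have a2 := mul_le_mul_of_nonneg_left a hr0
        have e1 : dot (vec (Nat.add S (Nat.mul y B)) (Nat.add X (Nat.mul y e.wx))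
            (Nat.add Z (Nat.mul y e.wy))) (pt γ (vec A e.ux e.uy)) =
            dot (vec S X Z) (pt γ (vec A e.ux e.uy)) +
              y * dot (vec B e.wx e.wy) (pt γ (vec A e.ux e.uy)) := by
          simp only [dot, vec, Nat.add_eq, Nat.mul_eq]; push_cast; ring
        rw [e1] at i
        simp only [Nat.add_eq, Nat.mul_eq] at i
        push_cast at i
        simp only [term, pt] at g i ⊢
        linarith

lemma leafChk_spec {γ : ℝ → ℂ} (h : Worm γ) {A B r r2 Q S0 Y : ℕ} (hr : r2 ≤ r * r) {l : List En}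
    (hl : leafChk A B r r2 Q S0 Y l = true) (hs : Srt A (-π) l) : tot A B γ Y l < 0 := by
  cases l with
  | nil => exact absurd hl (by simp [leafChk])
  | cons e l =>
    simp only [leafChk, force_eq] at hl
    have i := walk_spec h hr _ _ _ _ _ _ _ hl ⟨le_rfl, hs.2⟩
    rw [arc_self] at i
    have a := mul_le_mul_of_nonneg_left (h.arc_full (vec A e.ux e.uy).arg) (Nat.cast_nonneg (α := ℝ) r)
    linarith

lemma ins_spec {A key : ℕ} {e : En} (l : List En) : ∀ (px py : ℕ) (k : List En → Bool) (a : ℝ),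
    ins A key e l px py k = true → Srt A a l →
      ((vec A px py).arg ≤ (vec A e.ux e.uy).arg → a ≤ (vec A e.ux e.uy).arg) →
      ∃ l', k l' = true ∧ Srt A a l' ∧ ∀ f : En → ℝ, (l'.map f).sum = f e + (l.map f).sum := by
  induction l with
  | nil =>
    intro px py k a h _ ha
    change band (ale A px py e.ux e.uy) (k [e]) = true at h
    obtain ⟨h1, h2⟩ := band_true.1 h
    exact ⟨[e], h2, ⟨ha (ale_spec h1), trivial⟩, fun f => by simp⟩
  | cons x xs ih =>
    intro px py k a h hs ha
    change Bool.rec (motive := fun _ => ℕ → ℕ → (List En → Bool) → Bool)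
      (fun _ _ k => ins A key e xs x.ux x.uy fun s => k (x :: s))
      (insH A e x xs) (Nat.ble key x.key) px py k = true at h
    generalize Nat.ble key x.key = c at h
    cases c with
    | false =>
      obtain ⟨l', h1, h2, h3⟩ := ih _ _ _ _ h hs.2 id
      exact ⟨x :: l', h1, ⟨hs.1, h2⟩, fun f => by simp only [List.map_cons, List.sum_cons, h3]; ring⟩
    | true =>
      simp only [insH, band_true] at h
      exact ⟨e :: x :: xs, h.2.2, ⟨ha (ale_spec h.1), ale_spec h.2.1, hs.2⟩, fun f => by simp⟩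

lemma keyf_spec {A ux uy : ℕ} {k : ℕ → Bool} (h : keyf A ux uy k = true) : ∃ n, k n = true := by
  simp only [keyf, force_eq] at h
  generalize Nat.ble A uy = c at h
  cases c
  · exact ⟨_, h⟩
  · exact ⟨_, h⟩

/-- The value of a term of a constraint. -/
noncomputable def pval (γ : ℝ → ℂ) (p : Pe) : ℝ := p.w * hs γ ⟨p.ux, p.uy⟩ - p.b

/-- A constraint holds. -/
def Holds (γ : ℝ → ℂ) (c : List Pe) : Prop := 0 ≤ (c.map (pval γ)).sum

lemma addP_spec {γ : ℝ → ℂ} (h : Worm γ) {A B sh : ℕ} {p : Pe} {l : List En} {k : List En → Bool}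
    (ha : addP A B sh p l k = true) (hs' : Srt A (-π) l) :
    ∃ l', k l' = true ∧ Srt A (-π) l' ∧
      ∀ Y, tot A B γ Y l' = yv Y sh * pval γ p + tot A B γ Y l := by
  obtain ⟨ux, e1, ha⟩ := off_spec ha
  obtain ⟨uy, e2, ha⟩ := off_spec ha
  obtain ⟨wx, e3, ha⟩ := off_spec ha
  obtain ⟨wy, e4, ha⟩ := off_spec ha
  obtain ⟨b, e5, ha⟩ := off_spec ha
  obtain ⟨key, ha⟩ := keyf_spec ha
  obtain ⟨l', h1, h2, h3⟩ := ins_spec l _ _ _ (-π) ha hs' fun _ => (Complex.neg_pi_lt_arg _).le
  refine ⟨l', h1, h2, fun Y => ?_⟩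
  simp only [tot, h3]
  congr 2
  have e6 : vec A ux uy = ⟨p.ux, p.uy⟩ := by simp only [vec, e1, e2]
  simp only [term, pval, e5, e6]
  rw [← h.dot_pt]
  simp only [imul_eq] at e3 e4
  push_cast at e3 e4
  simp only [dot, vec, e3, e4]
  ring

lemma addC_spec {γ : ℝ → ℂ} (h : Worm γ) {A B sh : ℕ} (c : List Pe) :
    ∀ (l : List En) (k : List En → Bool), addC A B sh c l k = true → Srt A (-π) l →
    ∃ l', k l' = true ∧ Srt A (-π) l' ∧
      ∀ Y, tot A B γ Y l' = yv Y sh * (c.map (pval γ)).sum + tot A B γ Y l := by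
  induction c with
  | nil => intro l k ha hs'; exact ⟨l, ha, hs', fun Y => by simp⟩
  | cons p c ih =>
    intro l k ha hs'
    change addP A B sh p l (fun l' => addC A B sh c l' k) = true at ha
    obtain ⟨l1, h1, h2, h3⟩ := addP_spec h ha hs'
    obtain ⟨l2, h4, h5, h6⟩ := ih _ _ h1 h2
    exact ⟨l2, h4, h5, fun Y => by rw [h6, h3]; simp only [List.map_cons, List.sum_cons]; ring⟩

/-- The sorted list only holds valid constraints. -/
def Val (A B : ℕ) (γ : ℝ → ℂ) (l : List En) : Prop := Srt A (-π) l ∧ ∀ Y, 0 ≤ tot A B γ Y l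

lemma addC_val {γ : ℝ → ℂ} (h : Worm γ) {A B sh : ℕ} {c : List Pe} {l : List En} {k : List En → Bool}
    (ha : addC A B sh c l k = true) (hv : Val A B γ l) (hc : Holds γ c) :
    ∃ l', k l' = true ∧ Val A B γ l' := by
  obtain ⟨l', h1, h2, h3⟩ := addC_spec h c l k ha hv.1
  refine ⟨l', h1, h2, fun Y => ?_⟩
  rw [h3]
  exact add_nonneg (mul_nonneg (Nat.cast_nonneg _) hc) (hv.2 Y)

end Pool.Agent.Lib.MP_4662c0_co
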