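import Pool.Agent.Lib.MP_4662c0_co.LProg
import Pool.Agent.Lib.MP_4662c0_co.Leaf

set_option autoImplicit false

/-! Packed linear and quadratic forms. -/

namespace Pool.Agent.Lib.MP_4662c0_co.Low

open Finset

/-- `X` is a packed form with value `v` and coefficient norm at most `n`. -/
def Rp (N : ℕ) (pos : ℕ → ℕ) (val : ℕ → ℝ) (X : ℤ) (v : ℝ) (n : ℤ) : Prop :=
  ∃ c : ℕ → ℤ, X = ∑ k ∈ range N, c k * 2 ^ (104 * pos k) ∧
    v = ∑ k ∈ range N, (c k : ℝ) * val k ∧ ∑ k ∈ range N, |c k| ≤ n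

section
variable {N : ℕ} {pos : ℕ → ℕ} {val : ℕ → ℝ} {X Y : ℤ} {v w : ℝ} {n n' : ℤ}

lemma Rp.add (h : Rp N pos val X v n) (h' : Rp N pos val Y w n') :
    Rp N pos val (X + Y) (v + w) (n + n') := by
  obtain ⟨c, h1, h2, h3⟩ := h
  obtain ⟨d, g1, g2, g3⟩ := h'
  refine ⟨fun k => c k + d k, ?_, ?_, ?_⟩
  · rw [h1, g1, ← sum_add_distrib]
    exact sum_congr rfl fun k _ => by ring
  · rw [h2, g2, ← sum_add_distrib]
    exact sum_congr rfl fun k _ => by push_cast; ring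
  · refine le_trans (sum_le_sum fun k _ => abs_add_le _ _) ?_
    rw [sum_add_distrib]
    exact add_le_add h3 g3

lemma Rp.zsmul (a : ℤ) (h : Rp N pos val X v n) : Rp N pos val (a * X) (a * v) (|a| * n) := by
  obtain ⟨c, h1, h2, h3⟩ := h
  refine ⟨fun k => a * c k, ?_, ?_, ?_⟩
  · rw [h1, mul_sum]
    exact sum_congr rfl fun k _ => by ring
  · rw [h2, mul_sum]
    exact sum_congr rfl fun k _ => by push_cast; ring
  · simp only [abs_mul]
    rw [← mul_sum]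
    exact mul_le_mul_of_nonneg_left h3 (abs_nonneg a)

lemma Rp.smul (a : ℕ) (h : Rp N pos val X v n) : Rp N pos val (a * X) (a * v) (a * n) := by
  simpa using h.zsmul a

lemma Rp.sub (h : Rp N pos val X v n) (h' : Rp N pos val Y w n') :
    Rp N pos val (X - Y) (v - w) (n + n') := by
  simpa [sub_eq_add_neg] using h.add (h'.zsmul (-1))

lemma Rp.nonneg (h : Rp N pos val X v n) : 0 ≤ n := by
  obtain ⟨c, -, -, h3⟩ := h
  exact (sum_nonneg fun k _ => abs_nonneg _).trans h3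

lemma Rp.of (h : Rp N pos val X v n) (h1 : Y = X) (h2 : w = v) (h3 : n ≤ n') :
    Rp N pos val Y w n' := by
  obtain ⟨c, g1, g2, g3⟩ := h
  exact ⟨c, h1.trans g1, h2.trans g2, g3.trans h3⟩

lemma Rp.single (pos : ℕ → ℕ) (val : ℕ → ℝ) {i : ℕ} (hi : i < N) (a : ℤ) :
    Rp N pos val (a * 2 ^ (104 * pos i)) (a * val i) |a| := by
  refine ⟨fun k => if k = i then a else 0, ?_, ?_, ?_⟩
  · rw [sum_eq_single i] <;> simp +contextual [hi]
  · rw [sum_eq_single i] <;> simp +contextual [hi]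
  · rw [sum_eq_single i] <;> simp +contextual [hi]

lemma Rp.sum {ι : Type} (s : Finset ι) (X : ι → ℤ) (v : ι → ℝ) (n : ι → ℤ)
    (h : ∀ i ∈ s, Rp N pos val (X i) (v i) (n i)) :
    Rp N pos val (∑ i ∈ s, X i) (∑ i ∈ s, v i) (∑ i ∈ s, n i) := by
  classical
  induction s using Finset.induction_on with
  | empty => exact ⟨fun _ => 0, by simp, by simp, by simp⟩
  | insert a s ha ih =>
    rw [sum_insert ha, sum_insert ha, sum_insert ha]
    exact (h a (mem_insert_self _ _)).add (ih fun i hi => h i (mem_insert_of_mem hi))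

end

/-- The positions of the variables. -/
def gol (i : ℕ) : ℕ := [0, 1, 4, 13, 28, 33, 47, 54, 64, 70, 72].getD i 0

def dec1 (k : ℕ) : ℕ := [0, 0, 1, 0, 0, 1, 0, 0, 2, 0, 0, 0, 0, 0, 1, 0, 0, 2, 0, 0, 0, 0, 0, 0, 0, 0, 3, 0, 0, 1, 0, 0, 2, 0, 1, 0, 0, 2, 0, 0, 0, 3, 0, 0, 0, 0, 3, 0, 1, 0, 0, 2, 0, 0, 0, 1, 4, 0, 2, 0, 3, 4, 0, 0, 0, 1, 5, 3, 2, 0, 0, 1, 0, 1, 2, 4, 2, 3, 0, 0, 5, 0, 4, 3, 0, 3, 0, 5, 0, 0, 0, 0, 4, 0, 6, 0, 0, 5, 4, 0, 4, 6, 0, 5, 0, 5, 0, 0, 7, 0, 0, 6, 0, 0, 0, 0, 0, 6, 7, 6, 0, 0, 0, 0, 7, 0, 7, 0, 8, 0, 0, 0, 0, 0, 8, 0, 8, 0, 0, 0, 9, 0, 9, 0, 10].getD k 0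

def dec2 (k : ℕ) : ℕ := [0, 1, 1, 0, 2, 2, 0, 0, 2, 0, 0, 0, 0, 3, 3, 0, 0, 3, 0, 0, 0, 0, 0, 0, 0, 0, 3, 0, 4, 4, 0, 0, 4, 5, 5, 0, 0, 5, 0, 0, 0, 4, 0, 0, 0, 0, 5, 6, 6, 0, 0, 6, 0, 0, 7, 7, 4, 0, 7, 0, 6, 5, 0, 0, 8, 8, 5, 7, 8, 0, 9, 9, 10, 10, 9, 6, 10, 8, 0, 0, 6, 0, 7, 9, 0, 10, 0, 7, 0, 0, 0, 0, 8, 0, 6, 0, 0, 8, 9, 0, 10, 7, 0, 9, 0, 10, 0, 0, 7, 0, 0, 8, 0, 0, 0, 0, 0, 9, 8, 10, 0, 0, 0, 0, 9, 0, 10, 0, 8, 0, 0, 0, 0, 0, 9, 0, 10, 0, 0, 0, 9, 0, 10, 0, 10].getD k 0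

/-- Linear forms in the variables `δ`. -/
abbrev Lin (δ : ℕ → ℝ) (X : ℤ) (v : ℝ) (n : ℤ) : Prop := Rp 11 gol δ X v n

/-- Forms in the monomials `m`. -/
abbrev Rep (m : ℕ → ℝ) (X : ℤ) (v : ℝ) (n : ℤ) : Prop := Rp 155 id m X v n

/-- The monomials `m` are the products of the variables `δ`. -/
structure MOK (δ m : ℕ → ℝ) : Prop where
  one : δ 0 = 1
  mul : ∀ i < 11, ∀ j < 11, m (gol i + gol j) = δ i * δ j
  le : ∀ k < 145, |m k| ≤ 1
  sq : ∀ k < 145, dec1 k = dec2 k → 0 ≤ m k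

lemma dec_spec : ∀ i < 11, ∀ j < 11, gol i + gol j < 145 ∧
    ((dec1 (gol i + gol j) = i ∧ dec2 (gol i + gol j) = j) ∨
      (dec1 (gol i + gol j) = j ∧ dec2 (gol i + gol j) = i)) := by decide +kernel

lemma exists_m {δ : ℕ → ℝ} (h0 : δ 0 = 1) (h1 : ∀ i, |δ i| ≤ 1) (f : ℕ → ℝ) :
    ∃ m, MOK δ m ∧ ∀ j, m (145 + j) = f j := by
  refine ⟨fun k => if k < 145 then δ (dec1 k) * δ (dec2 k) else f (k - 145), ⟨h0, ?_, ?_, ?_⟩, ?_⟩
  · intro i hi j hj
    obtain ⟨a, b⟩ := dec_spec i hi j hj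
    simp only [a, if_true]
    rcases b with ⟨b, c⟩ | ⟨b, c⟩ <;> rw [b, c]
    exact mul_comm _ _
  · intro k hk
    simp only [hk, if_true, abs_mul]
    exact mul_le_one₀ (h1 _) (abs_nonneg _) (h1 _)
  · intro k hk e
    simp only [hk, if_true, e]
    exact mul_self_nonneg _
  · intro j
    simp

lemma Lin.mul {δ m : ℕ → ℝ} (hm : MOK δ m) {X Y : ℤ} {v w : ℝ} {n n' : ℤ} (h : Lin δ X v n)
    (h' : Lin δ Y w n') : Rep m (X * Y) (v * w) (n * n') := by
  obtain ⟨c, h1, h2, h3⟩ := h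
  obtain ⟨d, g1, g2, g3⟩ := h'
  have key := Rp.sum (N := 155) (pos := id) (val := m) (range 11)
    (fun i => ∑ j ∈ range 11, c i * d j * 2 ^ (104 * id (gol i + gol j)))
    (fun i => ∑ j ∈ range 11, ((c i * d j : ℤ) : ℝ) * m (gol i + gol j))
    (fun i => ∑ j ∈ range 11, |c i * d j|) fun i hi =>
      Rp.sum (range 11) _ _ _ fun j hj => Rp.single id m
        ((dec_spec i (mem_range.1 hi) j (mem_range.1 hj)).1.trans (by norm_num)) _
  refine key.of ?_ ?_ ?_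
  · rw [h1, g1, sum_mul_sum]
    refine sum_congr rfl fun i _ => sum_congr rfl fun j _ => ?_
    rw [id, mul_add, pow_add]; ring
  · rw [h2, g2, sum_mul_sum]
    refine sum_congr rfl fun i hi => sum_congr rfl fun j hj => ?_
    rw [hm.mul i (mem_range.1 hi) j (mem_range.1 hj)]; push_cast; ring
  · simp only [abs_mul]
    rw [← sum_mul_sum]
    exact mul_le_mul h3 g3 (sum_nonneg fun k _ => abs_nonneg _)
      ((sum_nonneg fun k _ => abs_nonneg _).trans h3)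

lemma Lin.const {δ : ℕ → ℝ} (h0 : δ 0 = 1) (a : ℤ) : Lin δ a a |a| :=
  (Rp.single (N := 11) gol δ (i := 0) (by norm_num) a).of (by simp [gol]) (by simp [h0]) le_rfl

lemma Lin.nat {δ : ℕ → ℝ} (h0 : δ 0 = 1) (a : ℕ) : Lin δ a a a := by
  simpa using Lin.const h0 a

lemma Lin.rep {δ m : ℕ → ℝ} (hm : MOK δ m) {X : ℤ} {v : ℝ} {n : ℤ} (h : Lin δ X v n) :
    Rep m X v n := by
  simpa using h.mul hm (Lin.const hm.one 1)

/-- The digits in base `2 ^ 104`. -/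
def dig (y k : ℕ) : ℕ := y / 2 ^ (104 * k) % 2 ^ 104

lemma dig_sum (y n : ℕ) : y % 2 ^ (104 * n) = ∑ k ∈ range n, dig y k * 2 ^ (104 * k) := by
  induction n with
  | zero => simp [Nat.mod_one]
  | succ n ih =>
    rw [sum_range_succ, ← ih, dig, pow_mul, pow_mul, Nat.mod_pow_succ, mul_comm]

lemma dig_land (t M k : ℕ) : dig (Nat.land t M) k ≤ dig M k := by
  unfold dig
  rw [Nat.land_eq, Nat.and_div_two_pow, Nat.and_mod_two_pow]
  exact Nat.and_le_right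

lemma dig_eq {t M : ℕ} (hM : M < 2 ^ (104 * 145)) :
    Nat.land t M = ∑ k ∈ range 145, dig (Nat.land t M) k * 2 ^ (104 * k) := by
  rw [← dig_sum, Nat.mod_eq_of_lt]
  exact lt_of_le_of_lt Nat.and_le_right hM

lemma dig_unique (n : ℕ) : ∀ d : ℕ → ℤ, (∀ k < n, |d k| < 2 ^ 104) →
    ∑ k ∈ range n, d k * 2 ^ (104 * k) = 0 → ∀ k < n, d k = 0 := by
  induction n with
  | zero => intro d _ _ k hk; omega
  | succ n ih =>
    intro d h1 h2
    rw [sum_range_succ'] at h2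
    have e : ∑ k ∈ range n, d (k + 1) * 2 ^ (104 * (k + 1)) =
        2 ^ 104 * ∑ k ∈ range n, d (k + 1) * 2 ^ (104 * k) := by
      rw [mul_sum]
      refine sum_congr rfl fun k _ => ?_
      rw [mul_add, pow_add]; ring
    rw [e, mul_zero, pow_zero, mul_one] at h2
    have h0 : d 0 = 0 := by
      refine Int.eq_zero_of_abs_lt_dvd (m := 2 ^ 104) ?_ (h1 0 (Nat.succ_pos n))
      exact ⟨-∑ k ∈ range n, d (k + 1) * 2 ^ (104 * k), by linarith⟩
    rw [h0, add_zero] at h2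
    have h3 := ih (fun k => d (k + 1)) (fun k hk => h1 _ (by omega))
      ((mul_eq_zero.1 h2).resolve_left (by positivity))
    intro k hk
    cases k with
    | zero => exact h0
    | succ k => exact h3 k (by omega)

lemma dig_mod (n : ℕ) (d : ℕ → ℕ) :
    ∑ k ∈ range n, d k * 2 ^ (104 * k) ≡ ∑ k ∈ range n, d k [MOD (2 ^ 104 - 1)] := by
  induction n with
  | zero => rfl
  | succ n ih =>
    rw [sum_range_succ, sum_range_succ]
    refine ih.add ?_
    have h : 2 ^ 104 ≡ 1 [MOD (2 ^ 104 - 1)] := by decide +kernel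
    have h2 := (h.pow n).mul_left (d n)
    rwa [one_pow, mul_one, ← pow_mul] at h2

lemma mask_spec : (cMns < 2 ^ (104 * 145) ∧ cMsq < 2 ^ (104 * 145) ∧ cMall < 2 ^ (104 * 145)) ∧
    ∀ k < 145, dig cMns k < 2 ^ 92 ∧ dig cMsq k < 2 ^ 92 ∧ dig cMall k < 2 ^ 92 ∧
      (dig cMsq k = 0 ∨ dec1 k = dec2 k) := by decide +kernel

lemma dig_term {a b n m : ℝ} (ha : 0 ≤ a) (hn : 0 ≤ n) (h1 : -1 ≤ m) (h2 : m ≤ 1) :
    b * m - (a + n) ≤ (a + b - n) * m := by nlinarith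

lemma lbC_sound {δ m : ℕ → ℝ} (hm : MOK δ m) {P N thr t1 t2 t3 : ℕ} {v : ℝ} {n : ℤ}
    (h : Rep m ((P : ℤ) - N) v n) (hn : n ≤ 2 ^ 103)
    (hc : lbC P N thr (Nat.land t1 cMns) (Nat.land t2 cMsq) (Nat.land t3 cMall) = true) :
    (thr : ℝ) ≤ v := by
  obtain ⟨⟨m1, m2, m3⟩, md⟩ := mask_spec
  have ea := dig_eq (t := t1) m1
  have eb := dig_eq (t := t2) m2
  have en := dig_eq (t := t3) m3
  clear m1 m2 m3
  have la := fun k => dig_land t1 cMns k
  have lb := fun k => dig_land t2 cMsq k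
  have ln := fun k => dig_land t3 cMall k
  generalize Nat.land t1 cMns = ya at *
  generalize Nat.land t2 cMsq = yb at *
  generalize Nat.land t3 cMall = yn at *
  unfold lbC at hc
  have h1 : P + yn = N + (ya + yb) := by
    cases hb : Nat.beq (Nat.add P yn) (Nat.add N (Nat.add ya yb))
    · rw [hb] at hc; exact absurd hc (by simp)
    · exact Nat.eq_of_beq_eq_true hb
  have h2 : thr + (ya + yn) % (2 ^ 104 - 1) ≤ yb % 2 ^ 104 := by
    have hb : Nat.beq (Nat.add P yn) (Nat.add N (Nat.add ya yb)) = true := Nat.beq_eq ▸ h1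
    rw [hb] at hc
    exact Nat.le_of_ble_eq_true hc
  have hb0 : yb % 2 ^ 104 = dig yb 0 := by simp [dig]
  have hs : (ya + yn) % (2 ^ 104 - 1) = ∑ k ∈ range 145, (dig ya k + dig yn k) := by
    have e : ya + yn = ∑ k ∈ range 145, (dig ya k + dig yn k) * 2 ^ (104 * k) := by
      simp only [add_mul]
      rw [sum_add_distrib, ← ea, ← en]
    have e2 := dig_mod 145 fun k => dig ya k + dig yn k
    rw [← e] at e2
    rw [e2, Nat.mod_eq_of_lt]
    refine lt_of_le_of_lt (sum_le_card_nsmul _ _ (2 ^ 93) fun k hk => ?_) (by simp)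
    have := md k (mem_range.1 hk)
    have := la k
    have := ln k
    omega
  obtain ⟨c, c1, c2, c3⟩ := h
  have hck : ∀ k < 155, |c k| ≤ 2 ^ 103 := fun k hk =>
    ((single_le_sum (f := fun k => |c k|) (fun k _ => abs_nonneg _) (mem_range.2 hk)).trans c3).trans hn
  set d : ℕ → ℤ := fun k => if k < 145 then (dig ya k : ℤ) + dig yb k - dig yn k else 0 with hd
  have split : ∀ {R : Type} [CommRing R] (f : ℕ → R),
      ∑ k ∈ range 155, (d k : R) * f k =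
        ∑ k ∈ range 145, ((dig ya k : R) + dig yb k - dig yn k) * f k := by
    intro R _ f
    rw [show 155 = 145 + 10 from rfl, sum_range_add]
    rw [sum_eq_zero (s := range 10) fun k _ => by simp [hd], add_zero]
    refine sum_congr rfl fun k hk => ?_
    simp [hd, mem_range.1 hk]
  have e0 : ∑ k ∈ range 155, (c k - d k) * 2 ^ (104 * k) = 0 := by
    simp only [sub_mul]
    rw [sum_sub_distrib]
    have := split (R := ℤ) fun k => 2 ^ (104 * k)
    simp only [Int.cast_id] at this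
    rw [this]
    simp only [id] at c1
    rw [← c1]
    simp only [sub_mul, add_mul]
    rw [sum_sub_distrib, sum_add_distrib]
    have a1 := congrArg (Nat.cast : ℕ → ℤ) ea
    have a2 := congrArg (Nat.cast : ℕ → ℤ) eb
    have a3 := congrArg (Nat.cast : ℕ → ℤ) en
    have a4 := congrArg (Nat.cast : ℕ → ℤ) h1
    push_cast at a1 a2 a3 a4
    rw [← a1, ← a2, ← a3]
    linarith
  have e1 := dig_unique 155 (fun k => c k - d k) (fun k hk => by
    have := abs_le.1 (hck k hk)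
    rw [abs_lt]
    by_cases h : k < 145
    · have := md k h
      have := la k
      have := lb k
      have := ln k
      simp only [hd, h, if_true]
      omega
    · simp only [hd, h, if_false]
      omega) e0
  have e2 : v = ∑ k ∈ range 145, ((dig ya k : ℝ) + dig yb k - dig yn k) * m k := by
    rw [c2, ← split (R := ℝ) m]
    refine sum_congr rfl fun k hk => ?_
    rw [sub_eq_zero.1 (e1 k (mem_range.1 hk))]
  have m0 : m 0 = 1 := by
    have := hm.mul 0 (by norm_num) 0 (by norm_num)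
    rwa [hm.one, mul_one] at this
  have e3 : (dig yb 0 : ℝ) ≤ ∑ k ∈ range 145, (dig yb k : ℝ) * m k := by
    refine le_trans (by rw [m0, mul_one]) (single_le_sum (f := fun k => (dig yb k : ℝ) * m k)
      (fun k hk => ?_) (mem_range.2 (by norm_num : 0 < 145)))
    rcases (md k (mem_range.1 hk)).2.2.2 with h | h
    · have := lb k
      rw [show dig yb k = 0 by omega]
      simp
    · exact mul_nonneg (Nat.cast_nonneg _) (hm.sq k (mem_range.1 hk) h)
  have e4 : ∑ k ∈ range 145, ((dig yb k : ℝ) * m k - ((dig ya k + dig yn k : ℕ) : ℝ)) ≤ v := by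
    rw [e2]
    refine sum_le_sum fun k hk => ?_
    obtain ⟨b1, b2⟩ := abs_le.1 (hm.le k (mem_range.1 hk))
    have p1 : (0 : ℝ) ≤ dig ya k := Nat.cast_nonneg _
    have p2 : (0 : ℝ) ≤ dig yn k := Nat.cast_nonneg _
    push_cast
    exact dig_term p1 p2 b1 b2
  rw [sum_sub_distrib, ← Nat.cast_sum, ← hs] at e4
  rw [hb0] at h2
  have h3 : (thr : ℝ) + (((ya + yn) % (2 ^ 104 - 1) : ℕ) : ℝ) ≤ dig yb 0 := by exact_mod_cast h2
  linarith

lemma lowb_sound {δ m : ℕ → ℝ} (hm : MOK δ m) {off one P N thr : ℕ} {v : ℝ} {n : ℤ}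
    (h : Rep m ((P : ℤ) - N) v n) (hn : n ≤ 2 ^ 103) (hc : lowb off one P N thr = true) :
    (thr : ℝ) ≤ v := by
  simp only [lowb, lbB, force_eq] at hc
  exact lbC_sound hm h hn hc

end Pool.Agent.Lib.MP_4662c0_co.Low
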