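import Pool.Agent.Lib.MP_4662c0_co.LLeaf

set_option autoImplicit false

/-! Soundness of the lower bound checker. -/

namespace Pool.Agent.Lib.MP_4662c0_co.Low

open Real MeasureTheory

/-- The parameters lie in the box. -/
def In (o : Ob) (X Y s : ℝ) : Prop :=
  (o.xl : ℝ) ≤ X ∧ X ≤ o.xh ∧ (o.yl : ℝ) ≤ Y ∧ Y ≤ o.yh ∧ (o.sl : ℝ) ≤ s ∧ s ≤ o.sh

/-- The segment lies in `K`. -/
def SIn (K : Set ℂ) (X Y : ℝ) : Prop :=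
  (⟨2 * X - 3355443200, 2 * Y - 6710886400⟩ : ℂ) ∈ K ∧
    (⟨2 * X - 10066329600, 2 * Y - 6710886400⟩ : ℂ) ∈ K

/-- The rectangle lies in `K`. -/
def RIn (K : Set ℂ) (a b X Y C s : ℝ) : Prop :=
  0 ≤ C ∧ C ^ 2 + (s - 11878400) ^ 2 = 16777216 ^ 2 ∧ rv X Y C s a b ∈ K ∧
    rv X Y C s (-a) b ∈ K ∧ rv X Y C s (-a) (-b) ∈ K ∧ rv X Y C s a (-b) ∈ K

/-- All placements in the boxes force a large area. -/
def Cov (a b thr : ℕ) (o0 o1 o2 : Ob) : Prop :=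
  a + b = 100 → ∀ K : Set ℂ, Good K → ∀ X0 Y0 s0 X1 Y1 C1 s1 X2 Y2 C2 s2 : ℝ,
    In o0 X0 Y0 s0 → In o1 X1 Y1 s1 → In o2 X2 Y2 s2 → SIn K X0 Y0 → RIn K a b X1 Y1 C1 s1 →
      RIn K 50 50 X2 Y2 C2 s2 → (thr : ℝ) ≤ 65535 * (2 * (volume K).toReal)

lemma wm2_spec {H a b nu P N X Y c c' s s' : ℕ} {l : List (ℕ × ℕ)}
    {k : List (ℕ × ℕ) → ℕ → ℕ → Bool} (h : wm2 H a b nu l P N k X Y c c' s s' = true) :
    k (quad a b X Y c c' s s' l) (Nat.add P (nuP nu c c' s s')) (Nat.add N (Nat.mul nu H)) = true := by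
  simpa only [wm2, force_eq] using h

lemma wm_spec {ex ey e1 e2 C D H a b nu P N xl xh yl yh sl sh c1 c2 : ℕ} {l : List (ℕ × ℕ)}
    {k : List (ℕ × ℕ) → ℕ → ℕ → Bool}
    (h : wm ex ey e1 e2 C D H a b nu l P N k xl xh yl yh sl sh c1 c2 = true) :
    xh + yh ≤ 13421772800 ∧
      zf e1 e2 D sl sh c1 c2 (wm2 H a b nu l P N k (tF ex C xl xh) (tF ey C yl yh)) = true := by
  simpa only [wm, force_eq, brec, Nat.ble_eq, Nat.add_eq] using h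

/-- The effect of adding a rectangle. -/
lemma wm_sem {ex ey e1 e2 C a b nu P N xl xh yl yh sl sh c1 c2 : ℕ} {l : List (ℕ × ℕ)}
    {k : List (ℕ × ℕ) → ℕ → ℕ → Bool} {X Y Cs s : ℝ} (hab : a + b = 100) (hnu : nu ≤ 4294967295)
    (hI : In ⟨xl, xh, yl, yh, sl, sh, c1, c2⟩ X Y s) (hC : 0 ≤ Cs)
    (hz : Cs ^ 2 + (s - 11878400) ^ 2 = 16777216 ^ 2)
    (h : wm ex ey e1 e2 C (2 * gN e1 e2) (2 * (gN e1 e2 * gN e1 e2)) a b nu l P N k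
      xl xh yl yh sl sh c1 c2 = true) :
    ∃ (l' : List (ℕ × ℕ)) (P' N' : ℕ) (d1 d2 d3 d4 : ℝ), k l' P' N' = true ∧ |d1| ≤ 1 ∧ |d2| ≤ 1 ∧
      |d3| ≤ 1 ∧ |d4| ≤ 1 ∧ ∀ (δ m : ℕ → ℝ) (q : ℕ → ℂ) (i j : ℕ), MOK δ m → i + 3 < 11 →
        j + 3 < 10 → ex = 104 * gol i → ey = 104 * gol (i + 1) → e1 = 104 * gol (i + 2) →
        e2 = 104 * gol (i + 3) → δ i = d1 → δ (i + 1) = d2 → δ (i + 2) = d3 → δ (i + 3) = d4 →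
        Lin δ C (ov δ - 6710886400 - 100 * gv δ (i + 2) (i + 3)) 20132659200 →
        q j = rv X Y Cs s a b → q (j + 1) = rv X Y Cs s (-a) b →
        q (j + 2) = rv X Y Cs s (-a) (-b) → q (j + 3) = rv X Y Cs s a (-b) →
        (LOK δ q (j + 4) l → LOK δ q j l') ∧
          ∀ v n, Rep m ((P : ℤ) - N) v n → Rep m ((P' : ℤ) - N') v (n + 2 ^ 91) := by
  obtain ⟨i1, i2, i3, i4, i5, i6⟩ := hI
  dsimp only at i1 i2 i3 i4 i5 i6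
  obtain ⟨h1, h2⟩ := wm_spec h
  obtain ⟨H, c, t, z, ec, et, b1, b2, h3⟩ := zf_spec h2
  obtain ⟨d1, p1, p2⟩ := exists_par i1 i2
  obtain ⟨d2, p3, p4⟩ := exists_par i3 i4
  obtain ⟨d3, d4, p5, p6, p7, p8⟩ := zf_real z i5 i6 hC hz
  refine ⟨_, _, _, d1, d2, d3, d4, wm2_spec h3, p1, p3, p5, p6, ?_⟩
  intro δ m q i j hm hi hj e1' e2' e3 e4 f1 f2 f3 f4 hL q0 q1 q2 q3
  subst f1 f2 f3 f4
  have hg := lin_g hm.one (i := i + 2) (j := i + 3) (by omega) hi e3 e4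
  have lc := lin_zC hm.one (i := i + 2) (j := i + 3) (by omega) hi e3 e4 z p8
  have ls := lin_zS hm.one (i := i + 2) (j := i + 3) (by omega) hi e3 e4 z
    (by exact_mod_cast i5.trans i6) p7
  rw [← ec] at lc
  rw [← et] at ls
  have lc' := lin_neg hg lc b1
  have ls' := lin_neg hg ls b2
  have lX := lin_tF hm.one (i := i) (by omega) e1' hL (by exact_mod_cast i1.trans i2)
    (by omega) p2
  have lY := lin_tF hm.one (i := i + 1) (by omega) e2' hL (by exact_mod_cast i3.trans i4)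
    (by omega) p4
  exact ⟨quad_ok hab hj (lX.of rfl rfl (by norm_num)) (lY.of rfl rfl (by norm_num)) lc lc' ls ls'
    q0 q1 q2 q3, fun v n r => nu_rep hm hg lc lc' ls ls' hz hnu r⟩

lemma exists_delta {d1 d2 d3 d4 d5 d6 d7 d8 d9 d10 : ℝ} (h1 : |d1| ≤ 1) (h2 : |d2| ≤ 1)
    (h3 : |d3| ≤ 1) (h4 : |d4| ≤ 1) (h5 : |d5| ≤ 1) (h6 : |d6| ≤ 1) (h7 : |d7| ≤ 1)
    (h8 : |d8| ≤ 1) (h9 : |d9| ≤ 1) (h10 : |d10| ≤ 1) :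
    ∃ δ : ℕ → ℝ, (∀ i, |δ i| ≤ 1) ∧ δ 0 = 1 ∧ δ 1 = d1 ∧ δ 2 = d2 ∧ δ 3 = d3 ∧ δ 4 = d4 ∧
      δ 5 = d5 ∧ δ 6 = d6 ∧ δ 7 = d7 ∧ δ 8 = d8 ∧ δ 9 = d9 ∧ δ 10 = d10 := by
  refine ⟨fun i => [1, d1, d2, d3, d4, d5, d6, d7, d8, d9, d10].getD i 0, fun i => ?_,
    rfl, rfl, rfl, rfl, rfl, rfl, rfl, rfl, rfl, rfl, rfl⟩
  rcases i with _ | _ | _ | _ | _ | _ | _ | _ | _ | _ | _ | i <;> simp [*]

lemma exists_pts {K : Set ℂ} {p0 p1 p2 p3 p4 p5 p6 p7 p8 p9 : ℂ} (h : (0 : ℂ) ∈ K) (h0 : p0 ∈ K)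
    (h1 : p1 ∈ K) (h2 : p2 ∈ K) (h3 : p3 ∈ K) (h4 : p4 ∈ K) (h5 : p5 ∈ K) (h6 : p6 ∈ K)
    (h7 : p7 ∈ K) (h8 : p8 ∈ K) (h9 : p9 ∈ K) :
    ∃ q : ℕ → ℂ, (∀ i, q i ∈ K) ∧ q 0 = p0 ∧ q 1 = p1 ∧ q 2 = p2 ∧ q 3 = p3 ∧ q 4 = p4 ∧
      q 5 = p5 ∧ q 6 = p6 ∧ q 7 = p7 ∧ q 8 = p8 ∧ q 9 = p9 := by
  refine ⟨fun i => [p0, p1, p2, p3, p4, p5, p6, p7, p8, p9].getD i 0, fun i => ?_,
    rfl, rfl, rfl, rfl, rfl, rfl, rfl, rfl, rfl, rfl⟩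
  rcases i with _ | _ | _ | _ | _ | _ | _ | _ | _ | _ | i <;> simp [*]

lemma lf1_spec {a b thr Y xl xh yl yh sl sh c1 c2 : ℕ} {o1 o2 : Ob}
    (h : lf1 a b thr Y o1 o2 xl xh yl yh sl sh c1 c2 = true) :
    xh + yh ≤ 13421772800 ∧ lf2 a b thr Y o1 o2 (Nat.land Y 255)
      [(tF 104 cSp xl xh, tF 416 cOp yl yh), (tF 104 cSm xl xh, tF 416 cOp yl yh)] = true := by
  simpa only [lf1, force_eq, brec, Nat.ble_eq, Nat.add_eq] using h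

lemma lf2_spec {a b thr Y k0 xl xh yl yh sl sh c1 c2 xl' xh' yl' yh' sl' sh' c1' c2' : ℕ}
    {l : List (ℕ × ℕ)}
    (h : lf2 a b thr Y ⟨xl, xh, yl, yh, sl, sh, c1, c2⟩ ⟨xl', xh', yl', yh', sl', sh', c1', c2'⟩
      k0 l = true) :
    wm 1352 2912 3432 4888 cC1 cD1 cH1 a b (Nat.land (Nat.shiftRight Y 14) 4294967295) l
      (Nat.mul 65535 (tS (tR (Nat.add k0 256)))) (Nat.mul 65535 (tS (tR k0)))
      (fun l P N => wm 5616 6656 7280 7488 cC2 cD2 cH2 50 50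
        (Nat.land (Nat.shiftRight Y 46) 4294967295) l P N (lf3 thr Y k0)
        xl' xh' yl' yh' sl' sh' c1' c2') xl xh yl yh sl sh c1 c2 = true := h

lemma leaf_sound {a b thr Y : ℕ} {o0 o1 o2 : Ob} (h : leaf a b thr Y o0 o1 o2 = true) :
    Cov a b thr o0 o1 o2 := by
  intro hab K hK X0 Y0 s0 X1 Y1 C1 s1 X2 Y2 C2 s2 I0 I1 I2 S0 R1 R2
  obtain ⟨xl0, xh0, yl0, yh0, sl0, sh0, a0, b0⟩ := o0
  obtain ⟨xl1, xh1, yl1, yh1, sl1, sh1, a1, b1⟩ := o1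
  obtain ⟨xl2, xh2, yl2, yh2, sl2, sh2, a2, b2⟩ := o2
  obtain ⟨h1, h2⟩ := lf1_spec (sl := sl0) (sh := sh0) (c1 := a0) (c2 := b0) h
  have hk : Nat.land Y 255 < 256 := Nat.lt_succ_of_le Nat.and_le_right
  generalize Nat.land Y 255 = k0 at h2 hk
  have h3 := lf2_spec h2
  obtain ⟨k1, k2, -, -, -, -, -, -, k3, k4⟩ := const_chk
  rw [k1, k2, k3, k4] at h3
  clear k1 k2 k3 k4
  obtain ⟨i1, i2, i3, i4, -, -⟩ := I0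
  dsimp only at i1 i2 i3 i4
  obtain ⟨r1, r2, r3, r4, r5, r6⟩ := R1
  obtain ⟨u1, u2, u3, u4, u5, u6⟩ := R2
  obtain ⟨l1, P1, N1, d3, d4, d5, d6, h4, e3, e4, e5, e6, w1⟩ :=
    wm_sem hab Nat.and_le_right I1 r1 r2 h3
  obtain ⟨l2, P2, N2, d7, d8, d9, d10, h5, e7, e8, e9, e10, w2⟩ :=
    wm_sem (a := 50) (b := 50) rfl Nat.and_le_right I2 u1 u2 h4
  obtain ⟨d1, e1, p1⟩ := exists_par i1 i2
  obtain ⟨d2, e2, p2⟩ := exists_par i3 i4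
  obtain ⟨δ, f, f0, f1, f2, f3, f4, f5, f6, f7, f8, f9, f10⟩ :=
    exists_delta e1 e2 e3 e4 e5 e6 e7 e8 e9 e10
  obtain ⟨q, g, g0, g1, g2, g3, g4, g5, g6, g7, g8, g9⟩ :=
    exists_pts hK.zero u3 u4 u5 u6 r3 r4 r5 r6 S0.1 S0.2
  obtain ⟨m, hm, mk⟩ := exists_m f0 f fun j => -(Gp K k0 (q j) + ov δ * ((q j).im - (q j).re))
  obtain ⟨x1, y1⟩ := w1 δ m q 3 4 hm (by norm_num) (by norm_num) rfl rfl rfl rfl f3 f4 f5 f6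
    (lin_C1 f0) g4 g5 g6 g7
  obtain ⟨x2, y2⟩ := w2 δ m q 7 0 hm (by norm_num) (by norm_num) rfl rfl rfl rfl f7 f8 f9 f10
    (lin_C2 f0) (by simpa using g0) (by simpa using g1) (by simpa using g2) (by simpa using g3)
  have hx : xl0 ≤ xh0 := by exact_mod_cast i1.trans i2
  have hy : yl0 ≤ yh0 := by exact_mod_cast i3.trans i4
  rw [← f1] at p1
  rw [← f2] at p2
  have ly := lin_tF f0 (i := 2) (e := 416) (by norm_num) rfl (lin_Op f0) hy (by omega) p2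
  have lp := lin_tF f0 (i := 1) (e := 104) (by norm_num) rfl (lin_Sp f0) hx (by omega) p1
  have lm := lin_tF f0 (i := 1) (e := 104) (by norm_num) rfl (lin_Sm f0) hx (by omega) p1
  refine lf3_spec ⟨hK, hm, g, mk, hk⟩ (x2 (x1 ⟨by norm_num, lp.of rfl ?_ (by norm_num),
    ly.of rfl ?_ (by norm_num), by norm_num, lm.of rfl ?_ (by norm_num),
    ly.of rfl ?_ (by norm_num), trivial⟩)) ?_ h5
  · rw [g8]; ring
  · rw [g8]; ring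
  · rw [g9]; ring
  · rw [g9]; ring
  · have t1 := tS_le (k0 + 256)
    have t2 := tS_le k0
    refine (y2 _ _ (y1 _ _ (((((Lin.nat f0 (tS (tR (k0 + 256)))).smul 65535).sub
      ((Lin.nat f0 (tS (tR k0))).smul 65535)).rep hm).of ?_ rfl le_rfl))).of rfl ?_ ?_
    · simp only [Nat.add_eq, Nat.mul_eq]
      push_cast; rfl
    · push_cast; rfl
    · omega

section
variable {a b thr xl xh yl yh sl sh c1 c2 c m : ℕ} {o o' : Ob}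

lemma In.x {X Y s : ℝ} (m : ℕ) (h : In ⟨xl, xh, yl, yh, sl, sh, c1, c2⟩ X Y s) :
    In ⟨xl, m, yl, yh, sl, sh, c1, c2⟩ X Y s ∨ In ⟨m, xh, yl, yh, sl, sh, c1, c2⟩ X Y s := by
  obtain ⟨h1, h2, h3⟩ := h
  rcases le_total X m with h | h
  · exact Or.inl ⟨h1, h, h3⟩
  · exact Or.inr ⟨h, h2, h3⟩

lemma In.y {X Y s : ℝ} (m : ℕ) (h : In ⟨xl, xh, yl, yh, sl, sh, c1, c2⟩ X Y s) :
    In ⟨xl, xh, yl, m, sl, sh, c1, c2⟩ X Y s ∨ In ⟨xl, xh, m, yh, sl, sh, c1, c2⟩ X Y s := by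
  obtain ⟨h1, h2, h3, h4, h5⟩ := h
  rcases le_total Y m with h | h
  · exact Or.inl ⟨h1, h2, h3, h, h5⟩
  · exact Or.inr ⟨h1, h2, h, h4, h5⟩

lemma In.s {X Y s : ℝ} (m c : ℕ) (h : In ⟨xl, xh, yl, yh, sl, sh, c1, c2⟩ X Y s) :
    In ⟨xl, xh, yl, yh, sl, m, c1, c⟩ X Y s ∨ In ⟨xl, xh, yl, yh, m, sh, c, c2⟩ X Y s := by
  obtain ⟨h1, h2, h3, h4, h5, h6⟩ := h
  rcases le_total s m with h | h
  · exact Or.inl ⟨h1, h2, h3, h4, h5, h⟩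
  · exact Or.inr ⟨h1, h2, h3, h4, h, h6⟩

lemma Cov.s0 {p l r : Ob} (h : ∀ X Y s, In p X Y s → In l X Y s ∨ In r X Y s)
    (h1 : Cov a b thr l o o') (h2 : Cov a b thr r o o') : Cov a b thr p o o' :=
  fun hab K hK X0 Y0 s0 X1 Y1 C1 s1 X2 Y2 C2 s2 I0 I1 I2 S0 R1 R2 =>
    (h _ _ _ I0).elim (fun I => h1 hab K hK X0 Y0 s0 X1 Y1 C1 s1 X2 Y2 C2 s2 I I1 I2 S0 R1 R2)
      fun I => h2 hab K hK X0 Y0 s0 X1 Y1 C1 s1 X2 Y2 C2 s2 I I1 I2 S0 R1 R2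

lemma Cov.s1 {p l r : Ob} (h : ∀ X Y s, In p X Y s → In l X Y s ∨ In r X Y s)
    (h1 : Cov a b thr o l o') (h2 : Cov a b thr o r o') : Cov a b thr o p o' :=
  fun hab K hK X0 Y0 s0 X1 Y1 C1 s1 X2 Y2 C2 s2 I0 I1 I2 S0 R1 R2 =>
    (h _ _ _ I1).elim (fun I => h1 hab K hK X0 Y0 s0 X1 Y1 C1 s1 X2 Y2 C2 s2 I0 I I2 S0 R1 R2)
      fun I => h2 hab K hK X0 Y0 s0 X1 Y1 C1 s1 X2 Y2 C2 s2 I0 I I2 S0 R1 R2

lemma Cov.s2 {p l r : Ob} (h : ∀ X Y s, In p X Y s → In l X Y s ∨ In r X Y s)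
    (h1 : Cov a b thr o o' l) (h2 : Cov a b thr o o' r) : Cov a b thr o o' p :=
  fun hab K hK X0 Y0 s0 X1 Y1 C1 s1 X2 Y2 C2 s2 I0 I1 I2 S0 R1 R2 =>
    (h _ _ _ I2).elim (fun I => h1 hab K hK X0 Y0 s0 X1 Y1 C1 s1 X2 Y2 C2 s2 I0 I1 I S0 R1 R2)
      fun I => h2 hab K hK X0 Y0 s0 X1 Y1 C1 s1 X2 Y2 C2 s2 I0 I1 I S0 R1 R2

theorem Cov.p0 (h1 : Cov a b thr ⟨xl, m, yl, yh, sl, sh, c1, c2⟩ o o')
    (h2 : Cov a b thr ⟨m, xh, yl, yh, sl, sh, c1, c2⟩ o o') :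
    Cov a b thr ⟨xl, xh, yl, yh, sl, sh, c1, c2⟩ o o' := Cov.s0 (fun _ _ _ => In.x m) h1 h2

theorem Cov.p1 (h1 : Cov a b thr ⟨xl, xh, yl, m, sl, sh, c1, c2⟩ o o')
    (h2 : Cov a b thr ⟨xl, xh, m, yh, sl, sh, c1, c2⟩ o o') :
    Cov a b thr ⟨xl, xh, yl, yh, sl, sh, c1, c2⟩ o o' := Cov.s0 (fun _ _ _ => In.y m) h1 h2

theorem Cov.q0 (h1 : Cov a b thr o ⟨xl, m, yl, yh, sl, sh, c1, c2⟩ o')
    (h2 : Cov a b thr o ⟨m, xh, yl, yh, sl, sh, c1, c2⟩ o') :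
    Cov a b thr o ⟨xl, xh, yl, yh, sl, sh, c1, c2⟩ o' := Cov.s1 (fun _ _ _ => In.x m) h1 h2

theorem Cov.q1 (h1 : Cov a b thr o ⟨xl, xh, yl, m, sl, sh, c1, c2⟩ o')
    (h2 : Cov a b thr o ⟨xl, xh, m, yh, sl, sh, c1, c2⟩ o') :
    Cov a b thr o ⟨xl, xh, yl, yh, sl, sh, c1, c2⟩ o' := Cov.s1 (fun _ _ _ => In.y m) h1 h2

theorem Cov.q2 (h1 : Cov a b thr o ⟨xl, xh, yl, yh, sl, m, c1, c⟩ o')
    (h2 : Cov a b thr o ⟨xl, xh, yl, yh, m, sh, c, c2⟩ o') :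
    Cov a b thr o ⟨xl, xh, yl, yh, sl, sh, c1, c2⟩ o' := Cov.s1 (fun _ _ _ => In.s m c) h1 h2

theorem Cov.r0 (h1 : Cov a b thr o o' ⟨xl, m, yl, yh, sl, sh, c1, c2⟩)
    (h2 : Cov a b thr o o' ⟨m, xh, yl, yh, sl, sh, c1, c2⟩) :
    Cov a b thr o o' ⟨xl, xh, yl, yh, sl, sh, c1, c2⟩ := Cov.s2 (fun _ _ _ => In.x m) h1 h2

theorem Cov.r1 (h1 : Cov a b thr o o' ⟨xl, xh, yl, m, sl, sh, c1, c2⟩)
    (h2 : Cov a b thr o o' ⟨xl, xh, m, yh, sl, sh, c1, c2⟩) :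
    Cov a b thr o o' ⟨xl, xh, yl, yh, sl, sh, c1, c2⟩ := Cov.s2 (fun _ _ _ => In.y m) h1 h2

theorem Cov.r2 (h1 : Cov a b thr o o' ⟨xl, xh, yl, yh, sl, m, c1, c⟩)
    (h2 : Cov a b thr o o' ⟨xl, xh, yl, yh, m, sh, c, c2⟩) :
    Cov a b thr o o' ⟨xl, xh, yl, yh, sl, sh, c1, c2⟩ := Cov.s2 (fun _ _ _ => In.s m c) h1 h2

end

/-- A splitting procedure is correct. -/
def UpOK (u : Up) : Prop := ∀ (k : Ob → Ob → Bool) (xl xh yl yh sl sh c1 c2 : ℕ),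
  u k xl xh yl yh sl sh c1 c2 = true → ∃ l r, k l r = true ∧
    ∀ X Y s, In ⟨xl, xh, yl, yh, sl, sh, c1, c2⟩ X Y s → In l X Y s ∨ In r X Y s

lemma upX_ok : UpOK upX := by
  intro k xl xh yl yh sl sh c1 c2 h
  simp only [upX, force_eq] at h
  exact ⟨_, _, h, fun _ _ _ => In.x _⟩

lemma upY_ok : UpOK upY := by
  intro k xl xh yl yh sl sh c1 c2 h
  simp only [upY, force_eq] at h
  exact ⟨_, _, h, fun _ _ _ => In.y _⟩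

lemma sqr_spec {k : ℕ → Bool} {N : ℕ} (h : sqr k N = true) : ∃ c, k c = true := by
  simp only [sqr, force_eq] at h
  exact ⟨_, h⟩

lemma upS_ok : UpOK upS := by
  intro k xl xh yl yh sl sh c1 c2 h
  simp only [upS, force_eq] at h
  obtain ⟨c, hc⟩ := sqr_spec h
  exact ⟨_, _, hc, fun _ _ _ => In.s _ _⟩

section
variable {a b thr : ℕ} {u : Up} {t1 t2 : Tr} {f g : Ob → Ob → Ob → Bool}

lemma n0_sound (hu : UpOK u) (hf : ∀ x y z, f x y z = true → Cov a b thr x y z)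
    (hg : ∀ x y z, g x y z = true → Cov a b thr x y z) (x y z : Ob)
    (h : n0 u t1 t2 f g x y z = true) : Cov a b thr x y z := by
  obtain ⟨xl, xh, yl, yh, sl, sh, c1, c2⟩ := x
  obtain ⟨l, r, h1, h2⟩ := hu _ _ _ _ _ _ _ _ _ h
  obtain ⟨h3, h4⟩ := band_true.1 h1
  exact Cov.s0 h2 (hf _ _ _ h3) (hg _ _ _ h4)

lemma n1_sound (hu : UpOK u) (hf : ∀ x y z, f x y z = true → Cov a b thr x y z)
    (hg : ∀ x y z, g x y z = true → Cov a b thr x y z) (x y z : Ob)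
    (h : n1 u t1 t2 f g x y z = true) : Cov a b thr x y z := by
  obtain ⟨xl, xh, yl, yh, sl, sh, c1, c2⟩ := y
  obtain ⟨l, r, h1, h2⟩ := hu _ _ _ _ _ _ _ _ _ h
  obtain ⟨h3, h4⟩ := band_true.1 h1
  exact Cov.s1 h2 (hf _ _ _ h3) (hg _ _ _ h4)

lemma n2_sound (hu : UpOK u) (hf : ∀ x y z, f x y z = true → Cov a b thr x y z)
    (hg : ∀ x y z, g x y z = true → Cov a b thr x y z) (x y z : Ob)
    (h : n2 u t1 t2 f g x y z = true) : Cov a b thr x y z := by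
  obtain ⟨xl, xh, yl, yh, sl, sh, c1, c2⟩ := z
  obtain ⟨l, r, h1, h2⟩ := hu _ _ _ _ _ _ _ _ _ h
  obtain ⟨h3, h4⟩ := band_true.1 h1
  exact Cov.s2 h2 (hf _ _ _ h3) (hg _ _ _ h4)

end

theorem sound' {a b thr : ℕ} (t : Tr) :
    ∀ o0 o1 o2, chk a b thr t o0 o1 o2 = true → Cov a b thr o0 o1 o2 := by
  induction t with
  | lf Y => exact fun _ _ _ => leaf_sound
  | p0 t1 t2 i1 i2 => exact n0_sound (t1 := t1) (t2 := t2) upX_ok i1 i2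
  | p1 t1 t2 i1 i2 => exact n0_sound (t1 := t1) (t2 := t2) upY_ok i1 i2
  | q0 t1 t2 i1 i2 => exact n1_sound (t1 := t1) (t2 := t2) upX_ok i1 i2
  | q1 t1 t2 i1 i2 => exact n1_sound (t1 := t1) (t2 := t2) upY_ok i1 i2
  | q2 t1 t2 i1 i2 => exact n1_sound (t1 := t1) (t2 := t2) upS_ok i1 i2
  | r0 t1 t2 i1 i2 => exact n2_sound (t1 := t1) (t2 := t2) upX_ok i1 i2
  | r1 t1 t2 i1 i2 => exact n2_sound (t1 := t1) (t2 := t2) upY_ok i1 i2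
  | r2 t1 t2 i1 i2 => exact n2_sound (t1 := t1) (t2 := t2) upS_ok i1 i2

theorem sound {a b thr : ℕ} {o0 o1 o2 : Ob} (t : Tr) (h : chk a b thr t o0 o1 o2 = true) :
    Cov a b thr o0 o1 o2 := sound' t o0 o1 o2 h

end Pool.Agent.Lib.MP_4662c0_co.Low
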