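import Pool.Agent.Lib.MP_4662c0_co.Leaf

set_option autoImplicit false

/-! Soundness of the branch and bound checker. -/

namespace Pool.Agent.Lib.MP_4662c0_co

open Real

lemma pick_spec {α : Type} (l : List α) : ∀ (n : ℕ) (k : α → List α → Bool), pick l n k = true →
    ∃ x rest, k x rest = true ∧ x ∈ l ∧ (∀ d ∈ l, d = x ∨ d ∈ rest) ∧ ∀ d ∈ rest, d ∈ l := by
  induction l with
  | nil => intro n k h; exact absurd h (by simp [pick])
  | cons x xs ih =>
    intro n k h
    cases n with
    | zero => exact ⟨x, xs, h, by simp, by simp, fun d hd => List.mem_cons_of_mem _ hd⟩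
    | succ m =>
      change pick xs m (fun y ys => k y (x :: ys)) = true at h
      obtain ⟨y, ys, h1, h2, h3, h4⟩ := ih _ _ h
      refine ⟨y, x :: ys, h1, List.mem_cons_of_mem _ h2, fun d hd => ?_, fun d hd => ?_⟩
      · rcases List.mem_cons.1 hd with rfl | hd
        · simp
        · rcases h3 d hd with h | h
          · exact Or.inl h
          · exact Or.inr (List.mem_cons_of_mem _ h)
      · rcases List.mem_cons.1 hd with rfl | hd
        · simp
        · exact List.mem_cons_of_mem _ (h4 d hd)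

lemma rotK_eq (ref : Bool) (c : ℕ) (k : Rt → Bool) : rotK ref c k = k (rotP ref c) := by
  simp only [rotK, intK_eq]

lemma holds_neg {γ : ℝ → ℂ} {d : Dp} {R : Rt} (h : ¬ Holds γ (depC d R 1)) :
    Holds γ (depC d R (-1)) := by
  simp only [Holds, depC, pval, imul_eq, List.map_cons, List.map_nil, List.sum_cons, List.sum_nil,
    not_le] at h ⊢
  push_cast at h ⊢
  linarith

/-- The hypotheses on a normalised curve that does not fit. -/
structure Good (G : ℤ) (ref : Bool) (deps : List Dp) (av0 : List (List Pe)) (γ : ℝ → ℂ) : Prop where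
  worm : Worm γ
  nofit : ∀ c, ∃ d ∈ deps, Holds γ (depC d (rotP ref c) 1)
  cut : ∀ c, Holds γ (cutC G (rotP false c))
  sym : ∀ c ∈ av0, Holds γ c

lemma chk_sound {A B r r2 Q S0 : ℕ} {G : ℤ} {ref : Bool} {deps : List Dp} {av0 : List (List Pe)}
    {γ : ℝ → ℂ} (hr : r2 ≤ r * r) (hg : Good G ref deps av0 γ) (t : Tr) :
    ∀ (l : List En) (av : List (List Pe)) (R : Rt) (rem : List Dp) (n : ℕ),
      chk A B r r2 Q S0 G ref deps t l av R rem n = true → Val A B γ l → (∀ c ∈ av, Holds γ c) →
      (∃ d ∈ rem, Holds γ (depC d R 1)) → False := by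
  induction t with
  | lf Y =>
    intro l av R rem n h hv _ _
    exact absurd (hv.2 Y) (not_le.2 (leafChk_spec hg.worm hr h hv.1))
  | rt c t ih =>
    intro l av R rem n h hv ha _
    change rotK ref c (fun R => chk A B r r2 Q S0 G ref deps t l av R deps n) = true at h
    rw [rotK_eq] at h
    exact ih _ _ _ _ _ h hv ha (hg.nofit c)
  | br j t1 t2 ih1 ih2 =>
    intro l av R rem n h hv ha hd
    change pick rem j (fun d rest => band (addC A B n (depC d R 1) l fun l' =>
      force (Nat.add n 26) fun n' => chk A B r r2 Q S0 G ref deps t1 l' av R rem n')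
      (chk A B r r2 Q S0 G ref deps t2 l (depC d R (-1) :: av) R rest n)) = true at h
    obtain ⟨d, rest, h1, -, h3, -⟩ := pick_spec _ _ _ h
    obtain ⟨h4, h5⟩ := band_true.1 h1
    by_cases hc : Holds γ (depC d R 1)
    · obtain ⟨l', h6, h7⟩ := addC_val hg.worm h4 hv hc
      rw [force_eq] at h6
      exact ih1 _ _ _ _ _ h6 h7 ha hd
    · refine ih2 _ _ _ _ _ h5 hv (List.forall_mem_cons.2 ⟨holds_neg hc, ha⟩) ?_
      obtain ⟨d', h6, h7⟩ := hd
      rcases h3 d' h6 with rfl | h8
      · exact absurd h7 hc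
      · exact ⟨d', h8, h7⟩
  | fn =>
    intro l av R rem n h _ _ hd
    obtain ⟨d, h1, -⟩ := hd
    cases rem with
    | nil => simp at h1
    | cons x xs => exact absurd h (by simp [chk])
  | ct c t ih =>
    intro l av R rem n h hv ha hd
    change rotK false c (fun R' => addC A B n (cutC G R') l fun l' =>
      force (Nat.add n 26) fun n' => chk A B r r2 Q S0 G ref deps t l' av R rem n') = true at h
    rw [rotK_eq] at h
    obtain ⟨l', h6, h7⟩ := addC_val hg.worm h hv (hg.cut c)
    rw [force_eq] at h6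
    exact ih _ _ _ _ _ h6 h7 ha hd
  | us i t ih =>
    intro l av R rem n h hv ha hd
    change pick av i (fun c rest => addC A B n c l fun l' =>
      force (Nat.add n 26) fun n' => chk A B r r2 Q S0 G ref deps t l' rest R rem n') = true at h
    obtain ⟨c, rest, h1, h2, -, h4⟩ := pick_spec _ _ _ h
    obtain ⟨l', h6, h7⟩ := addC_val hg.worm h1 hv (ha c h2)
    rw [force_eq] at h6
    exact ih _ _ _ _ _ h6 h7 (fun c hc => ha c (h4 c hc)) hd

/-- The invariant of a state. -/
def Inv (γ : ℝ → ℂ) (s : St) : Prop :=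
  (∀ c ∈ s.cs, Holds γ c) ∧ (∀ c ∈ s.av, Holds γ c) ∧ ∃ d ∈ s.rem, Holds γ (depC d s.R 1)

/-- No normalised curve reaches the end of the path. -/
def Dead (G : ℤ) (ref : Bool) (deps : List Dp) (av0 : List (List Pe)) (ops : List Op) : Prop :=
  ∀ γ, Good G ref deps av0 γ → ¬ Inv γ (st G ref deps av0 ops)

lemma addAll_val {γ : ℝ → ℂ} (h : Worm γ) {A B : ℕ} (cs : List (List Pe)) :
    ∀ k : List En → ℕ → Bool, addAll A B cs k = true → (∀ c ∈ cs, Holds γ c) →
      ∃ l n, k l n = true ∧ Val A B γ l := by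
  induction cs with
  | nil => intro k hk _; exact ⟨[], 52, hk, trivial, fun Y => by simp [tot]⟩
  | cons c cs ih =>
    intro k hk hc
    change addAll A B cs (fun l n => addC A B n c l fun l' =>
      force (Nat.add n 26) fun n' => k l' n') = true at hk
    obtain ⟨l, n, h1, h2⟩ := ih _ hk fun c' h' => hc c' (List.mem_cons_of_mem _ h')
    obtain ⟨l', h3, h4⟩ := addC_val h h1 h2 (hc c List.mem_cons_self)
    rw [force_eq] at h3
    exact ⟨l', _, h3, h4⟩

theorem go_sound {A B r r2 Q S0 : ℕ} {G : ℤ} {ref : Bool} {deps : List Dp} {av0 : List (List Pe)}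
    (hr : r2 ≤ r * r) (ops : List Op) (t : Tr) (h : go A B r r2 Q S0 G ref deps av0 ops t = true) :
    Dead G ref deps av0 ops := by
  intro γ hg hi
  obtain ⟨l, n, h1, h2⟩ := addAll_val hg.worm _ _ h hi.1
  exact chk_sound hr hg t _ _ _ _ _ h1 h2 hi.2.1 hi.2.2

lemma mem_erase_or {α : Type} (d0 : α) {l : List α} {d : α} (j : ℕ) (h : d ∈ l) :
    d = l.getD j d0 ∨ d ∈ l.eraseIdx j := by
  induction l generalizing j with
  | nil => simp at h
  | cons x xs ih =>
    cases j with
    | zero => simpa using h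
    | succ j =>
      rcases List.mem_cons.1 h with rfl | h
      · simp
      · rcases ih j h with h | h
        · exact Or.inl (by simpa using h)
        · exact Or.inr (by simp [h])

variable {G : ℤ} {ref : Bool} {deps : List Dp} {av0 : List (List Pe)} {ops : List Op}

theorem Dead.rt (c : ℕ) (h : Dead G ref deps av0 (.rt c :: ops)) : Dead G ref deps av0 ops :=
  fun γ hg hi => h γ hg ⟨hi.1, hi.2.1, hg.nofit c⟩

theorem Dead.ct (c : ℕ) (h : Dead G ref deps av0 (.ct c :: ops)) : Dead G ref deps av0 ops :=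
  fun γ hg hi => h γ hg ⟨List.forall_mem_cons.2 ⟨hg.cut c, hi.1⟩, hi.2⟩

theorem Dead.us (i : ℕ) (h : Dead G ref deps av0 (.us i :: ops)) : Dead G ref deps av0 ops := by
  refine fun γ hg hi => h γ hg ⟨List.forall_mem_cons.2 ⟨?_, hi.1⟩,
    fun c hc => hi.2.1 c (List.mem_of_mem_eraseIdx hc), hi.2.2⟩
  show Holds γ ((st G ref deps av0 ops).av.getD i [])
  rw [List.getD_eq_getElem?_getD]
  cases h1 : (st G ref deps av0 ops).av[i]? with
  | none => simp [Holds]
  | some c => exact hi.2.1 c (List.mem_of_getElem? h1)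

theorem Dead.br (j : ℕ) (h1 : Dead G ref deps av0 (.lt j :: ops))
    (h2 : Dead G ref deps av0 (.gt j :: ops)) : Dead G ref deps av0 ops := by
  intro γ hg hi
  by_cases hc : Holds γ (depC ((st G ref deps av0 ops).rem.getD j d0) (st G ref deps av0 ops).R 1)
  · exact h1 γ hg ⟨List.forall_mem_cons.2 ⟨hc, hi.1⟩, hi.2⟩
  · refine h2 γ hg ⟨hi.1, List.forall_mem_cons.2 ⟨holds_neg hc, hi.2.1⟩, ?_⟩
    obtain ⟨d, h3, h4⟩ := hi.2.2
    rcases mem_erase_or d0 j h3 with rfl | h5
    · exact absurd h4 hc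
    · exact ⟨d, h5, h4⟩

theorem Dead.root (h : Dead G ref deps av0 []) (γ : ℝ → ℂ) : ¬ Good G ref deps av0 γ :=
  fun hg => h γ hg ⟨by simp [st], hg.sym, hg.nofit 0⟩

end Pool.Agent.Lib.MP_4662c0_co
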